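import Mathlib
import Pool.Agent.LibND.Defs

set_option autoImplicit false

/-! Definitions for the lower bound theorem for all finitely generated abelian-by-abelian groups. -/

namespace Pool.Agent.LibNM

open Polynomial Filter Topology

/-- The additive characters of `K` which are continuous at `0` separate the points. -/
def GoodField (K : Type) [NormedField K] : Prop :=
  ∀ z : K, z ≠ 0 → ∃ ψ : AddChar K Circle, Tendsto ψ (𝓝 0) (𝓝 1) ∧ ψ z ≠ 1

/-- The Noether parameter `t` of the `ℚ[X]`-algebra `E`. -/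
noncomputable def tE (E : Type) [CommRing E] [Algebra ℚ[X] E] : E := algebraMap ℚ[X] E X

/-- The characteristic polynomial over `ℚ[X]` of the multiplication by `β`. -/
noncomputable def cp {E : Type} [CommRing E] [Algebra ℚ[X] E] [Module.Finite ℚ[X] E]
    [Module.Free ℚ[X] E] (β : E) : ℚ[X][X] := (Algebra.lmul ℚ[X] E β).charpoly

/-- The evaluation `ℚ[X] → K` at the integer `τ`. -/
noncomputable def evK (K : Type) [Field K] [CharZero K] (τ : ℤ) : ℚ[X] →+* K :=
  Polynomial.eval₂RingHom (algebraMap ℚ K) (τ : K)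

/-- `ℓ` is the vector of the `log |σ (u j)|` for a ring homomorphism `σ : E → K` over `τ` to a
normed field of characteristic zero with enough characters. -/
def IsTest {E : Type} [CommRing E] [Algebra ℚ[X] E] {r : ℕ} (u : Fin r → Eˣ) (τ : ℤ)
    (ℓ : Fin r → ℝ) : Prop :=
  ∃ (K : Type) (_ : NormedField K), GoodField K ∧ CharZero K ∧
    ∃ σ : E →+* K, σ (tE E) = (τ : K) ∧ ∀ j, ℓ j = Real.log ‖σ (u j : E)‖

/-- `N / K` has infinite rank, for `N` abelian modulo `K`. -/
def InfRank {G : Type} [Group G] (N K : Subgroup G) : Prop :=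
  ∀ k : ℕ, ∃ a : Fin k → G, (∀ i, a i ∈ N) ∧
    ∀ c : Fin k → ℤ, (List.ofFn fun i => a i ^ c i).prod ∈ K → c = 0

end Pool.Agent.LibNM
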