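import Mathlib
import Pool.Agent.LibNM.Defs

set_option autoImplicit false

/-! [NM N02] The selection lemma.

PLAN. Put `E := Fin r → ℝ` and write `ℓ x := ∑ j, x j * ℓ j`. Prove by strong induction on
`d = finrank (Submodule.span ℝ C)` (or `Module.finrank` of the span) the statement: for every CLOSED
CONVEX CONE `C ⊆ E` (`IsClosed C`, `Convex ℝ C`, `x ∈ C → 0 ≤ t → t • x ∈ C`, `0 ∈ C`) and every infinite
`T : Set ℤ` there is a countable selection: `S ⊆ T` and `ℓ : ℤ → Fin r → ℝ` with `ℓ τ ∈ 𝓛 τ` for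
`τ ∈ S` and `∀ x ∈ C, x ≠ 0 → ∃ τ ∈ S, ∑ j, x j * ℓ τ j < 0`.
`d = 0`: `C = {0}`, `S = ∅`. `d > 0`: split `T` into two disjoint infinite sets `T₁`, `T₂` (`T` is
infinite: an injection `ℕ → T`, even and odd). `C` is separable: a countable set `{x_k}` of NONZERO points
of `C`, dense in `C` (if `C ≠ {0}`; `C \ {0}` is separable, and dense in `C` because `C` is a cone). Choose
recursively distinct `τ_k ∈ T₁` and `ℓ_k ∈ 𝓛 τ_k` with `ℓ_k x_k < 0` (the hypothesis `h` for the infinite set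
`T₁ \ {τ_0, ..., τ_(k-1)}`; for example `Nat.strongRec` / `exists_seq_of_forall_finset_exists`).
`C₁ := {x ∈ C | ∀ k, 0 ≤ ℓ_k x}` is a closed convex cone without any `x_k`. If its span were the span `H` of
`C`, then `C₁` would have an interior point relative to `H` (`Convex.interior_nonempty_iff_affineSpan_eq_top`
in the space `H`, or `intrinsicInterior`: `Set.Nonempty.intrinsicInterior` gives a point of
`intrinsicInterior ℝ C₁`, a set which is open in `affineSpan ℝ C₁ = H ⊇ C`), and a dense `x_k` would lie in `C₁`: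
contradiction. So the span of `C₁` has smaller dimension; induct with `C₁`, `T₂`; take the union (the two
selections live on the disjoint sets `T₁`, `T₂`).
Finally take `C = univ` and the compact unit sphere `{x | ‖x‖ = 1}`: it is covered by the open sets
`{x | ∑ j, x j * ℓ τ j < 0}`, `τ ∈ S`; a finite subcover gives `s` (and scaling gives all `x ≠ 0`). -/

namespace Pool.Agent.LibNM

open Polynomial Filter Topology

private theorem N02_lin {r : ℕ} (x y ℓ : Fin r → ℝ) (a b : ℝ) :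
    ∑ j, (a • x + b • y) j * ℓ j = a * ∑ j, x j * ℓ j + b * ∑ j, y j * ℓ j := by
  rw [Finset.mul_sum, Finset.mul_sum, ← Finset.sum_add_distrib]
  refine Finset.sum_congr rfl fun j _ => ?_
  simp only [Pi.add_apply, Pi.smul_apply, smul_eq_mul]
  ring

/-- a sequence of nonzero points of a nontrivial subspace which meets every nonempty open set -/
private theorem N02_dense {r : ℕ} (H : Submodule ℝ (Fin r → ℝ)) (hH : H ≠ ⊥) :
    ∃ y : ℕ → H, (∀ k, y k ≠ 0) ∧ ∀ U : Set H, IsOpen U → U.Nonempty → ∃ k, y k ∈ U := by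
  classical
  have : Nontrivial H := Submodule.nontrivial_iff_ne_bot.2 hH
  obtain ⟨e, he⟩ := exists_ne (0 : H)
  refine ⟨fun k => if TopologicalSpace.denseSeq H k = 0 then e else TopologicalSpace.denseSeq H k, ?_, ?_⟩
  · intro k
    by_cases h : TopologicalSpace.denseSeq H k = 0
    · simp only [h, if_true]
      exact he
    · simp only [h, if_false]
      exact h
  · intro U hU hne
    have hnb : (𝓝[≠] (0 : H)).NeBot := Module.punctured_nhds_neBot ℝ H 0
    obtain ⟨z, hzU, hz0⟩ := (dense_compl_singleton (0 : H)).inter_open_nonempty U hU hne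
    have hV : IsOpen (U ∩ {0}ᶜ) := hU.inter isOpen_compl_singleton
    obtain ⟨k, hk⟩ := (TopologicalSpace.denseRange_denseSeq H).exists_mem_open hV ⟨z, hzU, hz0⟩
    refine ⟨k, ?_⟩
    have h0 : TopologicalSpace.denseSeq H k ≠ 0 := hk.2
    simp only [h0, if_false]
    exact hk.1

/-- the points where all forms are nonnegative do not span -/
private theorem N02_span {r : ℕ} (H : Submodule ℝ (Fin r → ℝ)) (y : ℕ → H)
    (hy : ∀ U : Set H, IsOpen U → U.Nonempty → ∃ k, y k ∈ U) (L : ℕ → Fin r → ℝ)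
    (hL : ∀ k, ∑ j, (y k : Fin r → ℝ) j * L k j < 0) :
    Submodule.span ℝ {x : H | ∀ k, 0 ≤ ∑ j, (x : Fin r → ℝ) j * L k j} ≠ ⊤ := by
  intro hspan
  have h0 : (0 : H) ∈ {x : H | ∀ k, 0 ≤ ∑ j, (x : Fin r → ℝ) j * L k j} := by
    intro k
    simp
  have hconv : Convex ℝ {x : H | ∀ k, 0 ≤ ∑ j, (x : Fin r → ℝ) j * L k j} := by
    intro x hx z hz a b ha hb _ k
    have e : ((a • x + b • z : H) : Fin r → ℝ) = a • (x : Fin r → ℝ) + b • (z : Fin r → ℝ) := rfl
    rw [e, N02_lin]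
    exact add_nonneg (mul_nonneg ha (hx k)) (mul_nonneg hb (hz k))
  have hv : vectorSpan ℝ {x : H | ∀ k, 0 ≤ ∑ j, (x : Fin r → ℝ) j * L k j} = ⊤ := by
    rw [vectorSpan_eq_span_vsub_set_right ℝ h0]
    simpa using hspan
  have ha : affineSpan ℝ {x : H | ∀ k, 0 ≤ ∑ j, (x : Fin r → ℝ) j * L k j} = ⊤ :=
    (AffineSubspace.affineSpan_eq_top_iff_vectorSpan_eq_top_of_nonempty ℝ H H ⟨0, h0⟩).2 hv
  have hint := hconv.interior_nonempty_iff_affineSpan_eq_top.2 ha
  obtain ⟨k, hk⟩ := hy _ isOpen_interior hint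
  have h1 := interior_subset hk k
  have h2 := hL k
  linarith

/-- disjoint infinite subsets of an infinite set -/
private theorem N02_parts (T : Set ℤ) (hT : T.Infinite) :
    ∃ A : ℕ → Set ℤ, (∀ k, A k ⊆ T) ∧ (∀ k, (A k).Infinite) ∧ ∀ k l, ∀ x, x ∈ A k → x ∈ A l → k = l := by
  have g := hT.natEmbedding
  refine ⟨fun k => Set.range fun m => ((g (Nat.pair k m) : T) : ℤ), ?_, ?_, ?_⟩
  · rintro k _ ⟨m, rfl⟩
    exact (g (Nat.pair k m)).2
  · intro k
    refine Set.infinite_range_of_injective ?_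
    intro m m' h
    have h1 : g (Nat.pair k m) = g (Nat.pair k m') := Subtype.ext h
    have h2 := g.injective h1
    exact (Nat.pair_eq_pair.1 h2).2
  · rintro k l x ⟨m, rfl⟩ ⟨m', h⟩
    have h1 : g (Nat.pair l m') = g (Nat.pair k m) := Subtype.ext h
    exact (Nat.pair_eq_pair.1 (g.injective h1)).1.symm

private theorem N02_main {r : ℕ} (𝓛 : ℤ → Set (Fin r → ℝ))
    (h : ∀ T' : Set ℤ, T'.Infinite → ∀ x : Fin r → ℝ, x ≠ 0 →
      ∃ τ ∈ T', ∃ ℓ ∈ 𝓛 τ, ∑ j, x j * ℓ j < 0) (n : ℕ) :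
    ∀ H : Submodule ℝ (Fin r → ℝ), Module.finrank ℝ H = n → ∀ T : Set ℤ, T.Infinite →
      ∃ S : Set (ℤ × (Fin r → ℝ)), (∀ p ∈ S, p.1 ∈ T ∧ p.2 ∈ 𝓛 p.1) ∧
        (∀ p ∈ S, ∀ q ∈ S, p.1 = q.1 → p = q) ∧
        ∀ x ∈ H, x ≠ 0 → ∃ p ∈ S, ∑ j, x j * p.2 j < 0 := by
  induction n using Nat.strong_induction_on with
  | _ n ih =>
    intro H hn T hT
    by_cases hH : H = ⊥
    · refine ⟨∅, fun p hp => absurd hp (Set.notMem_empty p), fun p hp => absurd hp (Set.notMem_empty p), ?_⟩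
      intro x hx hx0
      rw [hH, Submodule.mem_bot] at hx
      exact absurd hx hx0
    · obtain ⟨y, hy0, hy⟩ := N02_dense H hH
      obtain ⟨A, hAT, hAi, hA⟩ := N02_parts T hT
      have hc : ∀ k, ∃ τ ∈ A (k + 1), ∃ ℓ ∈ 𝓛 τ, ∑ j, (y k : Fin r → ℝ) j * ℓ j < 0 := by
        intro k
        refine h _ (hAi (k + 1)) _ ?_
        intro h0
        exact hy0 k (Subtype.ext h0)
      choose τ hτ L hL hneg using hc
      have hsp := N02_span H y hy L hneg
      obtain ⟨S₀, hS1, hS2, hS3⟩ := ih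
        (Module.finrank ℝ ((Submodule.span ℝ {x : H | ∀ k, 0 ≤ ∑ j, (x : Fin r → ℝ) j * L k j}).map H.subtype))
        (by
          rw [Submodule.finrank_map_subtype_eq, ← hn]
          exact Submodule.finrank_lt hsp) _ rfl (A 0) (hAi 0)
      refine ⟨S₀ ∪ Set.range fun k => (τ k, L k), ?_, ?_, ?_⟩
      · rintro p (hp | ⟨k, rfl⟩)
        · exact ⟨hAT 0 (hS1 p hp).1, (hS1 p hp).2⟩
        · exact ⟨hAT _ (hτ k), hL k⟩
      · rintro p (hp | ⟨k, rfl⟩) q (hq | ⟨l, rfl⟩) hpq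
        · exact hS2 p hp q hq hpq
        · have h1 : p.1 ∈ A (l + 1) := by
            rw [hpq]
            exact hτ l
          exact absurd (hA _ _ _ (hS1 p hp).1 h1) (by omega)
        · have h1 : q.1 ∈ A (k + 1) := by
            rw [← hpq]
            exact hτ k
          exact absurd (hA _ _ _ (hS1 q hq).1 h1) (by omega)
        · have h1 : τ k ∈ A (l + 1) := by
            have h2 : τ k = τ l := hpq
            rw [h2]
            exact hτ l
          have h3 : k + 1 = l + 1 := hA _ _ _ (hτ k) h1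
          have h4 : k = l := by omega
          rw [h4]
      · intro x hx hx0
        by_cases hC : ∀ k, 0 ≤ ∑ j, x j * L k j
        · obtain ⟨p, hp, hp2⟩ := hS3 x (by
            refine ⟨⟨x, hx⟩, Submodule.subset_span ?_, rfl⟩
            exact hC) hx0
          exact ⟨p, Or.inl hp, hp2⟩
        · push Not at hC
          obtain ⟨k, hk⟩ := hC
          exact ⟨(τ k, L k), Or.inr ⟨k, rfl⟩, hk⟩

theorem selection {r : ℕ} (𝓛 : ℤ → Set (Fin r → ℝ))
    (h : ∀ T' : Set ℤ, T'.Infinite → ∀ x : Fin r → ℝ, x ≠ 0 →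
      ∃ τ ∈ T', ∃ ℓ ∈ 𝓛 τ, ∑ j, x j * ℓ j < 0)
    (T : Set ℤ) (hT : T.Infinite) :
    ∃ (s : Finset ℤ) (ℓ : ℤ → Fin r → ℝ), (s : Set ℤ) ⊆ T ∧ (∀ τ ∈ s, ℓ τ ∈ 𝓛 τ) ∧
      ∀ x : Fin r → ℝ, x ≠ 0 → ∃ τ ∈ s, ∑ j, x j * ℓ τ j < 0 := by
  classical
  obtain ⟨S, hS1, hS2, hS3⟩ := N02_main 𝓛 h _ ⊤ rfl T hT
  have hcomp : IsCompact (Metric.sphere (0 : Fin r → ℝ) 1) := isCompact_sphere _ _
  obtain ⟨b, hbS, hbf, hcov⟩ := hcomp.elim_finite_subcover_image (b := S)
    (c := fun p : ℤ × (Fin r → ℝ) => {x : Fin r → ℝ | ∑ j, x j * p.2 j < 0})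
    (by
      intro p _
      exact isOpen_lt (by fun_prop) continuous_const)
    (by
      intro x hx
      have hx0 : x ≠ 0 := by
        rintro rfl
        simp at hx
      obtain ⟨p, hp, hp2⟩ := hS3 x (Submodule.mem_top) hx0
      exact Set.mem_iUnion₂.2 ⟨p, hp, hp2⟩)
  let ℓ : ℤ → Fin r → ℝ := fun τ => if hτ : ∃ e, (τ, e) ∈ b then hτ.choose else 0
  have hℓ : ∀ p ∈ b, ℓ p.1 = p.2 := by
    intro p hp
    have hex : ∃ e, (p.1, e) ∈ b := ⟨p.2, hp⟩
    have h1 : ℓ p.1 = hex.choose := dif_pos hex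
    rw [h1]
    have h2 := hS2 _ (hbS hex.choose_spec) p (hbS hp) rfl
    exact congrArg Prod.snd h2
  refine ⟨hbf.toFinset.image Prod.fst, ℓ, ?_, ?_, ?_⟩
  · intro τ hτ
    rw [Finset.mem_coe, Finset.mem_image] at hτ
    obtain ⟨p, hp, rfl⟩ := hτ
    exact (hS1 p (hbS (hbf.mem_toFinset.1 hp))).1
  · intro τ hτ
    rw [Finset.mem_image] at hτ
    obtain ⟨p, hp, rfl⟩ := hτ
    have hp' := hbf.mem_toFinset.1 hp
    rw [hℓ p hp']
    exact (hS1 p (hbS hp')).2
  · intro x hx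
    have hn : 0 < ‖x‖ := norm_pos_iff.2 hx
    have hs : ‖x‖⁻¹ • x ∈ Metric.sphere (0 : Fin r → ℝ) 1 := by
      rw [mem_sphere_zero_iff_norm, norm_smul, norm_inv, norm_norm, inv_mul_cancel₀ hn.ne']
    obtain ⟨p, hp, hp2⟩ := Set.mem_iUnion₂.1 (hcov hs)
    refine ⟨p.1, Finset.mem_image.2 ⟨p, hbf.mem_toFinset.2 hp, rfl⟩, ?_⟩
    rw [hℓ p hp]
    have h3 : ∑ j, (‖x‖⁻¹ • x) j * p.2 j < 0 := hp2
    have h4 : ∑ j, (‖x‖⁻¹ • x) j * p.2 j = ‖x‖⁻¹ * ∑ j, x j * p.2 j := by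
      rw [Finset.mul_sum]
      refine Finset.sum_congr rfl fun j _ => ?_
      simp only [Pi.smul_apply, smul_eq_mul]
      ring
    rw [h4] at h3
    by_contra hcon
    push Not at hcon
    exact absurd h3 (not_lt.2 (mul_nonneg (inv_nonneg.2 hn.le) hcon))

end Pool.Agent.LibNM
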