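import Mathlib
import Pool.Agent.LibNM.Defs

set_option autoImplicit false

/-! [NM N04] The roots of the characteristic polynomial of `β` at `τ` are the values of homomorphisms.

PLAN. Make `K` a `ℚ[X]`-algebra by `letI : Algebra ℚ[X] K := (evK K τ).toAlgebra`. `A := K ⊗[ℚ[X]] E` is a
finite free `K`-module and a commutative `K`-algebra; multiplication by `1 ⊗ β` is
`(Algebra.lmul ℚ[X] E β).baseChange K` with characteristic polynomial `(cp β).map (evK K τ)`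
(`Algebra.baseChange_lmul`, `LinearMap.charpoly_baseChange`; see
Mathlib/RingTheory/Spectrum/Prime/Polynomial.lean line 54). `lam` is a root, so an eigenvalue
(`Module.End.hasEigenvalue_iff_isRoot_charpoly`): `a ≠ 0` with `(1 ⊗ β - lam) * a = 0`, so
`1 ⊗ β - lam ⊗ 1` is not a unit; it lies in a maximal ideal `𝔪` of `A` (`exists_max_ideal_of_mem_nonunits`).
`A ⧸ 𝔪` is a field, finite over the algebraically closed field `K`, so `algebraMap K (A ⧸ 𝔪)` is bijective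
(`IsAlgClosed.algebraMap_bijective_of_isIntegral`). `σ := (inverse) ∘ (A → A ⧸ 𝔪) ∘ (E → A, e ↦ 1 ⊗ e)`.
`σ (tE E) = τ` since `1 ⊗ algebraMap X = algebraMap (evK X) ⊗ 1 = τ`. -/

namespace Pool.Agent.LibNM

open Polynomial Filter Topology TensorProduct

theorem exists_hom {K : Type} [Field K] [CharZero K] [IsAlgClosed K] {E : Type} [CommRing E]
    [Algebra ℚ[X] E] [Module.Finite ℚ[X] E] [Module.Free ℚ[X] E] (τ : ℤ) (β : E) (lam : K)
    (h : ((cp β).map (evK K τ)).eval lam = 0) :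
    ∃ σ : E →+* K, σ (tE E) = (τ : K) ∧ σ β = lam := by
  letI : Algebra ℚ[X] K := (evK K τ).toAlgebra
  have hmap : algebraMap ℚ[X] K = evK K τ := rfl
  have h2 : (Algebra.lmul K (K ⊗[ℚ[X]] E) (1 ⊗ₜ β)).charpoly = (cp β).map (evK K τ) := by
    rw [← Algebra.baseChange_lmul, LinearMap.charpoly_baseChange]
    rfl
  have h3 : Module.End.HasEigenvalue (Algebra.lmul K (K ⊗[ℚ[X]] E) (1 ⊗ₜ β)) lam := by
    rw [Module.End.hasEigenvalue_iff_isRoot_charpoly, h2]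
    exact h
  obtain ⟨a, ha⟩ := h3.exists_hasEigenvector
  have ha1 : (1 ⊗ₜ β : K ⊗[ℚ[X]] E) * a = lam • a := ha.apply_eq_smul
  have ha0 : a ≠ 0 := ha.2
  have hnu : (1 ⊗ₜ β : K ⊗[ℚ[X]] E) - algebraMap K (K ⊗[ℚ[X]] E) lam ∈
      nonunits (K ⊗[ℚ[X]] E) := by
    intro hu
    apply ha0
    have h4 : ((1 ⊗ₜ β : K ⊗[ℚ[X]] E) - algebraMap K (K ⊗[ℚ[X]] E) lam) * a = 0 := by
      rw [sub_mul, ha1, Algebra.smul_def, sub_self]
    exact hu.mul_right_eq_zero.1 h4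
  obtain ⟨m, hm, hbm⟩ := exists_max_ideal_of_mem_nonunits hnu
  haveI := hm
  letI : Field ((K ⊗[ℚ[X]] E) ⧸ m) := Ideal.Quotient.field m
  haveI : Algebra.IsIntegral K (K ⊗[ℚ[X]] E) := inferInstance
  haveI : Algebra.IsIntegral K ((K ⊗[ℚ[X]] E) ⧸ m) := inferInstance
  have hbij : Function.Bijective (algebraMap K ((K ⊗[ℚ[X]] E) ⧸ m)) :=
    IsAlgClosed.algebraMap_bijective_of_isIntegral
  let e : K ≃+* ((K ⊗[ℚ[X]] E) ⧸ m) := RingEquiv.ofBijective _ hbij
  let i : E →+* (K ⊗[ℚ[X]] E) :=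
    (Algebra.TensorProduct.includeRight : E →ₐ[ℚ[X]] (K ⊗[ℚ[X]] E)).toRingHom
  refine ⟨(e.symm : ((K ⊗[ℚ[X]] E) ⧸ m) →+* K).comp ((Ideal.Quotient.mk m).comp i), ?_, ?_⟩
  · have h5 : i (tE E) = algebraMap K (K ⊗[ℚ[X]] E) (τ : K) := by
      have h6 : i (tE E) = algebraMap ℚ[X] (K ⊗[ℚ[X]] E) X :=
        (Algebra.TensorProduct.includeRight : E →ₐ[ℚ[X]] (K ⊗[ℚ[X]] E)).commutes X
      rw [h6, IsScalarTower.algebraMap_apply ℚ[X] K (K ⊗[ℚ[X]] E), hmap]
      congr 1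
      simp [evK]
    change e.symm ((Ideal.Quotient.mk m) (i (tE E))) = _
    rw [h5, RingEquiv.symm_apply_eq]
    rfl
  · have h5 : (Ideal.Quotient.mk m) (i β) = (Ideal.Quotient.mk m) (algebraMap K _ lam) :=
      Ideal.Quotient.eq.2 hbm
    change e.symm ((Ideal.Quotient.mk m) (i β)) = _
    rw [h5, RingEquiv.symm_apply_eq]
    rfl

/-- Homomorphisms over every integer exist. -/
theorem exists_hom' (K : Type) [Field K] [CharZero K] [IsAlgClosed K] (E : Type) [CommRing E]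
    [Nontrivial E] [Algebra ℚ[X] E] [Module.Finite ℚ[X] E] [Module.Free ℚ[X] E] (τ : ℤ) :
    ∃ σ : E →+* K, σ (tE E) = (τ : K) := by
  -- `exists_hom` for `β := 0` and `lam := 0`: `cp 0 = X ^ m`, `m ≥ 1`; or any root of `cp 0`
  have hm : (cp (0 : E)).Monic := LinearMap.charpoly_monic _
  have hd : (cp (0 : E)).natDegree = Module.finrank ℚ[X] E := LinearMap.charpoly_natDegree _
  have hpos : 0 < Module.finrank ℚ[X] E := Module.finrank_pos
  have hd2 : ((cp (0 : E)).map (evK K τ)).natDegree ≠ 0 := by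
    rw [hm.natDegree_map, hd]
    exact hpos.ne'
  have hdeg : ((cp (0 : E)).map (evK K τ)).degree ≠ 0 := by
    intro h0
    exact hd2 (natDegree_eq_of_degree_eq_some h0)
  obtain ⟨lam, hlam⟩ := IsAlgClosed.exists_root _ hdeg
  obtain ⟨σ, h1, -⟩ := exists_hom τ (0 : E) lam hlam
  exact ⟨σ, h1⟩

end Pool.Agent.LibNM
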