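import Mathlib
import Pool.Agent.LibNM.Defs

set_option autoImplicit false

/-! [NM N08] The archimedean companion of a homomorphism, and a generic archimedean character.

PLAN. `companion`: `P := RingHom.ker σ`, a prime ideal containing `tE E - τ`. `E ⧸ P` is a domain, a
`ℚ`-algebra (through `ℚ → ℚ[X] → E`) and finite over `ℚ`: `E` is a finite `ℚ[X]`-module and `ℚ[X]` acts on
`E ⧸ P` through `ℚ[X] → ℚ`, `X ↦ τ`. So `E ⧸ P` is a field, algebraic over `ℚ`
(`isField_of_isIntegral_of_isField'`, `Algebra.IsIntegral.of_finite`), and `IsAlgClosed.lift` gives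
`E ⧸ P →ₐ[ℚ] ℂ`, injective. `σ' := lift ∘ Ideal.Quotient.mk`.
`generic_char`: for `z ≠ 0` the set `{c : ℂ | ∃ m : ℤ, (c * z).re = m}` is a countable union of real
lines, so it is a null set; a countable union of null sets is not `ℂ`. Simpler: try `c = exp (i θ)`-free
variant `c = a + b I` with `a` real outside a countable set: first choose `b := √2`-like so that
`Re (c z) = a Re z - b Im z`; for `z` with `Re z = 0`, `Im z ≠ 0` we need `b Im z ∉ ℤ` (countably many `b` are
forbidden: `b ∈ {m / Im z}`), and for `z` with `Re z ≠ 0` we need `a ∉ {(m + b Im z) / Re z}` (countably many).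
`Set.Countable` subsets of `ℝ` have nonempty complement (`Set.Countable.dense_compl` or
`not_countable`). `ψ w := ex ((c * w).re)`, `ψ z = 1 ↔ (c z).re ∈ ℤ`. -/

namespace Pool.Agent.LibNM

open Polynomial Filter Topology Pool.Agent.LibND

theorem companion {E : Type} [CommRing E] [Algebra ℚ[X] E] [Module.Finite ℚ[X] E] {K : Type}
    [Field K] [CharZero K] (τ : ℤ) (σ : E →+* K) (hσ : σ (tE E) = (τ : K)) :
    ∃ σ' : E →+* ℂ, σ' (tE E) = (τ : ℂ) ∧ ∀ e, σ' e = 0 → σ e = 0 := by
  have hcomp : σ.comp (algebraMap ℚ[X] E) =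
      (algebraMap ℚ K).comp (Polynomial.evalRingHom (τ : ℚ)) := by
    refine Polynomial.ringHom_ext' (Subsingleton.elim _ _) ?_
    show σ (algebraMap ℚ[X] E X) = algebraMap ℚ K (Polynomial.eval (τ : ℚ) X)
    rw [eval_X, map_intCast]
    exact hσ
  have hint : ∀ e : E, σ e ∈ algebraicClosure ℚ K := by
    intro e
    rw [mem_algebraicClosure_iff]
    have h1 : IsIntegral ℚ[X] e := Algebra.IsIntegral.isIntegral e
    obtain ⟨f, hf, hfe⟩ := h1
    have h2 : IsIntegral ℚ (σ e) := by
      refine ⟨f.map (Polynomial.evalRingHom (τ : ℚ)), hf.map _, ?_⟩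
      rw [Polynomial.eval₂_map, ← hcomp, ← Polynomial.hom_eval₂, hfe, map_zero]
    exact h2.isAlgebraic
  have halg : Algebra.IsAlgebraic ℚ (algebraicClosure ℚ K) := ⟨fun x =>
    (isAlgebraic_algHom_iff (algebraicClosure ℚ K).val.toRingHom.toRatAlgHom
      Subtype.val_injective).1 (mem_algebraicClosure_iff.1 x.2)⟩
  refine ⟨((IsAlgClosed.lift : (algebraicClosure ℚ K) →ₐ[ℚ] ℂ) : (algebraicClosure ℚ K) →+* ℂ).comp
    (σ.codRestrict (algebraicClosure ℚ K) hint), ?_, ?_⟩
  · have h1 : σ.codRestrict (algebraicClosure ℚ K) hint (tE E) = ((τ : ℤ) : algebraicClosure ℚ K) := by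
      apply Subtype.ext
      show σ (tE E) = (((τ : ℤ) : algebraicClosure ℚ K) : K)
      rw [hσ]
      norm_cast
    rw [RingHom.comp_apply, h1, map_intCast]
  · intro e he
    rw [RingHom.comp_apply, map_eq_zero] at he
    exact congrArg Subtype.val he

theorem generic_char (Z : Set ℂ) (hZ : Z.Countable) :
    ∃ ψ : AddChar ℂ Circle, ∀ z ∈ Z, z ≠ 0 → ψ z ≠ 1 := by
  have hc1 : (((fun p : ℂ × ℤ => (p.2 : ℝ) / p.1.im) '' (Z ×ˢ (Set.univ : Set ℤ)))).Countable :=
    (hZ.prod Set.countable_univ).image _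
  obtain ⟨b, hb⟩ := (hc1.dense_compl ℝ).nonempty
  have hc2 : (((fun p : ℂ × ℤ => ((p.2 : ℝ) + b * p.1.im) / p.1.re) ''
      (Z ×ˢ (Set.univ : Set ℤ)))).Countable := (hZ.prod Set.countable_univ).image _
  obtain ⟨a, ha⟩ := (hc2.dense_compl ℝ).nonempty
  have hadd : ∀ x y : ℝ, ex (x + y) = ex x * ex y := by
    intro x y
    unfold ex
    rw [mul_add, Circle.exp_add]
  refine ⟨{ toFun := fun w => ex (a * w.re - b * w.im)
            map_zero_eq_one' := by
              show ex (a * (0 : ℂ).re - b * (0 : ℂ).im) = 1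
              unfold ex
              rw [Complex.zero_re, Complex.zero_im, mul_zero, mul_zero, sub_zero, mul_zero,
                Circle.exp_zero]
            map_add_eq_mul' := fun x y => by
              show ex (a * (x + y).re - b * (x + y).im) =
                ex (a * x.re - b * x.im) * ex (a * y.re - b * y.im)
              rw [← hadd, Complex.add_re, Complex.add_im]
              congr 1
              ring }, ?_⟩
  intro z hz hz0 h1
  have h2 : ex (a * z.re - b * z.im) = 1 := h1
  unfold ex at h2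
  rw [Circle.exp_eq_one] at h2
  obtain ⟨m, hm⟩ := h2
  have h3 : a * z.re - b * z.im = m := by
    have hpi : (2 * Real.pi) ≠ 0 := by positivity
    have h4 : (2 * Real.pi) * (a * z.re - b * z.im) = (2 * Real.pi) * m := by
      rw [hm]
      ring
    exact mul_left_cancel₀ hpi h4
  by_cases hre : z.re = 0
  · have him : z.im ≠ 0 := by
      intro him
      exact hz0 (Complex.ext hre him)
    apply hb
    refine ⟨(z, -m), ⟨hz, Set.mem_univ _⟩, ?_⟩
    show (((-m : ℤ)) : ℝ) / z.im = b
    rw [hre, mul_zero, zero_sub] at h3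
    push_cast
    rw [← h3]
    field_simp
  · apply ha
    refine ⟨(z, m), ⟨hz, Set.mem_univ _⟩, ?_⟩
    show ((m : ℝ) + b * z.im) / z.re = a
    rw [← h3]
    field_simp
    ring

end Pool.Agent.LibNM
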