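import Mathlib
import Pool.Agent.LibNM.Defs
import Pool.Agent.LibND.N20

set_option autoImplicit false

/-! [NM N01] Good fields.

PLAN. `goodField_complex`: for `z ≠ 0` take `ψ w := ex ((w / z).re / 2)` (`ex r = Circle.exp (2 π r)`,
continuous), `ψ z = ex (1/2) = -1 ≠ 1`.
`goodField_padic`: `K := PadicAlgCl p` (ultrametric: `IsUltrametricDist` instance). For `z ≠ 0` let
`B : AddSubgroup K := {w | ‖w‖ < ‖z‖}` (ultrametric). `z ∉ B`. There is an additive character `ψ` of
`K` which is trivial on `B` with `ψ z ≠ 1`: either apply `ext_real`/`ext_circle` of LibND (N20) to the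
subgroup `B ⊔ zmultiples z`, with `p • z ∈ B` (`‖p‖ = 1/p < 1`), so the character of
`B ⊔ zmultiples z` with `b + n z ↦ e(n / p)` is well defined; or use that `AddCircle 1` / `Circle` is an
injective abelian group (quotient `K ⧸ B`, element of order `p`; Mathlib:
`CharacterModule.exists_character_apply_ne_zero_of_ne_zero` for the ℤ-module `K ⧸ B` and
`AddCircle (1:ℚ)`, followed by `AddCircle (1:ℚ) → Circle`). `ψ → 1` at `0` because `ψ = 1` on the
neighbourhood `B` of `0`. -/

namespace Pool.Agent.LibNM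

open Polynomial Filter Topology Pool.Agent.LibND

private theorem n01_char {A : Type} [AddCommGroup A] (a : A) (ha : a ≠ 0) :
    ∃ ψ : AddChar A Circle, ψ a ≠ 1 := by
  obtain ⟨c, hc⟩ := CharacterModule.exists_character_apply_ne_zero_of_ne_zero ha
  let f : ℚ →+ Additive Circle :=
    { toFun := fun q => Additive.ofMul (Circle.exp (2 * Real.pi * q))
      map_zero' := by
        show Additive.ofMul (Circle.exp (2 * Real.pi * ((0 : ℚ) : ℝ))) = 0
        rw [Rat.cast_zero, mul_zero, Circle.exp_zero]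
        rfl
      map_add' := fun x y => by
        show Additive.ofMul (Circle.exp (2 * Real.pi * ((x + y : ℚ) : ℝ))) = _
        rw [Rat.cast_add, mul_add, Circle.exp_add]
        rfl }
  have hf : AddSubgroup.zmultiples (1 : ℚ) ≤ f.ker := by
    rw [AddSubgroup.zmultiples_le]
    show Additive.ofMul (Circle.exp (2 * Real.pi * ((1 : ℚ) : ℝ))) = 0
    rw [Rat.cast_one, mul_one, Circle.exp_two_pi]
    rfl
  let g : AddCircle (1 : ℚ) →+ Additive Circle := QuotientAddGroup.lift _ f hf
  refine ⟨AddChar.toAddMonoidHomEquiv.symm (g.comp c), ?_⟩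
  intro h
  apply hc
  obtain ⟨q, hq⟩ := QuotientAddGroup.mk_surjective (c a)
  have h1 : g (c a) = 0 := h
  rw [← hq] at h1
  have h2 : Circle.exp (2 * Real.pi * (q : ℝ)) = 1 := h1
  rw [Circle.exp_eq_one] at h2
  obtain ⟨n, hn⟩ := h2
  have hpi : (2 * Real.pi) ≠ 0 := by positivity
  have h3 : (q : ℝ) = n := by
    have : (2 * Real.pi) * (q : ℝ) = (2 * Real.pi) * n := by rw [hn]; ring
    exact mul_left_cancel₀ hpi this
  have h4 : q = n := by exact_mod_cast h3
  rw [← hq]
  refine (QuotientAddGroup.eq_zero_iff q).2 ?_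
  rw [AddSubgroup.mem_zmultiples_iff]
  exact ⟨n, by rw [h4]; simp⟩

theorem goodField_complex : GoodField ℂ := by
  intro z hz
  let ψ : AddChar ℂ Circle :=
    { toFun := fun w => Circle.exp (Real.pi * (w / z).re)
      map_zero_eq_one' := by
        show Circle.exp (Real.pi * ((0 : ℂ) / z).re) = 1
        rw [zero_div, Complex.zero_re, mul_zero, Circle.exp_zero]
      map_add_eq_mul' := fun x y => by
        show Circle.exp (Real.pi * ((x + y) / z).re) = Circle.exp _ * Circle.exp _
        rw [add_div, Complex.add_re, mul_add, Circle.exp_add] }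
  have hψ : ∀ w, ψ w = Circle.exp (Real.pi * (w / z).re) := fun w => rfl
  have hc : Continuous (fun w : ℂ => Circle.exp (Real.pi * (w / z).re)) := by
    fun_prop
  refine ⟨ψ, ?_, ?_⟩
  · have h1 := hc.tendsto 0
    have h2 : Circle.exp (Real.pi * ((0 : ℂ) / z).re) = 1 := by
      rw [zero_div, Complex.zero_re, mul_zero, Circle.exp_zero]
    rw [h2] at h1
    exact h1
  · rw [hψ, div_self hz, Complex.one_re, mul_one]
    intro h
    have h1 := congrArg (fun c : Circle => (c : ℂ)) h
    simp only [Circle.coe_exp, Complex.exp_pi_mul_I, Circle.coe_one] at h1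
    norm_num at h1

theorem goodField_padic (p : ℕ) [Fact p.Prime] : GoodField (PadicAlgCl p) := by
  intro z hz
  have hz' : 0 < ‖z‖ := norm_pos_iff.2 hz
  let B : AddSubgroup (PadicAlgCl p) :=
    { carrier := {w | ‖w‖ < ‖z‖}
      zero_mem' := by
        show ‖(0 : PadicAlgCl p)‖ < ‖z‖
        rw [norm_zero]
        exact hz'
      add_mem' := fun {x y} hx hy => by
        show ‖x + y‖ < ‖z‖
        exact lt_of_le_of_lt (IsUltrametricDist.norm_add_le_max x y) (max_lt hx hy)
      neg_mem' := fun {x} hx => by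
        show ‖-x‖ < ‖z‖
        rw [norm_neg]
        exact hx }
  have hzB : (QuotientAddGroup.mk z : PadicAlgCl p ⧸ B) ≠ 0 := by
    intro h
    have h1 : z ∈ B := (QuotientAddGroup.eq_zero_iff z).1 h
    exact lt_irrefl _ (show ‖z‖ < ‖z‖ from h1)
  obtain ⟨ψ, hψ⟩ := n01_char (QuotientAddGroup.mk z : PadicAlgCl p ⧸ B) hzB
  refine ⟨ψ.compAddMonoidHom (QuotientAddGroup.mk' B), ?_, hψ⟩
  have hev : (fun w : PadicAlgCl p => (1 : Circle)) =ᶠ[𝓝 0]
      (ψ.compAddMonoidHom (QuotientAddGroup.mk' B)) := by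
    filter_upwards [Metric.ball_mem_nhds (0 : PadicAlgCl p) hz'] with w hw
    have h1 : w ∈ B := by
      show ‖w‖ < ‖z‖
      simpa using hw
    have h2 : (QuotientAddGroup.mk w : PadicAlgCl p ⧸ B) = 0 := (QuotientAddGroup.eq_zero_iff w).2 h1
    show (1 : Circle) = ψ (QuotientAddGroup.mk w : PadicAlgCl p ⧸ B)
    rw [h2, AddChar.map_zero_eq_one]
  exact Tendsto.congr' hev tendsto_const_nhds

end Pool.Agent.LibNM
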