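import Mathlib
import Pool.Agent.LibNM.Defs

set_option autoImplicit false

/-! [NM N03] Simultaneous approximation.

PLAN. The sequence `q ↦ (fract (q * x j))_j` lies in the compact set `[0,1]^r`; a convergent subsequence
(`tendsto_subseq_of_bounded` / `IsCompact.tendsto_subseq`) is Cauchy, so for every `Q` there are
`q₁ < q₂`, `q₂ - q₁ ≥ Q`, with `|fract (q₂ x j) - fract (q₁ x j)| ≤ η` for all `j`; `q := q₂ - q₁` and
`n j := ⌊q₂ x j⌋ - ⌊q₁ x j⌋` satisfy `|q x j - n j| ≤ η`. So for every `Q` there are `q ≥ Q` and `n` with the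
property. `x i ≠ 0` for some `i`, and then `|n i| ≥ q |x i| - η` is unbounded: the set of the `n` is infinite
(if it were finite, `|n i|` would be bounded on it). -/

namespace Pool.Agent.LibNM

open Polynomial Filter Topology

theorem dirichlet {r : ℕ} (x : Fin r → ℝ) (hx : x ≠ 0) (η : ℝ) (hη : 0 < η) :
    {n : Fin r → ℤ | ∃ q : ℕ, ∀ j, |(q : ℝ) * x j - n j| ≤ η}.Infinite := by
  have hmem : ∀ q : ℕ, (fun j => Int.fract ((q : ℝ) * x j)) ∈
      Set.Icc (0 : Fin r → ℝ) (1 : Fin r → ℝ) := by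
    intro q
    constructor
    · intro j
      exact Int.fract_nonneg _
    · intro j
      exact (Int.fract_lt_one _).le
  obtain ⟨a, _, φ, hφ, ht⟩ := tendsto_subseq_of_bounded
    (Metric.isBounded_Icc (0 : Fin r → ℝ) (1 : Fin r → ℝ)) hmem
  rw [Metric.tendsto_atTop] at ht
  obtain ⟨N, hN⟩ := ht (η / 2) (by linarith)
  have key : ∀ Q : ℕ, ∃ (q : ℕ) (n : Fin r → ℤ), Q ≤ q ∧ ∀ j, |(q : ℝ) * x j - n j| ≤ η := by
    intro Q
    have h1 := hN N le_rfl
    have h2 := hN (N + Q) (by omega)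
    have h3 : φ N + Q ≤ φ (N + Q) := by
      induction Q with
      | zero => simp
      | succ Q ih =>
        have h4 := hφ (Nat.lt_succ_self (N + Q))
        have h5 := ih (hN (N + Q) (by omega))
        have h6 : N + (Q + 1) = N + Q + 1 := rfl
        rw [h6]
        have h7 : (N + Q).succ = N + Q + 1 := rfl
        rw [h7] at h4
        omega
    refine ⟨φ (N + Q) - φ N, fun j => ⌊(φ (N + Q) : ℝ) * x j⌋ - ⌊(φ N : ℝ) * x j⌋, by omega, ?_⟩
    intro j
    have h4 := (dist_le_pi_dist _ _ j).trans_lt h1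
    have h5 := (dist_le_pi_dist _ _ j).trans_lt h2
    simp only [Function.comp_apply, Real.dist_eq, Int.fract] at h4 h5
    have h6 : φ N ≤ φ (N + Q) := by omega
    rw [Nat.cast_sub h6]
    push_cast
    rw [abs_lt] at h4 h5
    rw [abs_le]
    constructor <;> nlinarith
  obtain ⟨i, hi⟩ : ∃ i, x i ≠ 0 := by
    by_contra h
    push Not at h
    exact hx (funext h)
  have hi0 : 0 < |x i| := abs_pos.2 hi
  intro hfin
  obtain ⟨B, hB⟩ := (hfin.image (fun n : Fin r → ℤ => |(n i : ℝ)|)).bddAbove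
  obtain ⟨Q, hQ⟩ := exists_nat_gt ((B + η) / |x i|)
  obtain ⟨q, n, hq, hn⟩ := key Q
  have h1 : |(n i : ℝ)| ≤ B := hB ⟨n, ⟨q, hn⟩, rfl⟩
  have h2 := hn i
  rw [div_lt_iff₀ hi0] at hQ
  have h3 : (Q : ℝ) ≤ q := by exact_mod_cast hq
  have h4 : |(q : ℝ) * x i| ≤ |(q : ℝ) * x i - n i| + |(n i : ℝ)| := by
    have := abs_add_le ((q : ℝ) * x i - n i) (n i : ℝ)
    simpa using this
  rw [abs_mul, Nat.abs_cast] at h4
  nlinarith

end Pool.Agent.LibNM
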