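import Mathlib
import Pool.Agent.LibNM.Defs

set_option autoImplicit false

/-! [NM N05] Growth of the values at the points over `τ`.

PLAN. `e` is integral over `ℚ[X]` (`Algebra.IsIntegral.isIntegral`, from `Module.Finite`): a monic
`P : ℚ[X][X]` of degree `m` with `aeval e P = 0`. Apply `σ` (the ring homomorphism
`σ.comp (algebraMap ℚ[X] E) : ℚ[X] →+* K` is `evK K τ`, `Polynomial.ringHom_ext'`/`RingHom.ext_rat`):
`σ e` is a root of the monic polynomial `P.map (evK K τ)` of degree `m`.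
`growth_arch` (`K = ℂ`): a root of a monic polynomial satisfies `‖z‖ ≤ 1 + ∑_(i<m) ‖a_i‖` (if `‖z‖ > 1` then
`‖z‖^m ≤ ∑ ‖a_i‖ ‖z‖^i ≤ (∑ ‖a_i‖) ‖z‖^(m-1)`), and every `a_i = c_i(τ)`, `c_i ∈ ℚ[X]`, satisfies
`‖c_i(τ)‖ ≤ C_i (2 + |τ|)^(deg c_i)`. Choose `k` larger than all degrees and `C ≥ 1` large (so
`(C (2+|τ|))^k ≥ 1 + ∑ C_i (2 + |τ|)^(deg)`; take also `k ≥ 1`).
`growth_padic` (`K = PadicAlgCl p`, ultrametric): `‖c_i(τ)‖ ≤ C_i := ∑ ‖coefficients‖`, because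
`‖(τ : K)‖ ≤ 1`; same root bound. -/

namespace Pool.Agent.LibNM

open Polynomial Filter Topology

variable {E : Type} [CommRing E] [Algebra ℚ[X] E] [Module.Finite ℚ[X] E]

private lemma n05_coeff {K : Type} [NormedField K] [CharZero K] (φ : ℚ[X] →+* K) (c : ℚ[X])
    (R : ℝ) (hX : ‖φ X‖ ≤ R) :
    ‖φ c‖ ≤ ∑ j ∈ Finset.range (c.natDegree + 1), ‖((c.coeff j : ℚ) : K)‖ * R ^ j := by
  have h1 : φ c = ∑ j ∈ Finset.range (c.natDegree + 1), φ (C (c.coeff j)) * (φ X) ^ j := by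
    conv_lhs => rw [c.as_sum_range_C_mul_X_pow]
    rw [map_sum]
    refine Finset.sum_congr rfl fun j _ => ?_
    rw [map_mul, map_pow]
  rw [h1]
  refine (norm_sum_le _ _).trans (Finset.sum_le_sum fun j _ => ?_)
  rw [norm_mul, norm_pow]
  have h2 : φ (C (c.coeff j)) = ((c.coeff j : ℚ) : K) := eq_ratCast (φ.comp C) (c.coeff j)
  rw [h2]
  exact mul_le_mul_of_nonneg_left (pow_le_pow_left₀ (norm_nonneg _) hX _) (norm_nonneg _)

omit [Module.Finite ℚ[X] E] in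
private lemma n05_root {K : Type} [NormedField K] [CharZero K] (P : ℚ[X][X]) (hP : P.Monic)
    (e : E) (he : aeval e P = 0) (τ : ℤ) (σ : E →+* K) (hσ : σ (tE E) = (τ : K)) (R : ℝ)
    (hτ : ‖(τ : K)‖ ≤ R) :
    ‖σ e‖ ≤ 1 + ∑ i ∈ Finset.range P.natDegree,
      ∑ j ∈ Finset.range ((P.coeff i).natDegree + 1), ‖(((P.coeff i).coeff j : ℚ) : K)‖ * R ^ j := by
  set φ : ℚ[X] →+* K := σ.comp (algebraMap ℚ[X] E) with hφ
  have hX : φ X = (τ : K) := hσ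
  have hXn : ‖φ X‖ ≤ R := by rw [hX]; exact hτ
  have hmon : (P.map φ).Monic := hP.map φ
  have hroot : (P.map φ).IsRoot (σ e) := by
    rw [IsRoot.def, eval_map]
    have : eval₂ φ (σ e) P = σ (aeval e P) := by
      rw [aeval_def, hom_eval₂, hφ]
    rw [this, he, map_zero]
  have h1 := hroot.norm_lt_cauchyBound hmon.ne_zero
  have h2 : (‖σ e‖ : ℝ) ≤ (cauchyBound (P.map φ) : ℝ) := by
    have := h1.le
    exact_mod_cast this
  refine h2.trans ?_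
  unfold cauchyBound
  rw [hmon.leadingCoeff, nnnorm_one, div_one, hP.natDegree_map, add_comm]
  push_cast
  gcongr
  have h3 : (Finset.range P.natDegree).sup (fun i => ‖(P.map φ).coeff i‖₊) ≤
      ∑ i ∈ Finset.range P.natDegree, ‖(P.map φ).coeff i‖₊ := by
    refine Finset.sup_le fun i hi => ?_
    exact Finset.single_le_sum (f := fun i => ‖(P.map φ).coeff i‖₊) (fun _ _ => zero_le) hi
  have h4 : (((Finset.range P.natDegree).sup (fun i => ‖(P.map φ).coeff i‖₊) : NNReal) : ℝ) ≤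
      ∑ i ∈ Finset.range P.natDegree, ‖(P.map φ).coeff i‖ := by
    have := NNReal.coe_le_coe.mpr h3
    rw [NNReal.coe_sum] at this
    simpa using this
  refine h4.trans (Finset.sum_le_sum fun i _ => ?_)
  rw [coeff_map]
  exact n05_coeff φ (P.coeff i) R hXn

private lemma n05_int (e : E) : ∃ P : ℚ[X][X], P.Monic ∧ aeval e P = 0 := by
  obtain ⟨P, hP, h⟩ := Algebra.IsIntegral.isIntegral (R := ℚ[X]) e
  exact ⟨P, hP, h⟩

theorem growth_arch (e : E) : ∃ (k : ℕ) (C : ℝ), 1 ≤ C ∧ ∀ (τ : ℤ) (σ : E →+* ℂ),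
    σ (tE E) = (τ : ℂ) → ‖σ e‖ ≤ (C * (2 + |(τ : ℝ)|)) ^ k := by
  obtain ⟨P, hP, he⟩ := n05_int e
  set k : ℕ := 1 + ∑ i ∈ Finset.range P.natDegree, ((P.coeff i).natDegree + 1) with hk
  set D : ℝ := ∑ i ∈ Finset.range P.natDegree,
      ∑ j ∈ Finset.range ((P.coeff i).natDegree + 1), ‖(((P.coeff i).coeff j : ℚ) : ℂ)‖ with hD
  have hD0 : 0 ≤ D := Finset.sum_nonneg fun i _ => Finset.sum_nonneg fun j _ => norm_nonneg _
  refine ⟨k, 1 + D, by linarith, fun τ σ hσ => ?_⟩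
  have hτ : ‖(τ : ℂ)‖ ≤ 2 + |(τ : ℝ)| := by
    rw [Complex.norm_intCast]
    linarith
  have hR1 : (1 : ℝ) ≤ 2 + |(τ : ℝ)| := by
    have := abs_nonneg (τ : ℝ)
    linarith
  refine (n05_root P hP e he τ σ hσ _ hτ).trans ?_
  have h1 : ∑ i ∈ Finset.range P.natDegree,
      ∑ j ∈ Finset.range ((P.coeff i).natDegree + 1),
        ‖(((P.coeff i).coeff j : ℚ) : ℂ)‖ * (2 + |(τ : ℝ)|) ^ j ≤
      D * (2 + |(τ : ℝ)|) ^ k := by
    rw [hD, Finset.sum_mul]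
    refine Finset.sum_le_sum fun i hi => ?_
    rw [Finset.sum_mul]
    refine Finset.sum_le_sum fun j hj => ?_
    refine mul_le_mul_of_nonneg_left (pow_le_pow_right₀ hR1 ?_) (norm_nonneg _)
    have h2 : j < (P.coeff i).natDegree + 1 := Finset.mem_range.mp hj
    have h3 : (P.coeff i).natDegree + 1 ≤
        ∑ i ∈ Finset.range P.natDegree, ((P.coeff i).natDegree + 1) :=
      Finset.single_le_sum (f := fun i => (P.coeff i).natDegree + 1) (fun _ _ => Nat.zero_le _) hi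
    omega
  have hpow1 : (1 : ℝ) ≤ (2 + |(τ : ℝ)|) ^ k := one_le_pow₀ hR1
  have hC : 1 + D ≤ (1 + D) ^ k := le_self_pow₀ (by linarith) (by omega)
  calc 1 + _ ≤ (2 + |(τ : ℝ)|) ^ k + D * (2 + |(τ : ℝ)|) ^ k := add_le_add hpow1 h1
    _ = (1 + D) * (2 + |(τ : ℝ)|) ^ k := by ring
    _ ≤ (1 + D) ^ k * (2 + |(τ : ℝ)|) ^ k :=
        mul_le_mul_of_nonneg_right hC (by linarith)
    _ = ((1 + D) * (2 + |(τ : ℝ)|)) ^ k := (mul_pow _ _ _).symm

theorem growth_padic (p : ℕ) [Fact p.Prime] (e : E) : ∃ C : ℝ, 1 ≤ C ∧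
    ∀ (τ : ℤ) (σ : E →+* PadicAlgCl p), σ (tE E) = (τ : PadicAlgCl p) → ‖σ e‖ ≤ C := by
  obtain ⟨P, hP, he⟩ := n05_int e
  refine ⟨1 + ∑ i ∈ Finset.range P.natDegree,
      ∑ j ∈ Finset.range ((P.coeff i).natDegree + 1),
        ‖(((P.coeff i).coeff j : ℚ) : PadicAlgCl p)‖ * 1 ^ j, ?_, fun τ σ hσ => ?_⟩
  · have : 0 ≤ ∑ i ∈ Finset.range P.natDegree,
      ∑ j ∈ Finset.range ((P.coeff i).natDegree + 1),
        ‖(((P.coeff i).coeff j : ℚ) : PadicAlgCl p)‖ * 1 ^ j :=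
      Finset.sum_nonneg fun i _ => Finset.sum_nonneg fun j _ =>
        mul_nonneg (norm_nonneg _) (by simp)
    linarith
  · refine n05_root P hP e he τ σ hσ 1 ?_
    have h1 : ((τ : ℤ) : PadicAlgCl p) = (((τ : ℤ) : ℚ_[p]) : PadicAlgCl p) := by
      rw [map_intCast]
    rw [h1, PadicAlgCl.norm_extends]
    exact Padic.norm_int_le_one τ

end Pool.Agent.LibNM
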