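import Mathlib
import Pool.Agent.LibNM.Defs

set_option autoImplicit false

/-! [NM N06] The denominators of the characteristic polynomials of the elements of a finitely
generated group of units.

PLAN. `b := Module.Free.chooseBasis ℚ[X] E`, `M e := LinearMap.toMatrix b b (Algebra.lmul ℚ[X] E e)` (a ring
homomorphism in `e`), `cp e = (M e).charpoly` (`LinearMap.charpoly_toMatrix`). Let `R_N ⊆ ℚ[X]` be the subring of
the polynomials all of whose coefficients `a` satisfy `∃ e z, (N:ℚ)^e * a = z` (a subring: the coefficients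
lie in the subring `ℤ[1/N]` of `ℚ`, e.g. `Subring.closure {1/N}` or the carrier above; use
`Polynomial.lifts` or coefficientwise). The finitely many entries of the finitely many matrices
`M (u j)`, `M (u j)⁻¹` lie in `R_N` for a common `N > 0` (product of all denominators). So all entries of
`M (∏ u_j ^ n_j)` lie in `R_N` (products of such matrices), and so do the coefficients of the
characteristic polynomial (`Matrix.charpoly` is a determinant: `Subring.sum_mem`, `Subring.prod_mem` after
`Matrix.charpoly_map`: the matrix is the image of a matrix over the subring, `charpoly` commutes with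
the ring homomorphism `R_N → ℚ[X]`). -/

namespace Pool.Agent.LibNM

open Polynomial Filter Topology

/-- The subring `ℤ[1/N]` of `ℚ`. -/
private def n6D (N : ℕ) : Subring ℚ where
  carrier := {a | ∃ (e : ℕ) (z : ℤ), (N : ℚ) ^ e * a = z}
  mul_mem' := by
    rintro a b ⟨e, z, h⟩ ⟨e', z', h'⟩
    refine ⟨e + e', z * z', ?_⟩
    push_cast
    rw [← h, ← h']
    ring
  one_mem' := ⟨0, 1, by simp⟩
  add_mem' := by
    rintro a b ⟨e, z, h⟩ ⟨e', z', h'⟩
    refine ⟨e + e', (N : ℤ) ^ e' * z + (N : ℤ) ^ e * z', ?_⟩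
    push_cast
    rw [← h, ← h']
    ring
  zero_mem' := ⟨0, 0, by simp⟩
  neg_mem' := by
    rintro a ⟨e, z, h⟩
    refine ⟨e, -z, ?_⟩
    push_cast
    rw [← h]
    ring

/-- The polynomials with coefficients in `ℤ[1/N]`. -/
private def n6R (N : ℕ) : Subring ℚ[X] where
  carrier := {p | ∀ k, p.coeff k ∈ n6D N}
  mul_mem' := by
    intro p q hp hq k
    rw [Polynomial.coeff_mul]
    exact Subring.sum_mem _ fun x _ => Subring.mul_mem _ (hp _) (hq _)
  one_mem' := by
    intro k
    rw [Polynomial.coeff_one]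
    split_ifs
    · exact Subring.one_mem _
    · exact Subring.zero_mem _
  add_mem' := by
    intro p q hp hq k
    rw [Polynomial.coeff_add]
    exact Subring.add_mem _ (hp k) (hq k)
  zero_mem' := by
    intro k
    rw [Polynomial.coeff_zero]
    exact Subring.zero_mem _
  neg_mem' := by
    intro p hp k
    rw [Polynomial.coeff_neg]
    exact Subring.neg_mem _ (hp k)

private theorem n6_den (s : Finset ℚ) : ∃ N : ℕ, 0 < N ∧ ∀ a ∈ s, ∃ z : ℤ, (N : ℚ) * a = z := by
  classical
  induction s using Finset.induction_on with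
  | empty => exact ⟨1, one_pos, by simp⟩
  | insert a s ha ih =>
    obtain ⟨N, hN, h⟩ := ih
    refine ⟨a.den * N, Nat.mul_pos a.den_pos hN, ?_⟩
    intro b hb
    rcases Finset.mem_insert.1 hb with rfl | hb
    · refine ⟨N * b.num, ?_⟩
      push_cast
      have := Rat.den_mul_eq_num b
      calc (b.den : ℚ) * N * b = N * (b.den * b) := by ring
        _ = N * b.num := by rw [this]
    · obtain ⟨z, hz⟩ := h b hb
      refine ⟨a.den * z, ?_⟩
      push_cast
      rw [mul_assoc, hz]

/-- finitely many polynomials have a common denominator -/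
private theorem n6_poly {ι : Type*} [Fintype ι] (p : ι → ℚ[X]) :
    ∃ N : ℕ, 0 < N ∧ ∀ i, p i ∈ n6R N := by
  classical
  obtain ⟨N, hN, h⟩ := n6_den (Finset.univ.biUnion fun i => (p i).coeffs)
  refine ⟨N, hN, fun i k => ?_⟩
  by_cases hk : (p i).coeff k = 0
  · rw [hk]; exact Subring.zero_mem _
  · obtain ⟨z, hz⟩ := h ((p i).coeff k) (Finset.mem_biUnion.2
      ⟨i, Finset.mem_univ _, Polynomial.coeff_mem_coeffs hk⟩)
    exact ⟨1, z, by rw [pow_one, hz]⟩

variable {E : Type} [CommRing E] [Algebra ℚ[X] E] [Module.Finite ℚ[X] E] [Module.Free ℚ[X] E]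

/-- the elements whose matrix has entries in the subring -/
private noncomputable def n6S (N : ℕ) (E : Type) [CommRing E] [Algebra ℚ[X] E]
    [Module.Finite ℚ[X] E] [Module.Free ℚ[X] E] : Submonoid E where
  carrier := {e | ∀ i j, Algebra.leftMulMatrix (Module.Free.chooseBasis ℚ[X] E) e i j ∈ n6R N}
  mul_mem' := by
    intro a b ha hb i j
    rw [map_mul, Matrix.mul_apply]
    exact Subring.sum_mem _ fun x _ => Subring.mul_mem _ (ha _ _) (hb _ _)
  one_mem' := by
    intro i j
    rw [map_one, Matrix.one_apply]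
    split_ifs
    · exact Subring.one_mem _
    · exact Subring.zero_mem _

private theorem n6_cp {N : ℕ} {e : E} (he : e ∈ n6S N E) (i : ℕ) : (cp e).coeff i ∈ n6R N := by
  have h1 : cp e = (Algebra.leftMulMatrix (Module.Free.chooseBasis ℚ[X] E) e).charpoly := by
    unfold cp
    rw [Algebra.leftMulMatrix_apply, LinearMap.charpoly_toMatrix]
  let M' : Matrix (Module.Free.ChooseBasisIndex ℚ[X] E) (Module.Free.ChooseBasisIndex ℚ[X] E)
      (n6R N) := Matrix.of fun a b =>
    ⟨Algebra.leftMulMatrix (Module.Free.chooseBasis ℚ[X] E) e a b, he a b⟩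
  have h2 : Algebra.leftMulMatrix (Module.Free.chooseBasis ℚ[X] E) e
      = M'.map (n6R N).subtype := by
    ext a b : 2
    rfl
  rw [h1, h2, Matrix.charpoly_map, Polynomial.coeff_map]
  exact (M'.charpoly.coeff i).2

theorem denom {r : ℕ} (u : Fin r → Eˣ) : ∃ N : ℕ, 0 < N ∧ ∀ (n : Fin r → ℤ) (i k : ℕ),
    ∃ (e : ℕ) (z : ℤ), (N : ℚ) ^ e * ((cp ((∏ j, u j ^ n j : Eˣ) : E)).coeff i).coeff k = z := by
  classical
  obtain ⟨N, hN, h⟩ := n6_poly (fun x : (Fin r ⊕ Fin r) ×
      (Module.Free.ChooseBasisIndex ℚ[X] E × Module.Free.ChooseBasisIndex ℚ[X] E) =>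
    Algebra.leftMulMatrix (Module.Free.chooseBasis ℚ[X] E)
      (Sum.elim (fun j => (u j : E)) (fun j => ((u j)⁻¹ : Eˣ)) x.1) x.2.1 x.2.2)
  refine ⟨N, hN, fun n i k => ?_⟩
  have hu : ∀ j, u j ∈ (n6S N E).units := fun j => by
    rw [Submonoid.mem_units_iff]
    exact ⟨fun a b => h (Sum.inl j, (a, b)), fun a b => h (Sum.inr j, (a, b))⟩
  have hp : (∏ j, u j ^ n j : Eˣ) ∈ (n6S N E).units :=
    Subgroup.prod_mem _ fun j _ => Subgroup.zpow_mem _ (hu j) _
  exact n6_cp ((Submonoid.mem_units_iff _ _).1 hp).1 i k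

end Pool.Agent.LibNM
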