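import Mathlib
import Pool.Agent.LibNM.Defs

set_option autoImplicit false

/-! [NM N07] Coefficients and roots.

PLAN. `coeff_arch`: Mathlib `Polynomial.coeff_le_of_roots_le` (Topology/Algebra/Polynomial.lean) with
`f = RingHom.id ℂ` or `algebraMap`, `M ^ (m - i) ≤ M ^ m`, `choose m i ≤ 2 ^ m`.
`coeff_padic`: `P = ∏ (X - root)` (splits: `IsAlgClosed.splits`); coefficient = `±` elementary symmetric
function of the roots (`Polynomial.coeff_eq_esymm_roots_of_card` / `Multiset.prod_X_sub_C_coeff`), a sum of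
products of roots: `‖sum‖ ≤ max ≤ M ^ m` (ultrametric: `IsUltrametricDist` instance of `PadicAlgCl p`); or by
induction on the multiset of the roots: multiplication by `X - C a`, `‖a‖ ≤ M`, multiplies the maximum of
the norms of the coefficients by at most `M`. -/

namespace Pool.Agent.LibNM

open Polynomial Filter Topology

private theorem coeff_multiset {K : Type} [NormedField K] [IsUltrametricDist K] (M : ℝ) (hM : 1 ≤ M)
    (s : Multiset K) : (∀ a ∈ s, ‖a‖ ≤ M) → ∀ i : ℕ,
    ‖((s.map fun a => (X - C a : K[X])).prod).coeff i‖ ≤ M ^ (Multiset.card s) := by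
  induction s using Multiset.induction_on with
  | empty =>
    intro _ i
    rw [Multiset.map_zero, Multiset.prod_zero, Multiset.card_zero, pow_zero, coeff_one]
    split_ifs
    · rw [norm_one]
    · rw [norm_zero]
      exact zero_le_one
  | cons a s ih =>
    intro h i
    have ha : ‖a‖ ≤ M := h a (Multiset.mem_cons_self a s)
    have hs := ih fun b hb => h b (Multiset.mem_cons_of_mem hb)
    have hM0 : (0 : ℝ) ≤ M := zero_le_one.trans hM
    rw [Multiset.map_cons, Multiset.prod_cons, Multiset.card_cons, sub_mul]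
    generalize (s.map fun a => (X - C a : K[X])).prod = Q at hs
    have h1 : ‖(C a * Q).coeff i‖ ≤ M ^ (Multiset.card s + 1) := by
      rw [coeff_C_mul, norm_mul, pow_succ, mul_comm]
      exact mul_le_mul (hs i) ha (norm_nonneg _) (pow_nonneg hM0 _)
    have h2 : ‖(X * Q).coeff i‖ ≤ M ^ (Multiset.card s + 1) := by
      cases i with
      | zero =>
        rw [coeff_X_mul_zero, norm_zero]
        exact pow_nonneg hM0 _
      | succ i =>
        rw [coeff_X_mul, pow_succ]
        exact (hs i).trans (le_mul_of_one_le_right (pow_nonneg hM0 _) hM)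
    rw [coeff_sub, sub_eq_add_neg]
    refine (IsUltrametricDist.norm_add_le_max _ _).trans ?_
    rw [norm_neg]
    exact max_le h2 h1

theorem coeff_arch (P : ℂ[X]) (hP : P.Monic) (M : ℝ) (hM : 1 ≤ M)
    (h : ∀ z : ℂ, P.eval z = 0 → ‖z‖ ≤ M) (i : ℕ) :
    ‖P.coeff i‖ ≤ 2 ^ P.natDegree * M ^ P.natDegree := by
  have hM0 : (0 : ℝ) ≤ M := zero_le_one.trans hM
  have h1 := coeff_le_of_roots_le (p := P) (f := RingHom.id ℂ) (B := M) i hP (IsAlgClosed.splits _)
    (by
      intro z hz
      rw [Polynomial.map_id] at hz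
      exact h z (isRoot_of_mem_roots hz))
  rw [Polynomial.map_id] at h1
  refine h1.trans ?_
  rw [mul_comm]
  refine mul_le_mul ?_ ?_ (pow_nonneg hM0 _) (by positivity)
  · have h2 : P.natDegree.choose i ≤ 2 ^ P.natDegree := Nat.choose_le_two_pow _ _
    exact_mod_cast h2
  · exact pow_le_pow_right₀ hM (Nat.sub_le _ _)

theorem coeff_padic (p : ℕ) [Fact p.Prime] (P : (PadicAlgCl p)[X]) (hP : P.Monic) (M : ℝ)
    (hM : 1 ≤ M) (h : ∀ z : PadicAlgCl p, P.eval z = 0 → ‖z‖ ≤ M) (i : ℕ) :
    ‖P.coeff i‖ ≤ M ^ P.natDegree := by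
  have hs : P.Splits := IsAlgClosed.splits P
  have h1 : P = (P.roots.map fun a => (X - C a : (PadicAlgCl p)[X])).prod :=
    hs.eq_prod_roots_of_monic hP
  have h2 : Multiset.card P.roots = P.natDegree := hs.natDegree_eq_card_roots.symm
  have h3 := coeff_multiset M hM P.roots (fun a ha => h a (isRoot_of_mem_roots ha)) i
  rwa [← h1, h2] at h3

end Pool.Agent.LibNM
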