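import Mathlib
import Pool.Agent.LibNM.Defs

set_option autoImplicit false

/-! [NM N09] Polynomials of small growth; finitely many elements with bounded integral
characteristic polynomial.

PLAN. `const_of_growth`: if `natDegree c ≥ 1` then `|c(τ)| ≥ a |τ|` with `a > 0` for `|τ| ≥ τ₀`
(`Polynomial.isEquivalent_atTop_lead`, `Polynomial.tendsto_abs_atTop...`, for both signs of `τ`: use `c` and
`c.comp (-X)`; or leading term against the others by hand), which contradicts the bound for the elements of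
the infinite set `T'`, whose absolute values are unbounded.
`finite_int`: Cayley-Hamilton `aeval β (cp β) = 0` (`LinearMap.aeval_self_charpoly` applied to `1`), the
polynomial `cp β` is monic of degree `m = finrank`, so it is the image of one of finitely many polynomials
`Q : ℤ[X]` (degree `m`, coefficients in `[-B, B]`), and `E` is a domain of characteristic zero, so each
`Q ≠ 0` has finitely many roots in `E`. -/

namespace Pool.Agent.LibNM

open Polynomial Filter Topology

/-- a nonzero polynomial is eventually bounded from below along a filter with norms tending to infinity -/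
private theorem n09_lower (r : ℝ[X]) (hr : r ≠ 0) {l : Filter ℤ}
    (hl : Tendsto (fun τ : ℤ => ‖(τ : ℝ)‖) l atTop) :
    ∃ a : ℝ, 0 < a ∧ ∀ᶠ τ : ℤ in l, a ≤ |r.eval (τ : ℝ)| := by
  rcases le_or_gt r.degree 0 with hd | hd
  · rw [eq_C_of_degree_le_zero hd] at hr ⊢
    have h0 : r.coeff 0 ≠ 0 := fun h => hr (by rw [h, map_zero])
    refine ⟨|r.coeff 0|, abs_pos.mpr h0, Eventually.of_forall fun τ => ?_⟩
    rw [eval_C]
  · have h1 := tendsto_norm_atTop r hd hl
    exact ⟨1, one_pos, (h1.eventually_ge_atTop 1).mono fun τ h => h⟩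

theorem const_of_growth (c : ℚ[X]) (T' : Set ℤ) (hT' : T'.Infinite) (C : ℝ)
    (h : ∀ τ ∈ T', |((c.eval (τ : ℚ) : ℚ) : ℝ)| ≤ C * Real.sqrt (2 + |(τ : ℝ)|)) :
    ∃ a : ℚ, c = Polynomial.C a := by
  by_contra hcon
  push Not at hcon
  set p : ℝ[X] := c.map (algebraMap ℚ ℝ) with hp
  have hpe : ∀ τ : ℤ, ((c.eval (τ : ℚ) : ℚ) : ℝ) = p.eval (τ : ℝ) := by
    intro τ
    rw [hp, eval_map]
    have h1 := Polynomial.eval₂_hom (p := c) (algebraMap ℚ ℝ) (τ : ℚ)
    rw [show (algebraMap ℚ ℝ) (τ : ℚ) = (τ : ℝ) by simp] at h1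
    rw [h1]
    rfl
  have hr : p.divX ≠ 0 := by
    intro h0
    have h1 := divX_mul_X_add p
    rw [h0, zero_mul, zero_add] at h1
    apply hcon (c.coeff 0)
    apply Polynomial.map_injective (algebraMap ℚ ℝ) (algebraMap ℚ ℝ).injective
    rw [← hp, ← h1, Polynomial.map_C]
    congr 1
    rw [hp, coeff_map]
  have hne : (cofinite ⊓ 𝓟 T').NeBot := by
    rw [← frequently_mem_iff_neBot]
    exact Set.infinite_coe_iff.mp (Set.infinite_coe_iff.mpr hT') |>.frequently_cofinite
  have hl0 : Tendsto (fun τ : ℤ => ‖(τ : ℝ)‖) cofinite atTop :=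
    (tendsto_norm_cocompact_atTop (E := ℝ)).comp Int.tendsto_coe_cofinite
  have hl : Tendsto (fun τ : ℤ => ‖(τ : ℝ)‖) (cofinite ⊓ 𝓟 T') atTop := hl0.mono_left inf_le_left
  obtain ⟨a, ha, hae⟩ := n09_lower p.divX hr hl
  set M : ℝ := (2 * a + |p.coeff 0| + |C|) / a + 1 with hM
  have hM1 : 1 ≤ M := by
    have : 0 ≤ (2 * a + |p.coeff 0| + |C|) / a := by positivity
    linarith
  have h2 : ∀ᶠ τ : ℤ in cofinite ⊓ 𝓟 T', M ^ 2 ≤ ‖(τ : ℝ)‖ := hl.eventually_ge_atTop (M ^ 2)
  have h3 : ∀ᶠ τ : ℤ in cofinite ⊓ 𝓟 T', τ ∈ T' := eventually_inf_principal.mpr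
    (Eventually.of_forall fun τ h => h)
  obtain ⟨τ, ⟨h4, h5⟩, h6⟩ := ((hae.and h2).and h3).exists
  have h7 := h τ h6
  rw [hpe] at h7
  have h8 : p.eval (τ : ℝ) = p.divX.eval (τ : ℝ) * τ + p.coeff 0 := by
    conv_lhs => rw [← divX_mul_X_add p]
    simp
  rw [h8] at h7
  rw [Real.norm_eq_abs] at h5
  set s : ℝ := Real.sqrt (2 + |(τ : ℝ)|) with hs
  have hs2 : s ^ 2 = 2 + |(τ : ℝ)| := Real.sq_sqrt (by positivity)
  have hsM : M ≤ s := Real.le_sqrt_of_sq_le (by linarith)
  have h9 : a * |(τ : ℝ)| - |p.coeff 0| ≤ |p.divX.eval (τ : ℝ) * τ + p.coeff 0| := by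
    have e1 : a * |(τ : ℝ)| ≤ |p.divX.eval (τ : ℝ) * τ| := by
      rw [abs_mul]
      exact mul_le_mul_of_nonneg_right h4 (abs_nonneg _)
    have e2 := abs_sub_abs_le_abs_sub (p.divX.eval (τ : ℝ) * τ) (-p.coeff 0)
    rw [abs_neg, sub_neg_eq_add] at e2
    linarith
  have h10 : C * s ≤ |C| * s := mul_le_mul_of_nonneg_right (le_abs_self C) (by linarith)
  have h11 : a * s ^ 2 ≤ (2 * a + |p.coeff 0| + |C|) * s := by
    rw [hs2]
    have e3 : a * |(τ : ℝ)| ≤ |p.coeff 0| + |C| * s := by linarith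
    have e4 : (2 * a + |p.coeff 0|) * 1 ≤ (2 * a + |p.coeff 0|) * s :=
      mul_le_mul_of_nonneg_left (by linarith) (by positivity)
    nlinarith
  have h12 : a * s ≤ 2 * a + |p.coeff 0| + |C| := by
    have hs0 : 0 < s := by linarith
    nlinarith
  have h13 : s ≤ (2 * a + |p.coeff 0| + |C|) / a := by
    rw [le_div_iff₀ ha]
    linarith
  linarith

theorem finite_int {E : Type} [CommRing E] [IsDomain E] [Algebra ℚ[X] E] [Module.Finite ℚ[X] E]
    [Module.Free ℚ[X] E] (B : ℝ) :
    {β : E | ∀ i, ∃ z : ℤ, |(z : ℝ)| ≤ B ∧ (cp β).coeff i = Polynomial.C (z : ℚ)}.Finite := by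
  classical
  set m : ℕ := Module.finrank ℚ[X] E with hm
  set N : ℤ := ⌈B⌉ with hN
  let Q : (Fin (m + 1) → ℤ) → E[X] := fun z => ∑ i : Fin (m + 1), Polynomial.C (z i : E) * X ^ (i : ℕ)
  let S : Set (Fin (m + 1) → ℤ) := {z | (∀ i, z i ∈ Set.Icc (-N) N) ∧ z (Fin.last m) = 1}
  have hS : S.Finite := by
    refine (Set.Finite.pi' (t := fun _ : Fin (m + 1) => Set.Icc (-N) N)
      (fun _ => Set.finite_Icc _ _)).subset ?_
    rintro z ⟨hz, -⟩
    exact hz
  have hQ : ∀ z ∈ S, Q z ≠ 0 := by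
    rintro z ⟨-, hz⟩ h0
    have h1 := congrArg (fun P : E[X] => P.coeff m) h0
    simp only [Q, finsetSum_coeff, coeff_C_mul, coeff_X_pow, coeff_zero, mul_ite, mul_one,
      mul_zero] at h1
    rw [Finset.sum_eq_single (Fin.last m)] at h1
    · rw [if_pos (by simp), hz, Int.cast_one] at h1
      exact one_ne_zero h1
    · intro b _ hb
      rw [if_neg]
      intro hb2
      exact hb (Fin.ext (by simp [← hb2]))
    · intro h2
      exact absurd (Finset.mem_univ _) h2
  refine (hS.biUnion (t := fun z => {β : E | (Q z).IsRoot β}) fun z hz =>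
    Polynomial.finite_setOfPred_isRoot (hQ z hz)).subset ?_
  intro β hβ
  choose z hzB hz using hβ
  have hcard : (cp β).natDegree = m := LinearMap.charpoly_natDegree _
  have hmon : (cp β).Monic := LinearMap.charpoly_monic _
  refine Set.mem_biUnion (x := fun i : Fin (m + 1) => z i) ?_ ?_
  · refine ⟨fun i => ?_, ?_⟩
    · have h1 := hzB i
      rw [abs_le] at h1
      have h2 : (z i : ℝ) ≤ (N : ℝ) := h1.2.trans (Int.le_ceil B)
      have h3 : (-(N : ℝ)) ≤ (z i : ℝ) := by
        have := Int.le_ceil B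
        linarith
      exact ⟨by exact_mod_cast h3, by exact_mod_cast h2⟩
    · have h1 := hz m
      rw [← hcard, hmon.coeff_natDegree] at h1
      have h2 : (1 : ℚ) = (z (cp β).natDegree : ℚ) := Polynomial.C_injective (by rw [map_one]; exact h1)
      rw [hcard] at h2
      change z ((Fin.last m : Fin (m + 1)) : ℕ) = 1
      rw [Fin.val_last]
      exact_mod_cast h2.symm
  · have h1 : aeval β (cp β) = 0 := by
      have h2 := LinearMap.aeval_self_charpoly (Algebra.lmul ℚ[X] E β)
      have h3 : aeval (Algebra.lmul ℚ[X] E β) (cp β) = Algebra.lmul ℚ[X] E (aeval β (cp β)) :=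
        Polynomial.aeval_algHom_apply (Algebra.lmul ℚ[X] E) β (cp β)
      have h4 : Algebra.lmul ℚ[X] E (aeval β (cp β)) = 0 := by
        rw [← h3]
        exact h2
      have h5 := LinearMap.congr_fun h4 1
      simpa using h5
    change (Q fun i : Fin (m + 1) => z i).eval β = 0
    rw [← h1, aeval_eq_sum_range, hcard]
    simp only [Q, eval_finsetSum, eval_mul, eval_C, eval_pow, eval_X]
    rw [Finset.sum_range (fun i => (cp β).coeff i • β ^ i)]
    refine Finset.sum_congr rfl fun i _ => ?_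
    rw [hz, Algebra.smul_def]
    congr 1
    simp

end Pool.Agent.LibNM
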