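import Mathlib
import Pool.Agent.LibNM.N01
import Pool.Agent.LibNM.N03
import Pool.Agent.LibNM.N04
import Pool.Agent.LibNM.N05
import Pool.Agent.LibNM.N06
import Pool.Agent.LibNM.N07
import Pool.Agent.LibNM.N09

set_option autoImplicit false

/-! [NM N10] Positivity.

PLAN. By contradiction: `H : ∀ τ ∈ T', ∀ ℓ, IsTest u τ ℓ → 0 ≤ ∑ j, x j * ℓ j`. `N` from N06 for `u`.
`m := finrank` = degree of all `cp β`. For `σ : E →+* ℂ` over `τ ∈ T'` (a test by N01) and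
`λ_j := log ‖σ (u j)‖`: `|λ_j| ≤ k log (C (2 + |τ|))` with common `k`, `C` (N05 for `u j` and `(u j)⁻¹`, all `j`);
for `σ : E →+* PadicAlgCl p`, `p ∣ N`: `|λ_j| ≤ log C_p` (common `C_p`).
Choose `η > 0` with `m * k * r * η ≤ 1/2` and `m * r * η * log C_p < log p` for all primes `p ∣ N`. For `n` in
the infinite set of N03 (for `x`, `η`), `β := (∏ j, u j ^ n j)⁻¹ = ∏ j, u j ^ (-n j)`:
`log ‖σ β‖ = - ∑ n_j λ_j = - q ∑ x_j λ_j + ∑ (q x_j - n_j) λ_j ≤ η ∑ |λ_j|`. So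
`‖σ β‖ ≤ M_τ := (C (2 + |τ|)) ^ (k r η)` (real power, or `exp (η r k log (C (2+|τ|)))`), resp.
`‖σ β‖ ≤ exp (η r log C_p)`. By N04 all roots of `(cp β).map (evK ℂ τ)` are such `σ β`, so N07 bounds the
coefficients: `|c_i(τ)| ≤ 2^m M_τ^m ≤ 2^m (C (2+|τ|))^(1/2)`, and N09 `const_of_growth` gives `c_i = C a_i`;
also `|a_i| ≤ B := 2^m (C (2 + |τ₀|))^(1/2)` for one fixed `τ₀ ∈ T'`. p-adically (at `τ₀`)
`‖a_i‖_p ≤ exp (m η r log C_p) < p`, so `padicNorm p a_i ≤ 1` for every prime `p ∣ N` (the norm of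
`PadicAlgCl p` extends the one of `ℚ_[p]`: `PadicAlgCl.norm_extends`; `padicNorm` of a rational is an
integral power of `p`); with `N ^ e * a_i ∈ ℤ` (N06) this gives `a_i ∈ ℤ`. So `β` lies in the finite set of
`finite_int B`; but `n ↦ ∏ u_j ^ (-n j)` is injective (`hu`) on an infinite set: contradiction. -/

namespace Pool.Agent.LibNM

open Polynomial Filter Topology

private theorem N10_ne {E K : Type} [CommRing E] [NormedField K] (σ : E →+* K) (w : Eˣ) : σ (w : E) ≠ 0 :=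
  (Units.map (σ : E →* K) w).ne_zero

private theorem N10_log {E K : Type} [CommRing E] [NormedField K] {r : ℕ} (u : Fin r → Eˣ) (n : Fin r → ℤ)
    (σ : E →+* K) : Real.log ‖σ ((∏ j, u j ^ n j : Eˣ) : E)‖ = ∑ j, (n j : ℝ) * Real.log ‖σ (u j : E)‖ := by
  have h : σ ((∏ j, u j ^ n j : Eˣ) : E) = ∏ j, (σ (u j : E)) ^ n j := by
    have h1 : σ ((∏ j, u j ^ n j : Eˣ) : E) =
        ((Units.map (σ : E →* K) (∏ j, u j ^ n j) : Kˣ) : K) := rfl
    rw [h1, map_prod, Units.coe_prod]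
    refine Finset.prod_congr rfl fun j _ => ?_
    rw [map_zpow, Units.val_zpow_eq_zpow_val]
    rfl
  rw [h, norm_prod, Real.log_prod]
  · refine Finset.sum_congr rfl fun j _ => ?_
    rw [norm_zpow, Real.log_zpow]
  · intro j _
    exact norm_ne_zero_iff.2 (zpow_ne_zero _ (N10_ne σ (u j)))

private theorem N10_abs {E K : Type} [CommRing E] [NormedField K] (σ : E →+* K) (w : Eˣ) (L : ℝ)
    (h1 : ‖σ (w : E)‖ ≤ Real.exp L) (h2 : ‖σ ((w⁻¹ : Eˣ) : E)‖ ≤ Real.exp L) :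
    |Real.log ‖σ (w : E)‖| ≤ L := by
  have h0 : 0 < ‖σ (w : E)‖ := norm_pos_iff.2 (N10_ne σ w)
  have h3 : σ ((w⁻¹ : Eˣ) : E) = (σ (w : E))⁻¹ := by
    apply eq_inv_of_mul_eq_one_left
    rw [← map_mul, Units.inv_mul, map_one]
  rw [h3, norm_inv] at h2
  rw [abs_le]
  constructor
  · have h4 := Real.log_le_log (inv_pos.2 h0) h2
    rw [Real.log_inv, Real.log_exp] at h4
    linarith
  · have h4 := Real.log_le_log h0 h1
    rwa [Real.log_exp] at h4

private theorem N10_bound {E K : Type} [CommRing E] [NormedField K] {r : ℕ} (u : Fin r → Eˣ) (x : Fin r → ℝ)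
    (n : Fin r → ℤ) (q : ℕ) (η Λ : ℝ) (hη : 0 ≤ η) (hq : ∀ j, |(q : ℝ) * x j - n j| ≤ η) (σ : E →+* K)
    (hx : 0 ≤ ∑ j, x j * Real.log ‖σ (u j : E)‖) (hΛ : ∀ j, |Real.log ‖σ (u j : E)‖| ≤ Λ) :
    ‖σ ((∏ j, u j ^ (-n j) : Eˣ) : E)‖ ≤ Real.exp (r * η * Λ) := by
  have hne : 0 < ‖σ ((∏ j, u j ^ (-n j) : Eˣ) : E)‖ := norm_pos_iff.2 (N10_ne σ _)
  rw [← Real.log_le_iff_le_exp hne, N10_log u (fun j => -n j) σ]
  have h1 : ∑ j, (((fun j => -n j) j : ℤ) : ℝ) * Real.log ‖σ (u j : E)‖ =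
      -((q : ℝ) * ∑ j, x j * Real.log ‖σ (u j : E)‖) +
        ∑ j, ((q : ℝ) * x j - n j) * Real.log ‖σ (u j : E)‖ := by
    rw [Finset.mul_sum, ← Finset.sum_neg_distrib, ← Finset.sum_add_distrib]
    refine Finset.sum_congr rfl fun j _ => ?_
    push_cast
    ring
  rw [h1]
  have h2 : ∑ j, ((q : ℝ) * x j - n j) * Real.log ‖σ (u j : E)‖ ≤ ∑ _j : Fin r, η * Λ := by
    refine Finset.sum_le_sum fun j _ => ?_
    refine (le_abs_self _).trans ?_
    rw [abs_mul]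
    exact mul_le_mul (hq j) (hΛ j) (abs_nonneg _) hη
  have h3 : ∑ _j : Fin r, η * Λ = r * η * Λ := by
    rw [Finset.sum_const, Finset.card_univ, Fintype.card_fin, nsmul_eq_mul]
    ring
  rw [h3] at h2
  have h4 : 0 ≤ (q : ℝ) * ∑ j, x j * Real.log ‖σ (u j : E)‖ := mul_nonneg (Nat.cast_nonneg _) hx
  linarith

private theorem N10_den (p : ℕ) [Fact p.Prime] (a : ℚ) (h : ‖((a : ℚ) : ℚ_[p])‖ < p) : ¬ p ∣ a.den := by
  intro hp
  have hpp : p.Prime := Fact.out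
  have h1 : ((a : ℚ) : ℚ_[p]) * (a.den : ℚ_[p]) = (a.num : ℚ_[p]) := by
    have := Rat.mul_den_eq_num a
    exact_mod_cast congrArg (fun z : ℚ => (z : ℚ_[p])) this
  have h2 : ‖((a.den : ℤ) : ℚ_[p])‖ ≤ (p : ℝ) ^ (-((1 : ℕ) : ℤ)) := by
    rw [Padic.norm_int_le_pow_iff_dvd]
    rw [pow_one]
    exact_mod_cast hp
  have h3 : ¬ ‖(a.num : ℚ_[p])‖ < 1 := by
    rw [Padic.norm_intCast_lt_one_iff]
    intro h4
    have h5 : p ∣ a.num.natAbs := Int.natCast_dvd.1 h4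
    have h6 := Nat.dvd_gcd h5 hp
    rw [a.reduced.gcd_eq_one] at h6
    exact hpp.one_lt.ne' (Nat.dvd_one.1 h6)
  apply h3
  rw [← h1, norm_mul]
  have hp0 : (0 : ℝ) < p := by exact_mod_cast hpp.pos
  have h7 : ‖(a.den : ℚ_[p])‖ ≤ (p : ℝ)⁻¹ := by
    have h8 : ((a.den : ℤ) : ℚ_[p]) = (a.den : ℚ_[p]) := by push_cast; rfl
    rw [h8] at h2
    simpa using h2
  calc ‖((a : ℚ) : ℚ_[p])‖ * ‖(a.den : ℚ_[p])‖ ≤ ‖((a : ℚ) : ℚ_[p])‖ * (p : ℝ)⁻¹ :=
        mul_le_mul_of_nonneg_left h7 (norm_nonneg _)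
    _ < p * (p : ℝ)⁻¹ := mul_lt_mul_of_pos_right h (inv_pos.2 hp0)
    _ = 1 := mul_inv_cancel₀ hp0.ne'

theorem positivity {E : Type} [CommRing E] [IsDomain E] [Algebra ℚ[X] E] [Module.Finite ℚ[X] E]
    [Module.Free ℚ[X] E] {r : ℕ} (u : Fin r → Eˣ)
    (hu : ∀ n : Fin r → ℤ, ∏ j, u j ^ n j = 1 → n = 0) (T' : Set ℤ) (hT' : T'.Infinite)
    (x : Fin r → ℝ) (hx : x ≠ 0) :
    ∃ τ ∈ T', ∃ ℓ ∈ {ℓ | IsTest u τ ℓ}, ∑ j, x j * ℓ j < 0 := by
  classical
  by_contra hcon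
  have H : ∀ τ ∈ T', ∀ ℓ, IsTest u τ ℓ → 0 ≤ ∑ j, x j * ℓ j := by
    intro τ hτ ℓ hℓ
    by_contra h1
    exact hcon ⟨τ, hτ, ℓ, hℓ, not_le.1 h1⟩
  obtain ⟨N, hN, hden⟩ := denom u
  set m : ℕ := Module.finrank ℚ[X] E with hm
  have hmon : ∀ β : E, (cp β).Monic := fun β => LinearMap.charpoly_monic _
  have hdeg : ∀ β : E, (cp β).natDegree = m := fun β => LinearMap.charpoly_natDegree _
  -- archimedean growth
  choose k1 C1 hC1 hg1 using fun j => growth_arch (E := E) (u j : E)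
  choose k2 C2 hC2 hg2 using fun j => growth_arch (E := E) ((u j)⁻¹ : Eˣ)
  set k0 : ℕ := ∑ j, (k1 j + k2 j) with hk0
  set C0 : ℝ := 1 + ∑ j, (C1 j + C2 j) with hC0
  have hsumC : 0 ≤ ∑ j, (C1 j + C2 j) :=
    Finset.sum_nonneg fun j _ => by have := hC1 j; have := hC2 j; linarith
  have hC0' : 1 ≤ C0 := by rw [hC0]; linarith
  have hCj : ∀ j, C1 j ≤ C0 ∧ C2 j ≤ C0 := by
    intro j
    have h1 : C1 j + C2 j ≤ ∑ j, (C1 j + C2 j) :=
      Finset.single_le_sum (f := fun j => C1 j + C2 j)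
        (fun i _ => by have := hC1 i; have := hC2 i; show 0 ≤ C1 i + C2 i; linarith) (Finset.mem_univ j)
    have := hC1 j
    have := hC2 j
    constructor <;> rw [hC0] <;> linarith
  have hkj : ∀ j, k1 j ≤ k0 ∧ k2 j ≤ k0 := by
    intro j
    have h1 : k1 j + k2 j ≤ ∑ j, (k1 j + k2 j) :=
      Finset.single_le_sum (f := fun j => k1 j + k2 j) (fun i _ => Nat.zero_le _) (Finset.mem_univ j)
    constructor <;> omega
  let Lg : ℤ → ℝ := fun τ => Real.log (C0 * (2 + |(τ : ℝ)|))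
  have hbase : ∀ τ : ℤ, 1 ≤ C0 * (2 + |(τ : ℝ)|) := by
    intro τ
    have h1 := abs_nonneg (τ : ℝ)
    nlinarith
  have hLg0 : ∀ τ, 0 ≤ Lg τ := fun τ => Real.log_nonneg (hbase τ)
  have hexpk : ∀ τ : ℤ, Real.exp (k0 * Lg τ) = (C0 * (2 + |(τ : ℝ)|)) ^ k0 := by
    intro τ
    rw [Real.exp_nat_mul, Real.exp_log (by have := hbase τ; linarith)]
  have hpw : ∀ (τ : ℤ) (k : ℕ) (C : ℝ), 1 ≤ C → C ≤ C0 → k ≤ k0 →
      (C * (2 + |(τ : ℝ)|)) ^ k ≤ Real.exp (k0 * Lg τ) := by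
    intro τ k C h1 h2 h3
    rw [hexpk]
    have h4 := abs_nonneg (τ : ℝ)
    calc (C * (2 + |(τ : ℝ)|)) ^ k ≤ (C0 * (2 + |(τ : ℝ)|)) ^ k := by
          apply pow_le_pow_left₀
          · positivity
          · exact mul_le_mul_of_nonneg_right h2 (by positivity)
      _ ≤ (C0 * (2 + |(τ : ℝ)|)) ^ k0 := pow_le_pow_right₀ (hbase τ) h3
  have hΛ : ∀ (τ : ℤ) (σ : E →+* ℂ), σ (tE E) = (τ : ℂ) → ∀ j,
      |Real.log ‖σ (u j : E)‖| ≤ k0 * Lg τ := by
    intro τ σ hσ j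
    apply N10_abs
    · exact (hg1 j τ σ hσ).trans (hpw τ _ _ (hC1 j) (hCj j).1 (hkj j).1)
    · exact (hg2 j τ σ hσ).trans (hpw τ _ _ (hC2 j) (hCj j).2 (hkj j).2)
  -- p-adic growth
  have hpad : ∀ p : ℕ, ∃ D : ℝ, 0 ≤ D ∧ ∀ (hp : p.Prime), ∀ (τ : ℤ),
      ∀ (σ : haveI : Fact p.Prime := ⟨hp⟩; E →+* PadicAlgCl p),
      (haveI : Fact p.Prime := ⟨hp⟩; σ (tE E) = (τ : PadicAlgCl p)) →
      ∀ j, (haveI : Fact p.Prime := ⟨hp⟩; |Real.log ‖σ (u j : E)‖| ≤ D) := by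
    intro p
    by_cases hp : p.Prime
    · haveI : Fact p.Prime := ⟨hp⟩
      choose D1 hD1 hd1 using fun j => growth_padic (E := E) p (u j : E)
      choose D2 hD2 hd2 using fun j => growth_padic (E := E) p ((u j)⁻¹ : Eˣ)
      have hsumD : 0 ≤ ∑ j, (D1 j + D2 j) :=
        Finset.sum_nonneg fun j _ => by have := hD1 j; have := hD2 j; linarith
      refine ⟨∑ j, (D1 j + D2 j), hsumD, ?_⟩
      intro _ τ σ hσ j
      have h1 : D1 j + D2 j ≤ ∑ j, (D1 j + D2 j) :=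
        Finset.single_le_sum (f := fun j => D1 j + D2 j)
          (fun i _ => by have := hD1 i; have := hD2 i; show 0 ≤ D1 i + D2 i; linarith) (Finset.mem_univ j)
      have h2 := Real.add_one_le_exp (∑ j, (D1 j + D2 j))
      have h3 := hD1 j
      have h4 := hD2 j
      apply N10_abs
      · exact (hd1 j τ σ hσ).trans (by linarith)
      · exact (hd2 j τ σ hσ).trans (by linarith)
    · exact ⟨0, le_rfl, fun h => absurd h hp⟩
  choose Dp hDp0 hDp using hpad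
  set D : ℝ := ∑ p ∈ N.primeFactors, Dp p with hD
  have hD0 : 0 ≤ D := Finset.sum_nonneg fun p _ => hDp0 p
  have hDle : ∀ p ∈ N.primeFactors, Dp p ≤ D := fun p hp =>
    Finset.single_le_sum (f := Dp) (fun i _ => hDp0 i) hp
  -- the choice of `η`
  set Z : ℝ := (m : ℝ) * r * (k0 + 2 * D) with hZ
  have hZ0 : 0 ≤ Z := by positivity
  set η : ℝ := 1 / (2 * (Z + 1)) with hη
  have hη0 : 0 < η := by positivity
  have hηZ : Z * η ≤ 1 / 2 := by
    rw [hη, mul_one_div, div_le_div_iff₀ (by positivity) (by norm_num)]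
    nlinarith
  have hη1 : (m : ℝ) * r * k0 * η ≤ 1 / 2 := by
    refine le_trans ?_ hηZ
    apply mul_le_mul_of_nonneg_right _ hη0.le
    rw [hZ]
    have h1 : 0 ≤ (m : ℝ) * r * (2 * D) := by positivity
    nlinarith
  have hη2 : (m : ℝ) * r * D * η ≤ 1 / 4 := by
    have h1 : (m : ℝ) * r * (2 * D) * η ≤ 1 / 2 := by
      refine le_trans ?_ hηZ
      apply mul_le_mul_of_nonneg_right _ hη0.le
      rw [hZ]
      have h1 : 0 ≤ (m : ℝ) * r * k0 := by positivity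
      nlinarith
    nlinarith
  obtain ⟨τ₀, hτ₀⟩ := hT'.nonempty
  set B : ℝ := 2 ^ m * Real.sqrt C0 * Real.sqrt (2 + |(τ₀ : ℝ)|) with hB
  -- the main claim
  have main : ∀ n : Fin r → ℤ, (∃ q : ℕ, ∀ j, |(q : ℝ) * x j - n j| ≤ η) →
      ((∏ j, u j ^ (-n j) : Eˣ) : E) ∈
        {β : E | ∀ i, ∃ z : ℤ, |(z : ℝ)| ≤ B ∧ (cp β).coeff i = Polynomial.C (z : ℚ)} := by
    rintro n ⟨q, hq⟩ i
    set β : E := ((∏ j, u j ^ (-n j) : Eˣ) : E) with hβ
    -- bound at the complex places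
    have harch : ∀ τ ∈ T', |((((cp β).coeff i).eval (τ : ℚ) : ℚ) : ℝ)| ≤
        2 ^ m * Real.sqrt C0 * Real.sqrt (2 + |(τ : ℝ)|) := by
      intro τ hτ
      have hM1 : 1 ≤ Real.exp (r * η * (k0 * Lg τ)) := by
        apply Real.one_le_exp
        have := hLg0 τ
        positivity
      have hroot : ∀ z : ℂ, ((cp β).map (evK ℂ τ)).eval z = 0 → ‖z‖ ≤ Real.exp (r * η * (k0 * Lg τ)) := by
        intro z hz
        obtain ⟨σ, hσ, hσβ⟩ := exists_hom (K := ℂ) τ β z hz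
        rw [← hσβ]
        apply N10_bound u x n q η _ hη0.le hq σ _ (hΛ τ σ hσ)
        exact H τ hτ _ ⟨ℂ, inferInstance, goodField_complex, inferInstance, σ, hσ, fun j => rfl⟩
      have h1 := coeff_arch ((cp β).map (evK ℂ τ)) ((hmon β).map _) _ hM1 hroot i
      have h2 : ((cp β).map (evK ℂ τ)).natDegree = m := by
        rw [(hmon β).natDegree_map, hdeg]
      rw [h2, Polynomial.coeff_map] at h1
      have h3 : evK ℂ τ ((cp β).coeff i) = ((((((cp β).coeff i).eval (τ : ℚ) : ℚ) : ℝ)) : ℂ) := by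
        have h4 : evK ℂ τ ((cp β).coeff i) = algebraMap ℚ ℂ (((cp β).coeff i).eval (τ : ℚ)) := by
          rw [evK, Polynomial.coe_eval₂RingHom]
          have h5 : (τ : ℂ) = algebraMap ℚ ℂ (τ : ℚ) := by simp
          rw [h5, Polynomial.eval₂_at_apply]
        rw [h4]
        simp
      rw [h3, Complex.norm_real, Real.norm_eq_abs] at h1
      refine h1.trans ?_
      rw [mul_assoc ((2 : ℝ) ^ m) (Real.sqrt C0)]
      apply mul_le_mul_of_nonneg_left _ (by positivity : (0 : ℝ) ≤ 2 ^ m)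
      rw [← Real.exp_nat_mul, ← Real.sqrt_mul (by linarith : (0:ℝ) ≤ C0)]
      have h6 : (m : ℝ) * (r * η * (k0 * Lg τ)) ≤ 1 / 2 * Lg τ := by
        have := mul_le_mul_of_nonneg_right hη1 (hLg0 τ)
        calc (m : ℝ) * (r * η * (k0 * Lg τ)) = (m : ℝ) * r * k0 * η * Lg τ := by ring
          _ ≤ _ := this
      calc Real.exp ((m : ℝ) * (r * η * (k0 * Lg τ))) ≤ Real.exp (1 / 2 * Lg τ) := Real.exp_le_exp.2 h6
        _ = Real.sqrt (C0 * (2 + |(τ : ℝ)|)) := by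
          have hpos : 0 < C0 * (2 + |(τ : ℝ)|) := lt_of_lt_of_le one_pos (hbase τ)
          rw [Real.sqrt_eq_rpow, Real.rpow_def_of_pos hpos]
          congr 1
          ring
    obtain ⟨a, ha⟩ := const_of_growth ((cp β).coeff i) T' hT' (2 ^ m * Real.sqrt C0) harch
    have haB : |(a : ℝ)| ≤ B := by
      have h1 := harch τ₀ hτ₀
      rw [ha, Polynomial.eval_C] at h1
      exact h1
    -- p-adic bounds
    have hpa : ∀ p : ℕ, p.Prime → p ∣ N → ¬ p ∣ a.den := by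
      intro p hp hpN
      haveI : Fact p.Prime := ⟨hp⟩
      have hpm : p ∈ N.primeFactors := Nat.mem_primeFactors.2 ⟨hp, hpN, hN.ne'⟩
      have hM1 : 1 ≤ Real.exp (r * η * D) := by
        apply Real.one_le_exp
        positivity
      have hroot : ∀ z : PadicAlgCl p, ((cp β).map (evK (PadicAlgCl p) τ₀)).eval z = 0 →
          ‖z‖ ≤ Real.exp (r * η * D) := by
        intro z hz
        obtain ⟨σ, hσ, hσβ⟩ := exists_hom (K := PadicAlgCl p) τ₀ β z hz
        rw [← hσβ]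
        apply N10_bound u x n q η _ hη0.le hq σ _ (fun j => (hDp p hp τ₀ σ hσ j).trans (hDle p hpm))
        exact H τ₀ hτ₀ _ ⟨PadicAlgCl p, inferInstance, goodField_padic p, inferInstance, σ, hσ, fun j => rfl⟩
      have h1 := coeff_padic p ((cp β).map (evK (PadicAlgCl p) τ₀)) ((hmon β).map _) _ hM1 hroot i
      have h2 : ((cp β).map (evK (PadicAlgCl p) τ₀)).natDegree = m := by
        rw [(hmon β).natDegree_map, hdeg]
      rw [h2, Polynomial.coeff_map, ha] at h1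
      have h3 : evK (PadicAlgCl p) τ₀ (Polynomial.C a) = (((a : ℚ) : ℚ_[p]) : PadicAlgCl p) := by
        rw [evK, Polynomial.coe_eval₂RingHom, Polynomial.eval₂_C]
        simp
      rw [h3, PadicAlgCl.norm_extends, ← Real.exp_nat_mul] at h1
      apply N10_den p a
      refine lt_of_le_of_lt h1 ?_
      have h4 : (m : ℝ) * (r * η * D) ≤ 1 / 4 := by
        calc (m : ℝ) * (r * η * D) = (m : ℝ) * r * D * η := by ring
          _ ≤ _ := hη2
      have h5 : Real.exp (1 / 4) < 2 := by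
        have h6 := Real.log_two_gt_d9
        rw [← Real.lt_log_iff_exp_lt (by norm_num)]
        linarith
      have h7 : (2 : ℝ) ≤ p := by exact_mod_cast hp.two_le
      exact lt_of_le_of_lt (Real.exp_le_exp.2 h4) (lt_of_lt_of_le h5 h7)
    -- `a` is an integer
    obtain ⟨e, z, hz⟩ := hden (fun j => -n j) i 0
    have hz' : (N : ℚ) ^ e * a = z := by
      have h1 : ((cp β).coeff i).coeff 0 = a := by
        rw [ha, Polynomial.coeff_C_zero]
      rw [← h1]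
      exact hz
    have hden1 : a.den = 1 := by
      by_contra hne
      obtain ⟨p, hp, hpd⟩ := Nat.exists_prime_and_dvd hne
      apply hpa p hp _ hpd
      have h1 : (N : ℤ) ^ e * a.num = z * a.den := by
        have h2 : (N : ℚ) ^ e * (a.num : ℚ) = z * (a.den : ℚ) := by
          rw [← hz', mul_assoc, Rat.mul_den_eq_num]
        exact_mod_cast h2
      have h3 : (p : ℤ) ∣ (N : ℤ) ^ e * a.num := by
        rw [h1]
        exact dvd_mul_of_dvd_right (by exact_mod_cast hpd) _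
      have hpi : Prime (p : ℤ) := Nat.prime_iff_prime_int.1 hp
      rcases hpi.dvd_or_dvd h3 with h4 | h4
      · have h5 := hpi.dvd_of_dvd_pow h4
        exact_mod_cast h5
      · exfalso
        have h5 : p ∣ a.num.natAbs := Int.natCast_dvd.1 h4
        have h6 := Nat.dvd_gcd h5 hpd
        rw [a.reduced.gcd_eq_one] at h6
        exact hp.one_lt.ne' (Nat.dvd_one.1 h6)
    have hanum : a = (a.num : ℚ) := by
      have h1 := Rat.mul_den_eq_num a
      rw [hden1] at h1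
      simpa using h1
    refine ⟨a.num, ?_, ?_⟩
    · have h1 : ((a.num : ℤ) : ℝ) = (a : ℝ) := by
        conv_rhs => rw [hanum]
        push_cast
        rfl
      rw [h1]
      exact haB
    · rw [ha, ← hanum]
  -- contradiction
  have hfin := finite_int (E := E) B
  have hinf := dirichlet x hx η hη0
  apply hinf
  have hinj : Set.InjOn (fun n : Fin r → ℤ => ((∏ j, u j ^ (-n j) : Eˣ) : E))
      {n : Fin r → ℤ | ∃ q : ℕ, ∀ j, |(q : ℝ) * x j - n j| ≤ η} := by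
    intro n _ n' _ hnn
    have h1 : (∏ j, u j ^ (-n j) : Eˣ) = ∏ j, u j ^ (-n' j) := Units.ext hnn
    have h2 : (∏ j, u j ^ ((n' - n) j) : Eˣ) = 1 := by
      have h3 : ∀ j, u j ^ ((n' - n) j) = u j ^ (-n j) * (u j ^ (-n' j))⁻¹ := by
        intro j
        rw [← zpow_neg, ← zpow_add]
        congr 1
        simp only [Pi.sub_apply]
        ring
      rw [Finset.prod_congr rfl fun j _ => h3 j, Finset.prod_mul_distrib, Finset.prod_inv_distrib, h1,
        mul_inv_cancel]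
    have h4 := hu _ h2
    exact (sub_eq_zero.1 h4).symm
  exact Set.Finite.of_finite_image (hfin.subset (by
    rintro _ ⟨n, hn, rfl⟩
    exact main n hn)) hinj

end Pool.Agent.LibNM
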