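import Mathlib
import Pool.Agent.LibNM.Defs

set_option autoImplicit false

/-! [NM N12] Finitely generated commutative groups.

PLAN. `CommGroup.equiv_free_prod_prod_multiplicative_zmod` (or the additive form
`AddCommGroup.equiv_free_prod_directSum_zmod` for `Additive Q`): `Q ≃ ℤ^r × finite`. `e` is the inverse image
of the first factor, `F` the image of the finite factor. `Zd r = Multiplicative (Fin r → ℤ)`.
`units_prod`: `e z = ∏ j, e (ofAdd (Pi.single j 1)) ^ z j` (homomorphisms on `Zd r` are determined by the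
basis; `Finset.univ_sum_single`). -/

namespace Pool.Agent.LibNM

open Pool.Agent.LibND

theorem lattice (Q : Type) [CommGroup Q] (h : Group.FG Q) :
    ∃ (r : ℕ) (e : Zd r →* Q) (F : Finset Q), Function.Injective e ∧
      ∀ q : Q, ∃ ν : Zd r, ∃ f ∈ F, q = e ν * f := by
  have hfg : Group.FG Q := h
  obtain ⟨ι, j, _, _, p, hp, e, ⟨φ⟩⟩ := CommGroup.equiv_free_prod_prod_multiplicative_zmod Q
  have hne : ∀ i, NeZero (p i ^ e i) := fun i => ⟨pow_ne_zero _ (hp i).ne_zero⟩
  have hfin : ∀ i, Finite (Multiplicative (ZMod (p i ^ e i))) := fun i =>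
    inferInstanceAs (Finite (ZMod (p i ^ e i)))
  have hfinp : Finite ((i : ι) → Multiplicative (ZMod (p i ^ e i))) := Pi.finite
  let σ : Fin (Fintype.card j) ≃ j := (Fintype.equivFin j).symm
  let E : Zd (Fintype.card j) →*
      (j → Multiplicative ℤ) × ((i : ι) → Multiplicative (ZMod (p i ^ e i))) :=
    { toFun := fun z => (fun i => Multiplicative.ofAdd (z.toAdd (σ.symm i)), 1)
      map_one' := rfl
      map_mul' := fun x y => by
        refine Prod.ext ?_ ?_
        · funext i
          rfl
        · exact (mul_one _).symm }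
  refine ⟨Fintype.card j, φ.symm.toMonoidHom.comp E,
    (Set.finite_range (fun t : ((i : ι) → Multiplicative (ZMod (p i ^ e i))) =>
      φ.symm (1, t))).toFinset, ?_, ?_⟩
  · intro x y hxy
    have h1 : E x = E y := φ.symm.injective hxy
    have h2 := congrArg Prod.fst h1
    have h3 : ∀ i, x.toAdd i = y.toAdd i := by
      intro i
      have h4 := congrFun h2 (σ i)
      have h5 : x.toAdd (σ.symm (σ i)) = y.toAdd (σ.symm (σ i)) := h4
      rwa [Equiv.symm_apply_apply] at h5
    exact Multiplicative.toAdd.injective (funext h3)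
  · intro q
    refine ⟨Multiplicative.ofAdd (fun i => ((φ q).1 (σ i)).toAdd), φ.symm (1, (φ q).2), ?_, ?_⟩
    · rw [Set.Finite.mem_toFinset]
      exact ⟨(φ q).2, rfl⟩
    · have h1 : E (Multiplicative.ofAdd (fun i => ((φ q).1 (σ i)).toAdd)) * (1, (φ q).2) = φ q := by
        refine Prod.ext ?_ ?_
        · funext i
          show Multiplicative.ofAdd (((φ q).1 (σ (σ.symm i))).toAdd) * 1 = (φ q).1 i
          rw [Equiv.apply_symm_apply, mul_one]
          rfl
        · exact one_mul _
      show q = φ.symm (E _) * φ.symm (1, (φ q).2)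
      rw [← map_mul, h1, MulEquiv.symm_apply_apply]

theorem map_zd {r : ℕ} {H : Type} [CommGroup H] (e : Zd r →* H) (z : Zd r) :
    e z = ∏ j, e (Multiplicative.ofAdd (Pi.single j 1)) ^ (z.toAdd j) := by
  have hz : z = ∏ j, (Multiplicative.ofAdd (Pi.single j (1 : ℤ) : Fin r → ℤ)) ^ (z.toAdd j) := by
    apply Multiplicative.toAdd.injective
    rw [toAdd_prod]
    funext i
    simp only [toAdd_zpow, toAdd_ofAdd, Finset.sum_apply, Pi.smul_apply, smul_eq_mul]
    rw [Finset.sum_eq_single i]
    · rw [Pi.single_eq_same, mul_one]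
    · intro b _ hb
      rw [Pi.single_eq_of_ne (Ne.symm hb), mul_zero]
    · intro h
      exact absurd (Finset.mem_univ i) h
  conv_lhs => rw [hz]
  rw [map_prod]
  exact Finset.prod_congr rfl (fun j _ => map_zpow e _ _)

end Pool.Agent.LibNM
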