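import Mathlib
import Pool.Agent.LibNM.N02
import Pool.Agent.LibNM.N04
import Pool.Agent.LibNM.N08
import Pool.Agent.LibNM.N10
import Pool.Agent.LibNM.N12

set_option autoImplicit false

/-! [NM N13] Non-recurrent characters.

PLAN. N12: `r`, `e`, `F` for `Q`. `u j := Units.map ι (φ (e (ofAdd (Pi.single j 1)))) : Eˣ`, so
`Units.map ι (φ (e z)) = ∏ j, u j ^ z j` (`map_zd`), injective in `z`. Choose three disjoint infinite sets
of integers `T₁`, `T₂` and one more integer `τ*` outside (e.g. `τ* = 0`, `T₁` = positive even, `T₂` = positive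
odd numbers). N02 with `𝓛 τ = {ℓ | IsTest u τ ℓ}` (N10) for `T₁` and for `T₂`: finite sets `s₁`, `s₂` and vectors `ℓ`.
Unpack the tests (`choose`): for `τ ∈ s₁`: `K_τ`, `σ_τ : E →+* K_τ`; for `τ ∈ s₂`: `K_τ`, `σ_τ` and its companion
`σ'_τ : E →+* ℂ` over `τ` (N08); `σ'_*` over `τ*` (`exists_hom'`).
`s := s₁ ∪ s₂ ∪ {τ*}`. For `τ ∈ s` let `b_τ : D` and `n_τ ≠ 0` with `ι (b_τ) = n_τ * ∏_(τ' ∈ s, τ' ≠ τ) (tE E - τ')`
(`hιE`). Every ring homomorphism `σ` over `τ' ∈ s` (to a field of characteristic 0) has `σ (ι b_τ) = 0` for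
`τ' ≠ τ` and `≠ 0` for `τ' = τ`.
Characters: for `τ ∈ s₁`, `ψ_τ : AddChar K_τ Circle` with `ψ_τ → 1` at `0` and `ψ_τ (σ_τ (ι b_τ)) ≠ 1` (GoodField);
for `τ ∈ s₂ ∪ {τ*}` a generic `ψ'_τ` (N08) for the countable set
`{σ'_τ (ι ((φ γ - 1) * b_τ)) | γ : Q}` (`Q` is countable, being finitely generated).
`χ b := ∏_(τ∈s₁) ψ_τ (σ_τ (ι b)) * ∏_(τ∈s₂∪{τ*}) ψ'_τ (σ'_τ (ι b))`, an `AddChar D Circle`.
(1) For `τ ∈ s₁`: `χ (φ γ * b_τ) = ψ_τ (σ_τ (ι (φ γ)) * σ_τ (ι b_τ))`: if `‖σ_τ (ι (φ γ))‖ ≤ ρ_τ` (small) then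
`dist (χ (φ γ * b_τ)) (χ b_τ) ≥ dist (ψ_τ (σ_τ ι b_τ)) 1 / 2`.
(2) By compactness of the unit sphere of `Fin r → ℝ` there is `δ > 0` with
`∀ x, ∃ τ ∈ s₁, ∑ x_j ℓ_τ j ≤ - δ ‖x‖`. For `γ = e ν * f`, `f ∈ F`:
`log ‖σ_τ (ι φ γ)‖ = ∑ ν_j ℓ_τ j + log ‖σ_τ (ι φ f)‖ ≤ - δ ‖ν‖ + C ≤ log ρ_τ` as soon as `‖ν‖ ≥ R`. So all but finitely
many `γ` are separated by `{b_τ | τ ∈ s₁}` with a uniform `ε`.
(3) Every `γ ≠ 1` has `σ'_τ (ι (φ γ)) ≠ 1` for some `τ ∈ s₂ ∪ {τ*}`: if `γ` has finite order `n > 1` then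
`∑_(i<n) (φ γ)^i = 0` in the domain `D`, and `σ'_* (ι φ γ) = 1` would give `n = 0` in `ℂ`; if `γ` has infinite
order then `γ ^ k = e ν` with `k ≥ 1`, `ν ≠ 0` (pigeonhole in `F`), so `∑ ν_j ℓ_τ j < 0` for some `τ ∈ s₂`:
`‖σ_τ (ι φ γ)‖ < 1`, `σ_τ (ι (φ γ - 1)) ≠ 0`, and so `σ'_τ (ι (φ γ - 1)) ≠ 0`. Hence
`χ ((φ γ - 1) * b_τ) = ψ'_τ (σ'_τ (ι ((φ γ - 1) * b_τ))) ≠ 1`, that is `χ (φ γ * b_τ) ≠ χ b_τ`. For the finitely many
`γ ≠ 1` left over in (2) take the minimum of the distances.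
`E₀ := {b_τ | τ ∈ s}`. -/

namespace Pool.Agent.LibNM

open Polynomial Filter Topology

open Pool.Agent.LibND (Zd)

/-- a finite set of positive numbers has a positive lower bound -/
private theorem n13_min {α : Type*} (S : Finset α) (g : α → ℝ) (hg : ∀ a ∈ S, 0 < g a) :
    ∃ ε : ℝ, 0 < ε ∧ ∀ a ∈ S, ε ≤ g a := by
  classical
  induction S using Finset.induction_on with
  | empty => exact ⟨1, one_pos, fun a ha => absurd ha (Finset.notMem_empty a)⟩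
  | insert a S _ ih =>
    obtain ⟨ε, hε, h⟩ := ih fun b hb => hg b (Finset.mem_insert_of_mem hb)
    refine ⟨min ε (g a), lt_min hε (hg a (Finset.mem_insert_self a S)), fun b hb => ?_⟩
    rcases Finset.mem_insert.1 hb with rfl | hb
    · exact min_le_right _ _
    · exact (min_le_left _ _).trans (h b hb)

/-- the norm of a word in the units -/
private theorem n13_norm {E : Type} [CommRing E] {r : ℕ} (e' : Zd r →* Eˣ) {K : Type}
    [NormedField K] (σ : E →+* K) (ℓ : Fin r → ℝ)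
    (hℓ : ∀ j, ℓ j = Real.log ‖σ (e' (Multiplicative.ofAdd (Pi.single j 1)) : E)‖) (ν : Zd r) :
    ‖σ (e' ν : E)‖ = Real.exp (∑ j, (ν.toAdd j : ℝ) * ℓ j) := by
  let N : Eˣ →* ℝ := ((normHom : K →*₀ ℝ) : K →* ℝ).comp ((σ : E →* K).comp (Units.coeHom E))
  have hN : ∀ x : Eˣ, N x = ‖σ (x : E)‖ := fun x => rfl
  rw [← hN, map_zd e' ν, map_prod, Real.exp_sum]
  refine Finset.prod_congr rfl fun j _ => ?_
  rw [map_zpow, hN, hℓ, mul_comm, Real.exp_mul, Real.rpow_intCast, Real.exp_log]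
  exact norm_pos_iff.2 ((e' _).isUnit.map σ).ne_zero

/-- compactness: integer vectors on which all tests are bounded below are bounded -/
private theorem n13_compact {r : ℕ} (s : Finset ℤ) (ℓ : ℤ → Fin r → ℝ)
    (h : ∀ x : Fin r → ℝ, x ≠ 0 → ∃ τ ∈ s, ∑ j, x j * ℓ τ j < 0) (M : ℝ) :
    {ν : Fin r → ℤ | ∀ τ ∈ s, - M < ∑ j, (ν j : ℝ) * ℓ τ j}.Finite := by
  let g : (Fin r → ℝ) → ℝ := fun x => ∑ τ ∈ s, max 0 (- ∑ j, x j * ℓ τ j)
  have hgc : Continuous g := by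
    refine continuous_finsetSum _ fun τ _ => continuous_const.max (Continuous.neg ?_)
    exact continuous_finsetSum _ fun j _ => (continuous_apply j).mul continuous_const
  have hg0 : ∀ x : Fin r → ℝ, x ≠ 0 → 0 < g x := by
    intro x hx
    obtain ⟨τ, hτ, hlt⟩ := h x hx
    refine lt_of_lt_of_le (lt_of_lt_of_le (neg_pos.2 hlt) (le_max_right 0 _))
      (Finset.single_le_sum (f := fun τ => max 0 (- ∑ j, x j * ℓ τ j))
        (fun i _ => le_max_left _ _) hτ)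
  have hgh : ∀ (t : ℝ) (x : Fin r → ℝ), 0 ≤ t → g (t • x) = t * g x := by
    intro t x ht
    simp only [g, Finset.mul_sum]
    refine Finset.sum_congr rfl fun τ _ => ?_
    have e1 : - ∑ j, (t • x) j * ℓ τ j = t * (- ∑ j, x j * ℓ τ j) := by
      rw [mul_neg, Finset.mul_sum]
      congr 1
      exact Finset.sum_congr rfl fun j _ => by simp [mul_assoc]
    rw [e1, mul_max_of_nonneg _ _ ht, mul_zero]
  obtain ⟨c, hc, hcg⟩ : ∃ c : ℝ, 0 < c ∧ ∀ x : Fin r → ℝ, c * ‖x‖ ≤ g x := by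
    by_cases hne : (Metric.sphere (0 : Fin r → ℝ) 1).Nonempty
    · obtain ⟨x0, hx0, hmin⟩ := (isCompact_sphere (0 : Fin r → ℝ) 1).exists_isMinOn hne
        hgc.continuousOn
      have hx00 : x0 ≠ 0 := by
        rintro rfl
        rw [mem_sphere_zero_iff_norm, norm_zero] at hx0
        exact zero_ne_one hx0
      refine ⟨g x0, hg0 x0 hx00, fun x => ?_⟩
      rcases eq_or_ne x 0 with rfl | hx
      · rw [norm_zero, mul_zero]
        exact Finset.sum_nonneg fun i _ => le_max_left _ _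
      · have hxn : 0 < ‖x‖ := norm_pos_iff.2 hx
        have h1 : ‖x‖⁻¹ • x ∈ Metric.sphere (0 : Fin r → ℝ) 1 := by
          rw [mem_sphere_zero_iff_norm, norm_smul, norm_inv, norm_norm, inv_mul_cancel₀ hxn.ne']
        have h2 : g x0 ≤ g (‖x‖⁻¹ • x) := hmin h1
        rw [hgh _ _ (inv_nonneg.2 hxn.le), inv_mul_eq_div, le_div_iff₀ hxn] at h2
        exact h2
    · refine ⟨1, one_pos, fun x => ?_⟩
      have hx : x = 0 := by
        by_contra hx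
        have hxn : 0 < ‖x‖ := norm_pos_iff.2 hx
        exact hne ⟨‖x‖⁻¹ • x, by
          rw [mem_sphere_zero_iff_norm, norm_smul, norm_inv, norm_norm, inv_mul_cancel₀ hxn.ne']⟩
      subst hx
      rw [norm_zero, mul_zero]
      exact Finset.sum_nonneg fun i _ => le_max_left _ _
  obtain ⟨B, hB⟩ := exists_nat_ge ((s.card : ℝ) * max 0 M / c)
  refine (Set.finite_Icc (fun _ : Fin r => -(B : ℤ)) fun _ => (B : ℤ)).subset fun ν hν => ?_
  have h1 : g (fun j => (ν j : ℝ)) ≤ s.card * max 0 M := by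
    calc g (fun j => (ν j : ℝ)) ≤ ∑ _τ ∈ s, max 0 M := by
          refine Finset.sum_le_sum fun τ hτ => max_le_max le_rfl ?_
          have := hν τ hτ
          linarith
      _ = s.card * max 0 M := by rw [Finset.sum_const, nsmul_eq_mul]
  have h2 : ‖(fun j => (ν j : ℝ) : Fin r → ℝ)‖ ≤ B := by
    refine le_trans ?_ hB
    rw [le_div_iff₀ hc, mul_comm]
    exact (hcg _).trans h1
  have h3 : ∀ j, |ν j| ≤ (B : ℤ) := by
    intro j
    have h4 := (norm_le_pi_norm (fun j => (ν j : ℝ) : Fin r → ℝ) j).trans h2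
    rw [Real.norm_eq_abs] at h4
    exact_mod_cast h4
  exact ⟨fun j => (abs_le.1 (h3 j)).1, fun j => (abs_le.1 (h3 j)).2⟩

section chars

variable {Q : Type} [CommGroup Q] {D : Type} [CommRing D] (φ : Q →* Dˣ) {E : Type} [CommRing E]
  [IsDomain E] [Algebra ℚ[X] E] (ι : D →+* E)

/-- the units of `E` -/
private noncomputable def n13_U : Q →* Eˣ := (Units.map (ι : D →* E)).comp φ

private theorem n13_U_coe (γ : Q) : ((n13_U φ ι γ : Eˣ) : E) = ι (φ γ : D) := rfl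

/-- the character of a test -/
private theorem n13_test {r : ℕ} (e : Zd r →* Q) (F : Finset Q) {τ : ℤ} {ℓ : Fin r → ℝ}
    (hT : IsTest (fun j => n13_U φ ι (e (Multiplicative.ofAdd (Pi.single j 1)))) τ ℓ) (b : D)
    (hb : ∀ (K : Type) [Field K] [CharZero K] (σ : E →+* K), σ (tE E) = (τ : K) → σ (ι b) ≠ 0) :
    ∃ X : AddChar D Circle, (∀ d b' : D, (tE E - (τ : E)) ∣ ι b' → X (d * b') = 1) ∧
      ∃ M ε : ℝ, 0 < ε ∧ ∀ (ν : Zd r), ∀ f ∈ F, ∑ j, (ν.toAdd j : ℝ) * ℓ j ≤ - M →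
        ε ≤ dist (X ((φ (e ν * f) : D) * b)) (X b) := by
  obtain ⟨K, iK, hgood, hchar, σ, hσ, hℓ⟩ := hT
  have hz : σ (ι b) ≠ 0 := hb K σ hσ
  obtain ⟨ψ, hψ, hψ1⟩ := hgood _ hz
  have ha : 0 < dist (ψ (σ (ι b))) 1 := dist_pos.2 hψ1
  obtain ⟨ρ, hρ, hρ2⟩ := Metric.tendsto_nhds_nhds.1 hψ (dist (ψ (σ (ι b))) 1 / 2) (by linarith)
  let X : AddChar D Circle := ψ.compAddMonoidHom ((σ.comp ι : D →+* K) : D →+ K)
  have hX : ∀ d, X d = ψ (σ (ι d)) := fun d => rfl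
  refine ⟨X, fun d b' hb' => ?_, ?_⟩
  · obtain ⟨c, hc⟩ := hb'
    have h0 : σ (ι (d * b')) = 0 := by
      rw [map_mul, map_mul, hc, map_mul, map_sub, hσ, map_intCast, sub_self, zero_mul, mul_zero]
    rw [hX, h0, AddChar.map_zero_eq_one]
  · obtain ⟨B, hB⟩ : ∃ B : ℝ, B = ∑ f ∈ F, ‖σ (ι (φ f : D))‖ := ⟨_, rfl⟩
    have hB0 : 0 ≤ B := by
      rw [hB]
      exact Finset.sum_nonneg fun f _ => norm_nonneg _
    have hzn : 0 ≤ ‖σ (ι b)‖ := norm_nonneg _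
    have hden : 0 < 2 * ((B + 1) * (‖σ (ι b)‖ + 1)) := by positivity
    refine ⟨- Real.log (ρ / (2 * ((B + 1) * (‖σ (ι b)‖ + 1)))),
      dist (ψ (σ (ι b))) 1 / 2, by linarith, fun ν f hf hν => ?_⟩
    rw [neg_neg] at hν
    have h1 : ‖σ (ι (φ (e ν) : D))‖ ≤ ρ / (2 * ((B + 1) * (‖σ (ι b)‖ + 1))) := by
      have h2 := n13_norm ((n13_U φ ι).comp e) σ ℓ hℓ ν
      have h3 : ‖σ (ι (φ (e ν) : D))‖ = Real.exp (∑ j, (ν.toAdd j : ℝ) * ℓ j) := h2
      rw [h3]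
      calc Real.exp (∑ j, (ν.toAdd j : ℝ) * ℓ j)
          ≤ Real.exp (Real.log (ρ / (2 * ((B + 1) * (‖σ (ι b)‖ + 1))))) := Real.exp_le_exp.2 hν
        _ = _ := Real.exp_log (by positivity)
    have h4 : ‖σ (ι (φ f : D))‖ ≤ B := by
      rw [hB]
      exact Finset.single_le_sum (f := fun f => ‖σ (ι (φ f : D))‖) (fun i _ => norm_nonneg _) hf
    have h5 : ‖σ (ι ((φ (e ν * f) : D) * b))‖ < ρ := by
      have h6 : σ (ι ((φ (e ν * f) : D) * b)) =
          σ (ι (φ (e ν) : D)) * σ (ι (φ f : D)) * σ (ι b) := by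
        rw [map_mul φ, Units.val_mul, map_mul, map_mul, map_mul, map_mul]
      rw [h6, norm_mul, norm_mul]
      calc ‖σ (ι (φ (e ν) : D))‖ * ‖σ (ι (φ f : D))‖ * ‖σ (ι b)‖
          ≤ ρ / (2 * ((B + 1) * (‖σ (ι b)‖ + 1))) * (B + 1) * (‖σ (ι b)‖ + 1) := by
            have h7 : ‖σ (ι (φ f : D))‖ ≤ B + 1 := by linarith
            have h8 : ‖σ (ι b)‖ ≤ ‖σ (ι b)‖ + 1 := by linarith
            gcongr
        _ = ρ / 2 := by field_simp
        _ < ρ := by linarith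
    have h9 : dist (X ((φ (e ν * f) : D) * b)) 1 < dist (ψ (σ (ι b))) 1 / 2 := by
      rw [hX]
      refine hρ2 ?_
      rw [dist_zero_right]
      exact h5
    have h10 : dist (ψ (σ (ι b))) 1 ≤ dist (X ((φ (e ν * f) : D) * b)) (X b) +
        dist (X ((φ (e ν * f) : D) * b)) 1 := by
      rw [← hX, dist_comm (X ((φ (e ν * f) : D) * b)) (X b)]
      exact dist_triangle _ _ _
    linarith

/-- a generic character over the complex numbers -/
private theorem n13_arch [Countable Q] {τ : ℤ} (σ : E →+* ℂ) (hσ : σ (tE E) = (τ : ℂ)) (b : D)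
    (hb : σ (ι b) ≠ 0) :
    ∃ X : AddChar D Circle, (∀ d b' : D, (tE E - (τ : E)) ∣ ι b' → X (d * b') = 1) ∧
      ∀ γ : Q, σ (ι (φ γ : D)) ≠ 1 → X ((φ γ : D) * b) ≠ X b := by
  obtain ⟨ψ, hψ⟩ := generic_char (Set.range fun γ : Q => σ (ι (((φ γ : D) - 1) * b)))
    (Set.countable_range _)
  let X : AddChar D Circle := ψ.compAddMonoidHom ((σ.comp ι : D →+* ℂ) : D →+ ℂ)
  have hX : ∀ d, X d = ψ (σ (ι d)) := fun d => rfl
  refine ⟨X, fun d b' hb' => ?_, fun γ hγ heq => ?_⟩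
  · obtain ⟨c, hc⟩ := hb'
    have h0 : σ (ι (d * b')) = 0 := by
      rw [map_mul, map_mul, hc, map_mul, map_sub, hσ, map_intCast, sub_self, zero_mul, mul_zero]
    rw [hX, h0, AddChar.map_zero_eq_one]
  · have h1 : σ (ι (((φ γ : D) - 1) * b)) ≠ 0 := by
      rw [map_mul, map_mul, map_sub, map_sub, map_one, map_one]
      exact mul_ne_zero (sub_ne_zero.2 hγ) hb
    have h2 := hψ _ ⟨γ, rfl⟩ h1
    have h3 : X ((φ γ : D) * b) = X b * ψ (σ (ι (((φ γ : D) - 1) * b))) := by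
      have e1 : (φ γ : D) * b = b + ((φ γ : D) - 1) * b := by ring
      conv_lhs => rw [e1]
      rw [AddChar.map_add_eq_mul, hX (((φ γ : D) - 1) * b)]
    rw [heq] at h3
    exact h2 (mul_left_cancel (h3.symm.trans (mul_one _).symm))

end chars

theorem nonrecurrent {Q : Type} [CommGroup Q] (hQ : Group.FG Q) {D : Type} [CommRing D]
    [IsDomain D] (φ : Q →* Dˣ) (hφ : Function.Injective φ) {E : Type} [CommRing E] [IsDomain E]
    [Algebra ℚ[X] E] [Module.Finite ℚ[X] E] [Module.Free ℚ[X] E] (ι : D →+* E)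
    (hι : Function.Injective ι) (hιE : ∀ x : E, ∃ (n : ℤ) (d : D), n ≠ 0 ∧ (n : E) * x = ι d) :
    ∃ (χ : AddChar D Circle) (E₀ : Finset D) (ε : ℝ), 0 < ε ∧
      ∀ γ : Q, γ ≠ 1 → ∃ b ∈ E₀, ε ≤ dist (χ ((φ γ : D) * b)) (χ b) := by
  classical
  obtain ⟨r, e, F, he, hdec⟩ := lattice Q hQ
  -- countability
  have hQc : Countable Q := by
    have hs : Function.Surjective fun p : Zd r × F => e p.1 * (p.2 : Q) := by
      intro q
      obtain ⟨ν, f, hf, rfl⟩ := hdec q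
      exact ⟨(ν, ⟨f, hf⟩), rfl⟩
    have : Countable (Zd r) := inferInstanceAs (Countable (Fin r → ℤ))
    exact hs.countable
  -- the units
  obtain ⟨u, hu⟩ : ∃ u : Fin r → Eˣ, u = fun j =>
    n13_U φ ι (e (Multiplicative.ofAdd (Pi.single j 1))) := ⟨_, rfl⟩
  have hUinj : Function.Injective (n13_U φ ι) := by
    intro γ γ' h
    have h1 : ι (φ γ : D) = ι (φ γ' : D) := congrArg (fun x : Eˣ => (x : E)) h
    exact hφ (Units.ext (hι h1))
  have huinj : ∀ n : Fin r → ℤ, ∏ j, u j ^ n j = 1 → n = 0 := by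
    intro n hn
    have h1 := map_zd ((n13_U φ ι).comp e) (Multiplicative.ofAdd n)
    have h2 : ((n13_U φ ι).comp e) (Multiplicative.ofAdd n) = 1 := by
      rw [h1]
      rw [hu] at hn
      exact hn
    have h3 : e (Multiplicative.ofAdd n) = 1 := hUinj (by rw [map_one]; exact h2)
    have h4 : Multiplicative.ofAdd n = 1 := he (by rw [h3, map_one])
    exact Multiplicative.ofAdd.injective h4
  -- the two selections
  obtain ⟨s₁, ℓ₁, hs₁, hl₁, hn₁⟩ := selection (fun τ => {ℓ | IsTest u τ ℓ})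
    (fun T' hT' x hx => positivity u huinj T' hT' x hx)
    (Set.range fun k : ℕ => (2 * (k : ℤ) + 1)) (Set.infinite_range_of_injective fun a b h => by
      have h' : 2 * (a : ℤ) + 1 = 2 * (b : ℤ) + 1 := h
      omega)
  obtain ⟨s₂, ℓ₂, hs₂, hl₂, hn₂⟩ := selection (fun τ => {ℓ | IsTest u τ ℓ})
    (fun T' hT' x hx => positivity u huinj T' hT' x hx)
    (Set.range fun k : ℕ => (2 * (k : ℤ) + 2)) (Set.infinite_range_of_injective fun a b h => by
      have h' : 2 * (a : ℤ) + 2 = 2 * (b : ℤ) + 2 := h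
      omega)
  have hd₁ : ∀ τ ∈ s₁, ∃ k : ℕ, 2 * (k : ℤ) + 1 = τ := fun τ hτ => hs₁ hτ
  have hd₂ : ∀ τ ∈ s₂, ∃ k : ℕ, 2 * (k : ℤ) + 2 = τ := fun τ hτ => hs₂ hτ
  have hE0 : CharZero E := by
    have : Nontrivial E := inferInstance
    have h1 : Function.Injective ((algebraMap ℚ[X] E).comp (Polynomial.C : ℚ →+* ℚ[X])) :=
      RingHom.injective _
    exact charZero_of_injective_ringHom h1
  -- the elements b
  obtain ⟨s, hs⟩ : ∃ s : Finset ℤ, s = s₁ ∪ s₂ ∪ {0} := ⟨_, rfl⟩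
  choose nb b hnb hb using fun τ : ℤ => hιE (∏ τ' ∈ s.erase τ, (tE E - (τ' : E)))
  have hb1 : ∀ τ ∈ s, ∀ τ' ∈ s, τ' ≠ τ → (tE E - (τ' : E)) ∣ ι (b τ) := by
    intro τ _ τ' hτ' hne
    rw [← hb]
    exact (Finset.dvd_prod_of_mem (fun τ' : ℤ => tE E - (τ' : E))
      (Finset.mem_erase.2 ⟨hne, hτ'⟩)).mul_left _
  have hb2 : ∀ τ : ℤ, ∀ (K : Type) [Field K] [CharZero K] (σ : E →+* K), σ (tE E) = (τ : K) →
      σ (ι (b τ)) ≠ 0 := by
    intro τ K _ _ σ hσ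
    rw [← hb, map_mul, map_intCast, map_prod]
    refine mul_ne_zero (Int.cast_ne_zero.2 (hnb τ)) (Finset.prod_ne_zero_iff.2 fun τ' hτ' => ?_)
    rw [map_sub, hσ, map_intCast, ← Int.cast_sub]
    exact Int.cast_ne_zero.2 (sub_ne_zero.2 (Finset.mem_erase.1 hτ').1.symm)
  -- the characters
  have hX : ∀ τ : ℤ, ∃ X : AddChar D Circle, τ ∈ s →
      (∀ d b' : D, (tE E - (τ : E)) ∣ ι b' → X (d * b') = 1) ∧
      (τ ∈ s₁ → ∃ M ε : ℝ, 0 < ε ∧ ∀ (ν : Zd r), ∀ f ∈ F,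
        ∑ j, (ν.toAdd j : ℝ) * ℓ₁ τ j ≤ - M → ε ≤ dist (X ((φ (e ν * f) : D) * b τ)) (X (b τ))) ∧
      (τ ∈ s₂ → ∀ (γ : Q) (k : ℕ) (ν : Zd r), γ ^ k = e ν →
        ∑ j, (ν.toAdd j : ℝ) * ℓ₂ τ j < 0 → X ((φ γ : D) * b τ) ≠ X (b τ)) ∧
      (τ = 0 → ∀ (γ : Q) (k : ℕ), 1 ≤ k → γ ^ k = 1 → γ ≠ 1 →
        X ((φ γ : D) * b τ) ≠ X (b τ)) := by
    intro τ
    by_cases hτ : τ ∈ s
    · rw [hs, Finset.mem_union, Finset.mem_union, Finset.mem_singleton] at hτ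
      rcases hτ with (hτ | hτ) | hτ
      · obtain ⟨k, hk⟩ := hd₁ τ hτ
        have ht := hl₁ τ hτ
        rw [hu] at ht
        obtain ⟨X, hX1, hX2⟩ := n13_test φ ι e F ht (b τ) (hb2 τ)
        refine ⟨X, fun _ => ⟨hX1, fun _ => hX2, fun h2 => ?_, fun h0 => ?_⟩⟩
        · obtain ⟨k', hk'⟩ := hd₂ τ h2
          omega
        · omega
      · obtain ⟨k, hk⟩ := hd₂ τ hτ
        obtain ⟨K, iK, hgood, hchar, σ, hσ, hℓ⟩ := hl₂ τ hτ
        obtain ⟨σ', hσ', hσσ'⟩ := companion τ σ hσ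
        obtain ⟨X, hX1, hX2⟩ := n13_arch φ ι σ' hσ' (b τ) (hb2 τ ℂ σ' hσ')
        refine ⟨X, fun _ => ⟨hX1, fun h1 => ?_, fun _ γ k ν hγ hlt => ?_, fun h0 => ?_⟩⟩
        · obtain ⟨k', hk'⟩ := hd₁ τ h1
          omega
        · refine hX2 γ fun h1 => ?_
          have h2 : σ (ι (φ γ : D)) = 1 := by
            have h3 : σ (ι (φ γ : D) - 1) = 0 := by
              refine hσσ' _ ?_
              rw [map_sub, map_one, h1, sub_self]
            rw [map_sub, map_one] at h3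
            exact sub_eq_zero.1 h3
          rw [hu] at hℓ
          have h4 := n13_norm ((n13_U φ ι).comp e) σ (ℓ₂ τ) hℓ ν
          have h5 : ‖σ (ι (φ (e ν) : D))‖ = Real.exp (∑ j, (ν.toAdd j : ℝ) * ℓ₂ τ j) := h4
          rw [← hγ, map_pow, Units.val_pow_eq_pow_val, map_pow, map_pow, h2, one_pow,
            norm_one] at h5
          have h6 : Real.exp (∑ j, (ν.toAdd j : ℝ) * ℓ₂ τ j) < 1 := by
            rw [← Real.exp_zero]
            exact Real.exp_lt_exp.2 hlt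
          rw [← h5] at h6
          exact lt_irrefl _ h6
        · omega
      · subst hτ
        obtain ⟨σ', hσ'⟩ := exists_hom' ℂ E 0
        obtain ⟨X, hX1, hX2⟩ := n13_arch φ ι σ' hσ' (b 0) (hb2 0 ℂ σ' hσ')
        refine ⟨X, fun _ => ⟨hX1, fun h1 => ?_, fun h2 => ?_, fun _ γ k hk hγ hne => ?_⟩⟩
        · obtain ⟨k', hk'⟩ := hd₁ 0 h1
          omega
        · obtain ⟨k', hk'⟩ := hd₂ 0 h2
          omega
        · refine hX2 γ fun h1 => ?_
          have h2 : ((φ γ : D) - 1) * ∑ i ∈ Finset.range k, (φ γ : D) ^ i = 0 := by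
            rw [mul_geom_sum, ← Units.val_pow_eq_pow_val, ← map_pow, hγ, map_one, Units.val_one,
              sub_self]
          rcases mul_eq_zero.1 h2 with h3 | h3
          · apply hne
            apply hφ
            rw [map_one]
            exact Units.ext (sub_eq_zero.1 h3)
          · have h4 := congrArg (fun x => σ' (ι x)) h3
            simp only [map_sum, map_pow, h1, one_pow, Finset.sum_const, Finset.card_range,
              map_zero, nsmul_eq_mul, mul_one] at h4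
            have h5 : k = 0 := by exact_mod_cast h4
            omega
    · exact ⟨1, fun h => absurd h hτ⟩
  choose X hX using hX
  have hs1 : ∀ τ ∈ s₁, τ ∈ s := fun τ h => by
    rw [hs]
    exact Finset.mem_union_left _ (Finset.mem_union_left _ h)
  have hs2 : ∀ τ ∈ s₂, τ ∈ s := fun τ h => by
    rw [hs]
    exact Finset.mem_union_left _ (Finset.mem_union_right _ h)
  have hs0 : (0 : ℤ) ∈ s := by
    rw [hs]
    exact Finset.mem_union_right _ (Finset.mem_singleton_self 0)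
  obtain ⟨χ, hχ⟩ : ∃ χ : AddChar D Circle, χ = ∏ τ ∈ s, X τ := ⟨_, rfl⟩
  have hχ1 : ∀ τ ∈ s, ∀ d : D, χ (d * b τ) = X τ (d * b τ) := by
    intro τ hτ d
    rw [hχ, AddChar.prod_apply]
    exact Finset.prod_eq_single τ
      (fun τ' hτ' hne => (hX τ' hτ').1 d (b τ) (hb1 τ hτ τ' hτ' hne))
      (fun h => absurd hτ h)
  have hχ2 : ∀ τ ∈ s, χ (b τ) = X τ (b τ) := by
    intro τ hτ
    have h1 := hχ1 τ hτ 1
    rwa [one_mul] at h1
  -- uniform constants for the first family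
  have hM : ∀ τ : ℤ, ∃ M ε : ℝ, 0 < ε ∧ (τ ∈ s₁ → ∀ (ν : Zd r), ∀ f ∈ F,
      ∑ j, (ν.toAdd j : ℝ) * ℓ₁ τ j ≤ - M →
        ε ≤ dist (X τ ((φ (e ν * f) : D) * b τ)) (X τ (b τ))) := by
    intro τ
    by_cases hτ : τ ∈ s₁
    · obtain ⟨M, ε, hε, h⟩ := (hX τ (hs1 τ hτ)).2.1 hτ
      exact ⟨M, ε, hε, fun _ => h⟩
    · exact ⟨0, 1, one_pos, fun h => absurd h hτ⟩
  choose M εt hεt hM using hM
  obtain ⟨ε₁, hε₁, hε₁2⟩ := n13_min s₁ εt fun τ _ => hεt τ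
  have hfin := n13_compact s₁ ℓ₁ hn₁ (∑ τ ∈ s₁, |M τ|)
  have hMle : ∀ τ ∈ s₁, M τ ≤ ∑ τ ∈ s₁, |M τ| := fun τ hτ =>
    (le_abs_self _).trans (Finset.single_le_sum (f := fun τ => |M τ|) (fun i _ => abs_nonneg _) hτ)
  -- every element is separated
  have hsep : ∀ γ : Q, γ ≠ 1 → ∃ τ ∈ s, 0 < dist (χ ((φ γ : D) * b τ)) (χ (b τ)) := by
    intro γ hγ
    have hpow : ∃ (k : ℕ) (ν : Zd r), 1 ≤ k ∧ γ ^ k = e ν := by
      choose N f hf hNf using fun i : ℕ => hdec (γ ^ i)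
      obtain ⟨i, j, hij, hfij⟩ := Finite.exists_ne_map_eq_of_infinite
        (fun i : ℕ => (⟨f i, hf i⟩ : F))
      have hfij' : f i = f j := congrArg Subtype.val hfij
      have key : ∀ i j : ℕ, i < j → f i = f j → ∃ (k : ℕ) (ν : Zd r), 1 ≤ k ∧ γ ^ k = e ν := by
        intro i j hlt hff
        refine ⟨j - i, N j * (N i)⁻¹, by omega, ?_⟩
        have h1 : γ ^ (j - i) * γ ^ i = γ ^ j := by rw [← pow_add, Nat.sub_add_cancel hlt.le]
        rw [hNf i, hNf j, hff] at h1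
        rw [map_mul, map_inv]
        have h2 : γ ^ (j - i) * e (N i) = e (N j) := by
          refine mul_right_cancel (b := f j) ?_
          rw [mul_assoc]
          exact h1
        rw [← h2, mul_inv_cancel_right]
      rcases lt_or_gt_of_ne hij with h | h
      · exact key i j h hfij'
      · exact key j i h hfij'.symm
    obtain ⟨k, ν, hk, hkν⟩ := hpow
    by_cases hν : ν = 1
    · refine ⟨0, hs0, dist_pos.2 ?_⟩
      rw [hχ1 0 hs0, hχ2 0 hs0]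
      exact (hX 0 hs0).2.2.2 rfl γ k hk (by rw [hkν, hν, map_one]) hγ
    · have hx : (fun j => (ν.toAdd j : ℝ) : Fin r → ℝ) ≠ 0 := by
        intro h0
        apply hν
        have h1 : ν.toAdd = 0 := by
          funext j
          have h2 := congrFun h0 j
          simp only [Pi.zero_apply] at h2
          exact_mod_cast h2
        exact Multiplicative.toAdd.injective h1
      obtain ⟨τ, hτ, hlt⟩ := hn₂ _ hx
      refine ⟨τ, hs2 τ hτ, dist_pos.2 ?_⟩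
      rw [hχ1 τ (hs2 τ hτ), hχ2 τ (hs2 τ hτ)]
      exact (hX τ (hs2 τ hτ)).2.2.1 hτ γ k ν hkν hlt
  choose! tt htt1 htt2 using hsep
  -- the finite set of exceptions
  let Γ : Finset Q := ((hfin.toFinset ×ˢ F).image fun p => e (Multiplicative.ofAdd p.1) * p.2)
  obtain ⟨ε₂, hε₂, hε₂2⟩ := n13_min (Γ.filter fun γ => γ ≠ 1)
    (fun γ => dist (χ ((φ γ : D) * b (tt γ))) (χ (b (tt γ))))
    (fun γ hγ => htt2 γ (Finset.mem_filter.1 hγ).2)
  refine ⟨χ, s.image b, min ε₁ ε₂, lt_min hε₁ hε₂, fun γ hγ => ?_⟩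
  obtain ⟨ν, f, hf, hνf⟩ := hdec γ
  by_cases hν : ν.toAdd ∈ {ν : Fin r → ℤ | ∀ τ ∈ s₁,
      - (∑ τ ∈ s₁, |M τ|) < ∑ j, (ν j : ℝ) * ℓ₁ τ j}
  · have h1 : γ ∈ Γ.filter fun γ => γ ≠ 1 := by
      refine Finset.mem_filter.2 ⟨Finset.mem_image.2 ⟨(ν.toAdd, f),
        Finset.mem_product.2 ⟨hfin.mem_toFinset.2 hν, hf⟩, ?_⟩, hγ⟩
      rw [hνf]
      rfl
    exact ⟨b (tt γ), Finset.mem_image_of_mem b (htt1 γ hγ), (min_le_right _ _).trans (hε₂2 γ h1)⟩
  · have h1 : ∃ τ ∈ s₁, ∑ j, (ν.toAdd j : ℝ) * ℓ₁ τ j ≤ - (∑ τ ∈ s₁, |M τ|) := by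
      by_contra h2
      push Not at h2
      exact hν h2
    obtain ⟨τ, hτ, hle⟩ := h1
    refine ⟨b τ, Finset.mem_image_of_mem b (hs1 τ hτ), (min_le_left _ _).trans ?_⟩
    rw [hχ1 τ (hs1 τ hτ), hχ2 τ (hs1 τ hτ), hνf]
    refine (hε₁2 τ hτ).trans (hM τ hτ ν f hf ?_)
    have := hMle τ hτ
    linarith

end Pool.Agent.LibNM
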