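import Mathlib
import Pool.Agent.LibNM.N04

set_option autoImplicit false

/-! [NM N14] Many independent elements modulo a principal ideal.

PLAN. `hιE` for `x = ∏_(m < k) (tE E - m)` gives `n₀ ≠ 0` and `g` with `ι g = n₀ ∏_m (tE E - m)`; for
`x_m = ∏_(l ≠ m) (tE E - l)` it gives `n_m ≠ 0` and `a m` with `ι (a m) = n_m x_m`. `g ≠ 0`: apply a
homomorphism `E →+* ℂ` over `τ = k` (`exists_hom'`). If `∑ c_i a_i = g d`, apply `σ_m ∘ ι`, `σ_m` over `τ = m`:
`c_m n_m ∏_(l ≠ m) (m - l) = 0`, so `c_m = 0`. -/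

namespace Pool.Agent.LibNM

open Polynomial Filter Topology

theorem independent {D : Type} [CommRing D] [IsDomain D] {E : Type} [CommRing E] [IsDomain E]
    [Algebra ℚ[X] E] [Module.Finite ℚ[X] E] [Module.Free ℚ[X] E] (ι : D →+* E)
    (hιE : ∀ x : E, ∃ (n : ℤ) (d : D), n ≠ 0 ∧ (n : E) * x = ι d) (k : ℕ) :
    ∃ (g : D) (a : Fin k → D), g ≠ 0 ∧
      ∀ c : Fin k → ℤ, (∃ d, ∑ i, (c i : D) * a i = g * d) → c = 0 := by
  classical
  obtain ⟨n₀, g, hn₀, hg⟩ := hιE (∏ m : Fin k, (tE E - ((m : ℕ) : E)))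
  choose n a hn ha using fun m : Fin k =>
    hιE (∏ l ∈ Finset.univ.erase m, (tE E - ((l : ℕ) : E)))
  have hom : ∀ τ : ℤ, ∃ σ : E →+* ℂ, σ (tE E) = (τ : ℂ) := fun τ => exists_hom' ℂ E τ
  refine ⟨g, a, ?_, ?_⟩
  · intro h0
    obtain ⟨σ, hσ⟩ := hom k
    have h1 := congrArg σ hg
    rw [h0, map_zero, map_zero, map_mul, map_intCast, map_prod] at h1
    have h2 : (n₀ : ℂ) ≠ 0 := by exact_mod_cast hn₀
    have h3 : ∏ m : Fin k, σ (tE E - ((m : ℕ) : E)) ≠ 0 := by
      rw [Finset.prod_ne_zero_iff]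
      intro m _
      rw [map_sub, hσ, map_natCast, sub_ne_zero]
      have := m.2
      intro h
      have h4 : ((k : ℤ) : ℂ) = ((m : ℕ) : ℂ) := h
      have h5 : k = (m : ℕ) := by exact_mod_cast h4
      omega
    exact mul_ne_zero h2 h3 h1
  · rintro c ⟨d, hd⟩
    funext m
    obtain ⟨σ, hσ⟩ := hom ((m : ℕ) : ℤ)
    have h1 := congrArg (fun x => σ (ι x)) hd
    simp only [map_sum, map_mul, map_intCast] at h1
    have hg0 : σ (ι g) = 0 := by
      rw [← hg, map_mul, map_prod, Finset.prod_eq_zero (Finset.mem_univ m), mul_zero]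
      rw [map_sub, hσ, map_natCast]
      simp
    rw [hg0, zero_mul, Finset.sum_eq_single m] at h1
    · rcases mul_eq_zero.1 h1 with h2 | h2
      · have h3 : c m = 0 := by exact_mod_cast h2
        rw [h3]
        rfl
      · exfalso
        rw [← ha m, map_mul, map_intCast, map_prod] at h2
        have h4 : (n m : ℂ) ≠ 0 := by exact_mod_cast hn m
        have h3 : ∏ l ∈ Finset.univ.erase m, σ (tE E - ((l : ℕ) : E)) ≠ 0 := by
          rw [Finset.prod_ne_zero_iff]
          intro l hl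
          rw [map_sub, hσ, map_natCast, sub_ne_zero]
          intro h
          have h5 : (m : ℕ) = (l : ℕ) := by exact_mod_cast h
          exact (Finset.mem_erase.1 hl).1 (Fin.ext h5.symm)
        exact mul_ne_zero h4 h3 h2
    · intro l _ hl
      have h2 : σ (ι (a l)) = 0 := by
        rw [← ha l, map_mul, map_prod,
          Finset.prod_eq_zero (Finset.mem_erase.2 ⟨fun h => hl h.symm, Finset.mem_univ m⟩),
          mul_zero]
        rw [map_sub, hσ, map_natCast]
        simp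
      rw [h2, mul_zero]
    · intro h
      exact absurd (Finset.mem_univ m) h

end Pool.Agent.LibNM
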