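import Mathlib
import Pool.Agent.LibNM.Defs

set_option autoImplicit false

/-! [NM N15] Noether normalization in one variable. -/

namespace Pool.Agent.LibNM

open Polynomial Filter Topology Cardinal

/-- A domain of infinite rank over `ℤ` has characteristic zero. -/
private theorem n15_charZero {D : Type} [CommRing D] [IsDomain D]
    (hinf : ℵ₀ ≤ Module.rank ℤ D) : CharZero D := by
  refine charZero_of_inj_zero fun n hn => ?_
  by_contra hne
  have h0 : Module.rank ℤ D = 0 := by
    rw [rank_eq_zero_iff]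
    intro x
    refine ⟨(n : ℤ), by exact_mod_cast hne, ?_⟩
    rw [zsmul_eq_mul]
    push_cast
    rw [hn, zero_mul]
  rw [h0] at hinf
  exact absurd hinf (not_le.mpr aleph0_pos)

/-- The rational hull of `D`. -/
private theorem n15_hull {D : Type} [CommRing D] [IsDomain D] (hft : Algebra.FiniteType ℤ D)
    [CharZero D] :
    ∃ (E : Type) (_ : CommRing E) (_ : IsDomain E) (_ : Algebra ℚ E)
      (_ : Algebra.FiniteType ℚ E) (ι : D →+* E),
      Function.Injective ι ∧ ∀ x : E, ∃ (n : ℤ) (d : D), n ≠ 0 ∧ (n : E) * x = ι d := by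
  obtain ⟨S, hS⟩ := hft.out
  have hinj : Function.Injective (algebraMap D (FractionRing D)) := IsFractionRing.injective D _
  have : CharZero (FractionRing D) := charZero_of_injective_algebraMap hinj
  classical
  let E : Subalgebra ℚ (FractionRing D) :=
    Algebra.adjoin ℚ ((S.image (algebraMap D (FractionRing D)) : Finset (FractionRing D)) :
      Set (FractionRing D))
  have hE : Algebra.FiniteType ℚ E := by
    rw [← Subalgebra.fg_iff_finiteType]
    exact ⟨_, rfl⟩
  have hmem : ∀ d : D, algebraMap D (FractionRing D) d ∈ E := by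
    intro d
    have hd : d ∈ Algebra.adjoin ℤ (S : Set D) := by rw [hS]; trivial
    induction hd using Algebra.adjoin_induction with
    | mem x hx =>
      apply Algebra.subset_adjoin
      rw [Finset.coe_image]
      exact Set.mem_image_of_mem _ hx
    | algebraMap r =>
      rw [algebraMap_int_eq, eq_intCast, map_intCast]
      exact intCast_mem E r
    | add x y _ _ hx hy =>
      rw [map_add]
      exact add_mem hx hy
    | mul x y _ _ hx hy =>
      rw [map_mul]
      exact mul_mem hx hy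
  have hfrac : ∀ x : FractionRing D, x ∈ E → ∃ (n : ℤ) (d : D), n ≠ 0 ∧
      (n : FractionRing D) * x = algebraMap D (FractionRing D) d := by
    intro x hx
    induction hx using Algebra.adjoin_induction with
    | mem x hx =>
      rw [Finset.coe_image] at hx
      obtain ⟨d, _, rfl⟩ := hx
      exact ⟨1, d, one_ne_zero, by simp⟩
    | algebraMap r =>
      refine ⟨(r.den : ℤ), (r.num : D), by exact_mod_cast r.den_nz, ?_⟩
      have h1 : algebraMap ℚ (FractionRing D) r = (r : FractionRing D) := by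
        rw [eq_ratCast]
      rw [h1, map_intCast]
      have h2 : ((r.den : ℤ) : FractionRing D) * (r : FractionRing D)
          = (((r.den : ℤ) : ℚ) * r : ℚ) := by push_cast; ring
      rw [h2]
      have h3 : ((r.den : ℤ) : ℚ) * r = (r.num : ℚ) := by
        rw [mul_comm]
        exact_mod_cast Rat.mul_den_eq_num r
      rw [h3]
      push_cast
      rfl
    | add x y _ _ hx hy =>
      obtain ⟨n, d, hn, h1⟩ := hx
      obtain ⟨m, e, hm, h2⟩ := hy
      refine ⟨n * m, (m : D) * d + (n : D) * e, mul_ne_zero hn hm, ?_⟩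
      rw [map_add, map_mul, map_mul, ← h1, ← h2, map_intCast, map_intCast]
      push_cast
      ring
    | mul x y _ _ hx hy =>
      obtain ⟨n, d, hn, h1⟩ := hx
      obtain ⟨m, e, hm, h2⟩ := hy
      refine ⟨n * m, d * e, mul_ne_zero hn hm, ?_⟩
      rw [map_mul, ← h1, ← h2]
      push_cast
      ring
  refine ⟨E, inferInstance, inferInstance, inferInstance, hE,
    (algebraMap D (FractionRing D)).codRestrict E hmem, ?_, ?_⟩
  · intro a b hab
    apply hinj
    exact congrArg Subtype.val hab
  · intro x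
    obtain ⟨n, d, hn, h⟩ := hfrac x.1 x.2
    refine ⟨n, d, hn, Subtype.ext ?_⟩
    push_cast
    exact h

/-- Proper quotients of the rational hull are finite-dimensional. -/
private theorem n15_quot {D E : Type} [CommRing D] [IsDomain D] [CommRing E] [IsDomain E]
    [Algebra ℚ E] (ι : D →+* E)
    (hfr : ∀ x : E, ∃ (n : ℤ) (d : D), n ≠ 0 ∧ (n : E) * x = ι d)
    (hq : ∀ I : Ideal D, I ≠ ⊥ → Module.rank ℤ (D ⧸ I) < ℵ₀) (J : Ideal E) (hJ : J ≠ ⊥) :
    Module.Finite ℚ (E ⧸ J) := by
  have : CharZero E := algebraRat.charZero E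
  have hI : J.comap ι ≠ ⊥ := by
    obtain ⟨x, hx, hx0⟩ := Submodule.exists_mem_ne_zero_of_ne_bot hJ
    obtain ⟨n, d, hn, h⟩ := hfr x
    intro hbot
    have hd : d ∈ J.comap ι := by
      rw [Ideal.mem_comap, ← h]
      exact J.mul_mem_left _ hx
    rw [hbot, Ideal.mem_bot] at hd
    rw [hd, map_zero] at h
    exact (mul_ne_zero (Int.cast_ne_zero.mpr hn) hx0) h
  obtain ⟨r, hr⟩ := lt_aleph0.mp (hq _ hI)
  by_contra hnf
  have hbig : ℵ₀ ≤ Module.rank ℚ (E ⧸ J) := by
    by_contra hlt
    exact hnf (Module.rank_lt_aleph0_iff.mp (not_le.mp hlt))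
  obtain ⟨v, hv⟩ := exists_linearIndependent_of_le_rank (R := ℚ) (M := E ⧸ J) (n := r + 1)
    (le_trans natCast_lt_aleph0.le hbig)
  choose x hx using fun i => Ideal.Quotient.mk_surjective (v i)
  choose n d hn hd using hfr
  have hli : LinearIndependent ℤ fun i : Fin (r + 1) =>
      (Ideal.Quotient.mk (J.comap ι) (d (x i)) : D ⧸ J.comap ι) := by
    rw [Fintype.linearIndependent_iff]
    intro c hc i
    have h1 : (∑ i, (c i : D) * d (x i)) ∈ J.comap ι := by
      rw [← Ideal.Quotient.eq_zero_iff_mem, map_sum, ← hc]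
      refine Finset.sum_congr rfl fun i _ => ?_
      rw [map_mul, map_intCast, zsmul_eq_mul]
    rw [Ideal.mem_comap, map_sum] at h1
    have h2 : ∑ i, ((c i * n (x i) : ℤ) : ℚ) • v i = 0 := by
      have h3 : (Ideal.Quotient.mk J) (∑ i, ι ((c i : D) * d (x i))) = 0 :=
        Ideal.Quotient.eq_zero_iff_mem.mpr h1
      rw [map_sum] at h3
      rw [← h3]
      refine Finset.sum_congr rfl fun i _ => ?_
      rw [map_mul, map_intCast, ← hd, ← hx i, map_mul, map_mul, map_intCast, map_intCast,
        Algebra.smul_def, map_intCast, ← mul_assoc]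
      push_cast
      rfl
    have h4 := (Fintype.linearIndependent_iff.mp hv) _ h2 i
    rw [Int.cast_eq_zero] at h4
    exact (mul_eq_zero.mp h4).resolve_right (hn _)
  have h5 := hli.cardinal_le_rank
  rw [hr] at h5
  simp only [Cardinal.mk_fintype, Fintype.card_fin] at h5
  have h6 : r + 1 ≤ r := by exact_mod_cast h5
  omega

/-- The rational hull is infinite-dimensional. -/
private theorem n15_infinite {D E : Type} [CommRing D] [IsDomain D] [CommRing E] [IsDomain E]
    [Algebra ℚ E] (ι : D →+* E) (hι : Function.Injective ι)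
    (hinf : ℵ₀ ≤ Module.rank ℤ D) : ¬ Module.Finite ℚ E := by
  intro hfin
  obtain ⟨v, hv⟩ := exists_linearIndependent_of_le_rank (R := ℤ) (M := D)
    (n := Module.finrank ℚ E + 1) (le_trans natCast_lt_aleph0.le hinf)
  have h1 : LinearIndependent ℤ fun i => ι (v i) := by
    have h2 := hv.map' (ι.toAddMonoidHom.toIntLinearMap) (by
      rw [LinearMap.ker_eq_bot]
      exact hι)
    exact h2
  have h3 : LinearIndependent ℚ fun i => ι (v i) := (LinearIndependent.iff_fractionRing ℤ ℚ).mp h1
  have h4 := h3.fintype_card_le_finrank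
  rw [Fintype.card_fin] at h4
  omega

/-- At most one variable. -/
private theorem n15_lt_two {E : Type} [CommRing E] [IsDomain E] [Algebra ℚ E]
    (hq : ∀ J : Ideal E, J ≠ ⊥ → Module.Finite ℚ (E ⧸ J)) {s : ℕ}
    (g : MvPolynomial (Fin s) ℚ →ₐ[ℚ] E) (hg : Function.Injective g) (hfin : g.Finite) :
    s < 2 := by
  by_contra hs
  push Not at hs
  let i0 : Fin s := ⟨0, by omega⟩
  let i1 : Fin s := ⟨1, by omega⟩
  have hi : i1 ≠ i0 := by
    intro h
    have := congrArg Fin.val h
    simp [i0, i1] at this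
  let φ : MvPolynomial (Fin s) ℚ →ₐ[ℚ] ℚ[X] :=
    MvPolynomial.aeval fun i => if i = i0 then 0 else X
  have hφ0 : φ (MvPolynomial.X i0) = 0 := by simp [φ]
  have hφ1 : φ (MvPolynomial.X i1) = X := by simp [φ, hi]
  let : Algebra (MvPolynomial (Fin s) ℚ) E := g.toRingHom.toAlgebra
  have : Module.Finite (MvPolynomial (Fin s) ℚ) E := hfin
  have : Algebra.IsIntegral (MvPolynomial (Fin s) ℚ) E := inferInstance
  have hP : (RingHom.ker φ.toRingHom).IsPrime := RingHom.ker_isPrime _
  have hker : RingHom.ker (algebraMap (MvPolynomial (Fin s) ℚ) E) ≤ RingHom.ker φ.toRingHom := by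
    intro p hp
    have hp0 : p = 0 := by
      apply hg
      rw [map_zero]
      exact hp
    rw [hp0]
    exact Ideal.zero_mem _
  obtain ⟨Q, hQ, hQP⟩ :=
    Ideal.exists_ideal_over_prime_of_isIntegral_of_isDomain (S := E) (RingHom.ker φ.toRingHom) hker
  have hcomap : ∀ p : MvPolynomial (Fin s) ℚ, g p ∈ Q ↔ φ p = 0 := by
    intro p
    have h1 : p ∈ Q.comap (algebraMap (MvPolynomial (Fin s) ℚ) E) ↔
        p ∈ RingHom.ker φ.toRingHom := by rw [hQP]
    exact h1
  have hQne : Q ≠ ⊥ := by
    intro hb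
    have h1 : g (MvPolynomial.X i0) ∈ Q := (hcomap _).mpr hφ0
    rw [hb, Ideal.mem_bot] at h1
    have h2 : (MvPolynomial.X i0 : MvPolynomial (Fin s) ℚ) = 0 := by
      apply hg
      rw [h1, map_zero]
    exact MvPolynomial.X_ne_zero i0 h2
  have := hq Q hQne
  obtain ⟨p, hpm, hp⟩ := Algebra.IsIntegral.isIntegral (R := ℚ)
    (Ideal.Quotient.mk Q (g (MvPolynomial.X i1)))
  have h1 : (Ideal.Quotient.mk Q) (g (Polynomial.aeval (MvPolynomial.X i1) p)) = 0 := by
    rw [← hp, ← Polynomial.aeval_def]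
    have h2 : (Ideal.Quotient.mk Q) (g (Polynomial.aeval (MvPolynomial.X i1) p))
        = ((Ideal.Quotient.mkₐ ℚ Q).comp g) (Polynomial.aeval (MvPolynomial.X i1) p) := rfl
    rw [h2, ← Polynomial.aeval_algHom_apply]
    rfl
  rw [Ideal.Quotient.eq_zero_iff_mem, hcomap, ← Polynomial.aeval_algHom_apply, hφ1,
    Polynomial.aeval_X_left_apply] at h1
  exact hpm.ne_zero h1

theorem noether {D : Type} [CommRing D] [IsDomain D] (hft : Algebra.FiniteType ℤ D)
    (hinf : ℵ₀ ≤ Module.rank ℤ D)
    (hq : ∀ I : Ideal D, I ≠ ⊥ → Module.rank ℤ (D ⧸ I) < ℵ₀) :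
    ∃ (E : Type) (_ : CommRing E) (_ : IsDomain E) (_ : Algebra ℚ[X] E)
      (_ : Module.Finite ℚ[X] E) (_ : Module.Free ℚ[X] E) (ι : D →+* E),
      Function.Injective ι ∧ ∀ x : E, ∃ (n : ℤ) (d : D), n ≠ 0 ∧ (n : E) * x = ι d := by
  have : CharZero D := n15_charZero hinf
  obtain ⟨E, instE, instD, instA, instF, ι, hι, hfr⟩ := n15_hull hft
  have hquot := n15_quot ι hfr hq
  have hnf := n15_infinite ι hι hinf
  obtain ⟨s, g, hg, hfin⟩ := exists_finite_inj_algHom_of_fg ℚ E
  have hs2 : s < 2 := n15_lt_two hquot g hg hfin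
  have hs0 : s ≠ 0 := by
    rintro rfl
    apply hnf
    have h1 : (g.comp (MvPolynomial.isEmptyAlgEquiv ℚ (Fin 0)).symm.toAlgHom).Finite :=
      hfin.comp (AlgHom.Finite.of_surjective _
        (MvPolynomial.isEmptyAlgEquiv ℚ (Fin 0)).symm.surjective)
    have h2 : (g.comp (MvPolynomial.isEmptyAlgEquiv ℚ (Fin 0)).symm.toAlgHom)
        = Algebra.ofId ℚ E := Subsingleton.elim _ _
    rw [h2] at h1
    have h3 : (algebraMap ℚ E).Finite := h1
    exact RingHom.finite_algebraMap.mp h3
  have hs1 : s = 1 := by omega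
  subst hs1
  let e : ℚ[X] →ₐ[ℚ] MvPolynomial (Fin 1) ℚ := Polynomial.aeval (MvPolynomial.X 0)
  let e' : MvPolynomial (Fin 1) ℚ →ₐ[ℚ] ℚ[X] := MvPolynomial.aeval fun _ => X
  have hee' : e.comp e' = AlgHom.id ℚ _ := by
    apply MvPolynomial.algHom_ext
    intro i
    simp [e, e', Subsingleton.elim i 0]
  have he'e : e'.comp e = AlgHom.id ℚ _ := by
    apply Polynomial.algHom_ext
    simp [e, e']
  have hesurj : Function.Surjective e := fun p => ⟨e' p, by
    have := DFunLike.congr_fun hee' p
    exact this⟩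
  have heinj : Function.Injective e := by
    intro p q hpq
    have h1 := DFunLike.congr_fun he'e p
    have h2 := DFunLike.congr_fun he'e q
    have h3 : e' (e p) = e' (e q) := by rw [hpq]
    exact h1.symm.trans (h3.trans h2)
  let h : ℚ[X] →ₐ[ℚ] E := g.comp e
  have hinjh : Function.Injective h := hg.comp heinj
  have hfinh : h.Finite := hfin.comp (AlgHom.Finite.of_surjective _ hesurj)
  let algE : Algebra ℚ[X] E := h.toRingHom.toAlgebra
  have finE : Module.Finite ℚ[X] E := hfinh
  have tfE : Module.IsTorsionFree ℚ[X] E := by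
    rw [Module.isTorsionFree_iff_algebraMap_injective]
    exact hinjh
  exact ⟨E, instE, instD, algE, finE, inferInstance, ι, hι, hfr⟩

end Pool.Agent.LibNM
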