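import Mathlib
import Pool.Agent.LibNM.Defs

set_option autoImplicit false

/-! [NM N16] Modules of infinite rank all of whose proper quotients have finite rank.

PLAN. Ranks over `ℤ` are additive: `rank_quotient_add_rank_of_isDomain` for ℤ-submodules
(`L.restrictScalars ℤ`; `Module.rank` of `M ⧸ L` does not depend on the scalars).
`zero_or_inj`: let `f : M →ₗ[R] M` be the multiplication by `r`. If `ker f ≠ ⊥` and `range f ≠ ⊥` then
`M ⧸ ker f ≃ range f` has finite rank and `M ⧸ range f` has finite rank, so `M` has finite rank: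
contradiction.
`ann_facts` for `a₀ ≠ 0`, `P := {r | r • a₀ = 0}` = `Ideal.span`-free: `P = LinearMap.ker (LinearMap.toSpanSingleton R M a₀)`
(`Ideal.torsionOf R M a₀`): `r ∈ P ↔ r` acts as `0` (`zero_or_inj`), prime; `R ⧸ P ≃ R a₀` has infinite rank
since `M ⧸ R a₀` has finite rank; for `I > P`, `L := I • span {a₀} ≠ ⊥` and `R ⧸ I → M ⧸ L`, `r ↦ r a₀`, is injective
(`r a₀ = i a₀` with `i ∈ I` gives `r - i ∈ P ≤ I`). -/

namespace Pool.Agent.LibNM

open Cardinal

variable {R M : Type} [CommRing R] [AddCommGroup M] [Module R M]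

private theorem n16_add (L : Submodule R M) :
    Module.rank ℤ (M ⧸ L) + Module.rank ℤ L = Module.rank ℤ M := by
  have h := rank_quotient_add_rank_of_isDomain (L.restrictScalars ℤ)
  exact h

private theorem n16_eq {A B : Type} [AddCommGroup A] [AddCommGroup B] (e : A ≃+ B) :
    Module.rank ℤ A = Module.rank ℤ B :=
  e.toIntLinearEquiv.rank_eq

theorem zero_or_inj (hinf : ℵ₀ ≤ Module.rank ℤ M)
    (hq : ∀ L : Submodule R M, L ≠ ⊥ → Module.rank ℤ (M ⧸ L) < ℵ₀) (r : R) :
    (∀ m : M, r • m = 0) ∨ ∀ m : M, r • m = 0 → m = 0 := by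
  by_contra hcon
  push Not at hcon
  obtain ⟨⟨m, hm⟩, m', hm', hm'0⟩ := hcon
  have hker : LinearMap.ker (LinearMap.lsmul R M r) ≠ ⊥ := by
    intro h
    have h1 : m' ∈ LinearMap.ker (LinearMap.lsmul R M r) := hm'
    rw [h, Submodule.mem_bot] at h1
    exact hm'0 h1
  have hran : LinearMap.range (LinearMap.lsmul R M r) ≠ ⊥ := by
    intro h
    have h1 : r • m ∈ LinearMap.range (LinearMap.lsmul R M r) := ⟨m, rfl⟩
    rw [h, Submodule.mem_bot] at h1
    exact hm h1
  have h1 := hq _ hker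
  have h2 := hq _ hran
  have h3 : Module.rank ℤ (M ⧸ LinearMap.ker (LinearMap.lsmul R M r)) =
      Module.rank ℤ (LinearMap.range (LinearMap.lsmul R M r)) :=
    n16_eq (LinearMap.lsmul R M r).quotKerEquivRange.toAddEquiv
  rw [h3] at h1
  have h4 := n16_add (LinearMap.range (LinearMap.lsmul R M r))
  rw [← h4] at hinf
  exact absurd hinf (not_le.2 (Cardinal.add_lt_aleph0 h2 h1))

theorem ann_facts (hinf : ℵ₀ ≤ Module.rank ℤ M)
    (hq : ∀ L : Submodule R M, L ≠ ⊥ → Module.rank ℤ (M ⧸ L) < ℵ₀) (a₀ : M) (ha₀ : a₀ ≠ 0) :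
    (Ideal.torsionOf R M a₀).IsPrime ∧
      (∀ r ∈ Ideal.torsionOf R M a₀, ∀ m : M, r • m = 0) ∧
      ℵ₀ ≤ Module.rank ℤ (R ⧸ Ideal.torsionOf R M a₀) ∧
      ∀ I : Ideal R, Ideal.torsionOf R M a₀ < I → Module.rank ℤ (R ⧸ I) < ℵ₀ := by
  have hP : ∀ r, r ∈ Ideal.torsionOf R M a₀ ↔ r • a₀ = 0 := fun r =>
    Ideal.mem_torsionOf_iff a₀ r
  have hker : LinearMap.ker (LinearMap.toSpanSingleton R M a₀) = Ideal.torsionOf R M a₀ := rfl
  have h2 : ∀ r ∈ Ideal.torsionOf R M a₀, ∀ m : M, r • m = 0 := by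
    intro r hr
    rcases zero_or_inj hinf hq r with h | h
    · exact h
    · exact absurd (h a₀ ((hP r).1 hr)) ha₀
  refine ⟨?_, h2, ?_, ?_⟩
  · refine ⟨?_, ?_⟩
    · rw [Ne, Ideal.eq_top_iff_one, hP, one_smul]
      exact ha₀
    · intro x y hxy
      rw [hP, mul_smul] at hxy
      rcases zero_or_inj hinf hq x with h | h
      · exact Or.inl ((hP x).2 (h a₀))
      · exact Or.inr ((hP y).2 (h _ hxy))
  · by_contra hcon
    rw [not_le] at hcon
    have h3 : Module.rank ℤ (R ⧸ Ideal.torsionOf R M a₀) = Module.rank ℤ (Submodule.span R {a₀}) :=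
      n16_eq (Ideal.quotTorsionOfEquivSpanSingleton R M a₀).toAddEquiv
    rw [h3] at hcon
    have h4 : Submodule.span R {a₀} ≠ ⊥ := by
      intro h
      have h5 : a₀ ∈ Submodule.span R {a₀} := Submodule.mem_span_singleton_self a₀
      rw [h, Submodule.mem_bot] at h5
      exact ha₀ h5
    have h5 := hq _ h4
    have h6 := n16_add (Submodule.span R {a₀})
    rw [← h6] at hinf
    exact absurd hinf (not_le.2 (Cardinal.add_lt_aleph0 h5 hcon))
  · intro I hI
    obtain ⟨L, hL⟩ : ∃ L : Submodule R M,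
      L = Submodule.map (LinearMap.toSpanSingleton R M a₀) I := ⟨_, rfl⟩
    have hLne : L ≠ ⊥ := by
      intro h
      obtain ⟨r, hrI, hrP⟩ := Set.exists_of_ssubset hI
      apply hrP
      have h5 : r • a₀ ∈ L := by
        rw [hL]
        exact ⟨r, hrI, rfl⟩
      rw [h, Submodule.mem_bot] at h5
      exact (hP r).2 h5
    obtain ⟨g, hg⟩ : ∃ g : R →ₗ[R] M ⧸ L,
      g = L.mkQ.comp (LinearMap.toSpanSingleton R M a₀) := ⟨_, rfl⟩
    have hkg : LinearMap.ker g = I := by
      ext r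
      rw [LinearMap.mem_ker, hg]
      show Submodule.Quotient.mk (r • a₀) = (0 : M ⧸ L) ↔ r ∈ I
      rw [Submodule.Quotient.mk_eq_zero, hL]
      constructor
      · rintro ⟨i, hi, hir⟩
        have h6 : i • a₀ = r • a₀ := hir
        have h7 : r - i ∈ Ideal.torsionOf R M a₀ := by
          rw [hP, sub_smul, h6, sub_self]
        have h8 : r = (r - i) + i := by ring
        rw [h8]
        exact I.add_mem (hI.le h7) hi
      · intro hr
        exact ⟨r, hr, rfl⟩
    have h6 : Module.rank ℤ (R ⧸ I) = Module.rank ℤ (LinearMap.range g) := by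
      rw [← hkg]
      exact n16_eq g.quotKerEquivRange.toAddEquiv
    have h7 : Module.rank ℤ (LinearMap.range g) ≤ Module.rank ℤ (M ⧸ L) :=
      Submodule.rank_le ((LinearMap.range g).restrictScalars ℤ)
    rw [h6]
    exact h7.trans_lt (hq L hLne)

end Pool.Agent.LibNM
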