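import Mathlib
import Pool.Agent.LibNM.Defs

set_option autoImplicit false

/-! [NM N17] The kernel of a homomorphism onto a commutative group is finitely generated as a normal
subgroup.

PLAN. Let `g_1, ..., g_s` generate `G`, `M₀ := Subgroup.normalClosure {[g_i, g_j]} ≤ N` (`hQ`). The images of the
`g_i` in `G ⧸ M₀` commute and generate it, so `G ⧸ M₀` is commutative (`Subgroup.closure_induction₂`, or
`Subgroup.closureCommGroupOfComm`), a finitely generated commutative group, hence every subgroup is finitely
generated (`AddCommGroup`/ℤ-module Noetherian): the image of `N` is generated by the images of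
`n_1, ..., n_t ∈ N`. `N = M₀ ⊔ closure {n_i}`, so `N` is the normal closure of `{[g_i, g_j]} ∪ {n_i}`. -/

namespace Pool.Agent.LibNM

/-- Every subgroup of a finitely generated commutative group is finitely generated. -/
private theorem fg_of_comm {Q : Type} [CommGroup Q] (hQ : Group.FG Q) (P : Subgroup Q) : P.FG := by
  rw [Subgroup.fg_iff_add_fg]
  have : AddGroup.FG (Additive Q) := GroupFG.iff_add_fg.mp hQ
  have : Module.Finite ℤ (Additive Q) := Module.Finite.iff_addGroup_fg.mpr inferInstance
  have : IsNoetherian ℤ (Additive Q) := inferInstance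
  have h := IsNoetherian.noetherian (AddSubgroup.toIntSubmodule (Subgroup.toAddSubgroup P))
  rw [Submodule.fg_iff_addSubgroup_fg] at h
  simpa using h

/-- The same for a group whose elements commute pairwise. -/
private theorem fg_of_comm' {Q : Type} [Group Q] (hc : ∀ a b : Q, a * b = b * a) (hQ : Group.FG Q)
    (P : Subgroup Q) : P.FG := by
  let _ : CommGroup Q := { (inferInstance : Group Q) with mul_comm := hc }
  exact fg_of_comm hQ P

theorem normal_fg {G : Type} [Group G] (hG : Group.FG G) (N : Subgroup G) [N.Normal]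
    (hQ : ∀ a b : G, a * b * a⁻¹ * b⁻¹ ∈ N) :
    ∃ F : Finset G, (F : Set G) ⊆ N ∧ Subgroup.normalClosure (F : Set G) = N := by
  classical
  obtain ⟨S, hS⟩ := Group.fg_def.mp hG
  set C : Finset G := (S ×ˢ S).image (fun p => p.1 * p.2 * p.1⁻¹ * p.2⁻¹) with hC
  set M : Subgroup G := Subgroup.normalClosure (C : Set G) with hM
  have hMN : M ≤ N := by
    apply Subgroup.normalClosure_le_normal
    intro x hx
    simp only [hC, Finset.coe_image, Set.mem_image] at hx
    obtain ⟨p, -, rfl⟩ := hx
    exact hQ _ _
  let f : G →* G ⧸ M := QuotientGroup.mk' M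
  have hf : Function.Surjective f := QuotientGroup.mk'_surjective M
  have hgen : Subgroup.closure (f '' (S : Set G)) = ⊤ := by
    rw [← MonoidHom.map_closure, hS, ← MonoidHom.range_eq_map]
    exact MonoidHom.range_eq_top.mpr hf
  have hcomm0 : ∀ a ∈ S, ∀ b ∈ S, f a * f b = f b * f a := by
    intro a ha b hb
    have h1 : a * b * a⁻¹ * b⁻¹ ∈ M := by
      apply Subgroup.subset_normalClosure
      simp only [hC, Finset.coe_image, Set.mem_image]
      exact ⟨(a, b), by simp [ha, hb], rfl⟩
    have h2 : f (a * b * a⁻¹ * b⁻¹) = 1 := (QuotientGroup.eq_one_iff _).mpr h1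
    simp only [map_mul, map_inv] at h2
    rw [mul_inv_eq_one, mul_inv_eq_iff_eq_mul] at h2
    exact h2
  have hcomm1 : ∀ a ∈ S, ∀ y : G ⧸ M, f a * y = y * f a := by
    intro a ha y
    have hy : y ∈ Subgroup.centralizer {f a} := by
      have : (⊤ : Subgroup (G ⧸ M)) ≤ Subgroup.centralizer {f a} := by
        rw [← hgen, Subgroup.closure_le]
        rintro _ ⟨b, hb, rfl⟩
        rw [SetLike.mem_coe, Subgroup.mem_centralizer_iff]
        rintro _ rfl
        exact hcomm0 a ha b hb
      exact this (Subgroup.mem_top y)
    rw [Subgroup.mem_centralizer_iff] at hy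
    exact hy _ rfl
  have hcomm : ∀ x y : G ⧸ M, x * y = y * x := by
    intro x y
    have hx : x ∈ Subgroup.centralizer {y} := by
      have : (⊤ : Subgroup (G ⧸ M)) ≤ Subgroup.centralizer {y} := by
        rw [← hgen, Subgroup.closure_le]
        rintro _ ⟨b, hb, rfl⟩
        rw [SetLike.mem_coe, Subgroup.mem_centralizer_iff]
        rintro _ rfl
        exact (hcomm1 b hb _).symm
      exact this (Subgroup.mem_top x)
    rw [Subgroup.mem_centralizer_iff] at hx
    exact (hx _ rfl).symm
  have hQfg : Group.FG (G ⧸ M) := by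
    rw [Group.fg_def]
    refine ⟨S.image f, ?_⟩
    have hco : ((S.image f : Finset (G ⧸ M)) : Set (G ⧸ M)) = f '' (S : Set G) :=
      Finset.coe_image
    exact (congrArg Subgroup.closure hco).trans hgen
  obtain ⟨T, hT⟩ := fg_of_comm' hcomm hQfg (N.map f)
  have hTmem : ∀ t ∈ T, ∃ n ∈ N, f n = t := by
    intro t ht
    have : t ∈ N.map f := by rw [← hT]; exact Subgroup.subset_closure ht
    exact Subgroup.mem_map.mp this
  choose! g hg1 hg2 using hTmem
  refine ⟨C ∪ T.image g, ?_, le_antisymm ?_ ?_⟩
  · intro x hx
    rw [Finset.coe_union, Set.mem_union] at hx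
    rcases hx with hx | hx
    · exact hMN (Subgroup.subset_normalClosure hx)
    · rw [Finset.coe_image] at hx
      obtain ⟨t, ht, rfl⟩ := hx
      exact hg1 t ht
  · apply Subgroup.normalClosure_le_normal
    intro x hx
    rw [Finset.coe_union, Set.mem_union] at hx
    rcases hx with hx | hx
    · exact hMN (Subgroup.subset_normalClosure hx)
    · rw [Finset.coe_image] at hx
      obtain ⟨t, ht, rfl⟩ := hx
      exact hg1 t ht
  · have hM1 : M ≤ Subgroup.normalClosure ((C ∪ T.image g : Finset G) : Set G) := by
      apply Subgroup.normalClosure_mono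
      rw [Finset.coe_union]
      exact Set.subset_union_left
    intro n hn
    have h1 : f n ∈ Subgroup.closure (T : Set (G ⧸ M)) := by
      rw [hT]; exact Subgroup.mem_map_of_mem f hn
    have h2 : Subgroup.closure (T : Set (G ⧸ M)) ≤
        (Subgroup.normalClosure ((C ∪ T.image g : Finset G) : Set G)).map f := by
      rw [Subgroup.closure_le]
      intro t ht
      refine ⟨g t, ?_, hg2 t ht⟩
      apply Subgroup.subset_normalClosure
      rw [Finset.coe_union]
      right
      rw [Finset.coe_image]
      exact ⟨t, ht, rfl⟩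
    obtain ⟨m, hm, hmn⟩ := h2 h1
    have h3 : m⁻¹ * n ∈ M := QuotientGroup.eq.mp hmn
    have h4 := Subgroup.mul_mem _ hm (hM1 h3)
    simpa using h4

end Pool.Agent.LibNM
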