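import Mathlib
import Pool.Agent.LibNM.Defs
import Pool.Agent.LibNM.N17

set_option autoImplicit false

/-! [NM N11] The maximal condition of P. Hall.

PLAN. `Q := G ⧸ N` is a finitely generated commutative group, so `R := MonoidAlgebra ℤ Q` is a Noetherian
commutative ring (`MonoidAlgebra.finiteType_of_fg`, `Algebra.FiniteType.isNoetherianRing`). `A := Additive N`
is an `R`-module (conjugation; `N` is abelian, so `G ⧸ N` acts on it: `MulAut.conjNormal`; the module
structure by `ringAct α` of LibND and `Module.compHom`, or `MonoidAlgebra.lift`), spanned by the finite set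
of `normal_fg` (N17; the span of these elements is stable under conjugation, so it corresponds to a normal
subgroup), so it is a Noetherian module. A normal subgroup of `G` contained in `N` gives a submodule, and `<`
is preserved; so the set of these subgroups satisfies the ascending chain condition, and a nonempty set has a
maximal element (`WellFounded.has_min` for `>` on submodules, through the map to submodules). -/

namespace Pool.Agent.LibNM

/-- the conjugation action of `G ⧸ N` on the abelian normal subgroup `N` -/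
private noncomputable def N11_al {G : Type} [Group G] (N : Subgroup G) [N.Normal]
    (hN : ∀ a ∈ N, ∀ b ∈ N, a * b = b * a) : G ⧸ N →* MulAut N :=
  QuotientGroup.lift N MulAut.conjNormal (by
    intro x hx
    apply MulEquiv.ext
    intro y
    apply Subtype.ext
    rw [MulAut.conjNormal_apply, MulAut.one_apply, hN x hx _ y.2, mul_inv_cancel_right])

/-- the same action on the additive group -/
private noncomputable def N11_end {G : Type} [Group G] (N : Subgroup G) [N.Normal] [AddCommGroup (Additive N)]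
    (e : ∀ a b : Additive N, a + b = Additive.ofMul (a.toMul * b.toMul)) (φ : MulAut N) :
    AddMonoid.End (Additive N) where
  toFun a := Additive.ofMul (φ a.toMul)
  map_zero' := by
    have h : (0 : Additive N) = Additive.ofMul 1 := by
      have h1 := e 0 0
      rw [add_zero] at h1
      have h2 : (0 : Additive N).toMul = (0 : Additive N).toMul * (0 : Additive N).toMul := congrArg Additive.toMul h1
      have h3 : (0 : Additive N).toMul = 1 := by
        rw [eq_comm, mul_eq_left] at h2
        exact h2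
      rw [← h3]
      rfl
    rw [h]
    change Additive.ofMul (φ 1) = Additive.ofMul 1
    rw [map_one]
  map_add' a b := by
    rw [e, e]
    change Additive.ofMul (φ (a.toMul * b.toMul)) = Additive.ofMul (φ a.toMul * φ b.toMul)
    rw [map_mul]

theorem maxn {G : Type} [Group G] (hG : Group.FG G) (N : Subgroup G) [N.Normal]
    (hN : ∀ a ∈ N, ∀ b ∈ N, a * b = b * a) (hQ : ∀ a b : G, a * b * a⁻¹ * b⁻¹ ∈ N)
    (𝒮 : Set (Subgroup G)) (h𝒮 : 𝒮.Nonempty) (h : ∀ K ∈ 𝒮, K.Normal ∧ K ≤ N) :
    ∃ K ∈ 𝒮, ∀ K' ∈ 𝒮, K ≤ K' → K' = K := by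
  classical
  letI : CommGroup N := { (inferInstance : Group N) with
    mul_comm := fun a b => Subtype.ext (hN a a.2 b b.2) }
  letI : CommGroup (G ⧸ N) := { (inferInstance : Group (G ⧸ N)) with
    mul_comm := by
      intro a b
      obtain ⟨a, rfl⟩ := QuotientGroup.mk_surjective a
      obtain ⟨b, rfl⟩ := QuotientGroup.mk_surjective b
      change ((a * b : G) : G ⧸ N) = ((b * a : G) : G ⧸ N)
      rw [QuotientGroup.eq]
      have h1 := hQ b⁻¹ a⁻¹
      rw [inv_inv, inv_inv] at h1
      rw [mul_inv_rev]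
      rw [mul_assoc (b⁻¹ * a⁻¹)] at h1
      exact h1 }
  haveI : Group.FG G := hG
  haveI : Group.FG (G ⧸ N) := inferInstance
  haveI : Monoid.FG (G ⧸ N) := inferInstance
  haveI : Algebra.FiniteType ℤ (MonoidAlgebra ℤ (G ⧸ N)) := inferInstance
  haveI : IsNoetherianRing (MonoidAlgebra ℤ (G ⧸ N)) := Algebra.FiniteType.isNoetherianRing ℤ _
  let α : G ⧸ N →* AddMonoid.End (Additive N) :=
    { toFun := fun q => N11_end N (fun _ _ => rfl) (N11_al N hN q)
      map_one' := by
        refine AddMonoidHom.ext fun a => ?_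
        change Additive.ofMul ((N11_al N hN 1) a.toMul) = a
        rw [map_one]
        rfl
      map_mul' := by
        intro p q
        refine AddMonoidHom.ext fun a => ?_
        change Additive.ofMul ((N11_al N hN (p * q)) a.toMul) = Additive.ofMul ((N11_al N hN p) ((N11_al N hN q) a.toMul))
        rw [map_mul]
        rfl }
  let act : MonoidAlgebra ℤ (G ⧸ N) →+* AddMonoid.End (Additive N) :=
    (MonoidAlgebra.lift ℤ (AddMonoid.End (Additive N)) (G ⧸ N) α).toRingHom
  letI : Module (MonoidAlgebra ℤ (G ⧸ N)) (Additive N) := Module.compHom (Additive N) act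
  have hof : ∀ (g : G) (a : Additive N), (MonoidAlgebra.of ℤ (G ⧸ N) (g : G ⧸ N)) • a =
      Additive.ofMul (MulAut.conjNormal g a.toMul) := by
    intro g a
    change act (MonoidAlgebra.of ℤ (G ⧸ N) (g : G ⧸ N)) a = _
    have h1 : act (MonoidAlgebra.of ℤ (G ⧸ N) (g : G ⧸ N)) = α (g : G ⧸ N) := by
      change (MonoidAlgebra.lift ℤ (AddMonoid.End (Additive N)) (G ⧸ N) α) (MonoidAlgebra.of ℤ (G ⧸ N) (g : G ⧸ N)) = _
      rw [MonoidAlgebra.lift_of]
    rw [h1]
    rfl
  -- the submodule of a normal subgroup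
  have hsub : ∀ K : Subgroup G, K.Normal → ∀ (r : MonoidAlgebra ℤ (G ⧸ N)) (a : Additive N), (a.toMul : G) ∈ K →
      ((r • a : Additive N).toMul : G) ∈ K := by
    intro K hK r
    induction r using MonoidAlgebra.induction_on with
    | of q =>
      intro a ha
      obtain ⟨g, rfl⟩ := QuotientGroup.mk_surjective q
      have h1 := hof g a
      have h2 : ((MonoidAlgebra.of ℤ (G ⧸ N) (g : G ⧸ N) • a : Additive N).toMul : G) = g * (a.toMul : G) * g⁻¹ := by
        rw [h1]
        exact MulAut.conjNormal_apply g a.toMul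
      rw [h2]
      exact hK.conj_mem _ ha g
    | add r s hr hs =>
      intro a ha
      rw [add_smul]
      exact K.mul_mem (hr a ha) (hs a ha)
    | smul c r hr =>
      intro a ha
      have h1 : ((c • r) • a : Additive N) = c • (r • a) := by
        rw [← Int.cast_smul_eq_zsmul (MonoidAlgebra ℤ (G ⧸ N)) c r, ← Int.cast_smul_eq_zsmul (MonoidAlgebra ℤ (G ⧸ N)) c (r • a),
          smul_eq_mul, mul_smul]
      rw [h1]
      change (((r • a : Additive N).toMul ^ c : N) : G) ∈ K
      rw [Subgroup.coe_zpow]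
      exact K.zpow_mem (hr a ha) c
  let Φ : {K : Subgroup G // K.Normal} → Submodule (MonoidAlgebra ℤ (G ⧸ N)) (Additive N) := fun K =>
    { carrier := {a | (a.toMul : G) ∈ K.1}
      add_mem' := fun {a b} ha hb => K.1.mul_mem ha hb
      zero_mem' := K.1.one_mem
      smul_mem' := fun r a ha => hsub K.1 K.2 r a ha }
  have hΦ : ∀ K (a : Additive N), a ∈ Φ K ↔ (a.toMul : G) ∈ K.1 := fun K a => Iff.rfl
  obtain ⟨F, hF, hFN⟩ := normal_fg hG N hQ
  haveI : Module.Finite (MonoidAlgebra ℤ (G ⧸ N)) (Additive N) := by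
    let F' : Finset (Additive N) := F.attach.image fun x => Additive.ofMul (⟨x.1, hF x.2⟩ : N)
    refine ⟨⟨F', ?_⟩⟩
    rw [eq_top_iff]
    intro a _
    let M : Subgroup G :=
      { carrier := {g | ∃ hg : g ∈ N, Additive.ofMul (⟨g, hg⟩ : N) ∈ Submodule.span (MonoidAlgebra ℤ (G ⧸ N)) (F' : Set (Additive N))}
        mul_mem' := by
          rintro g h ⟨hg, hg'⟩ ⟨hh, hh'⟩
          exact ⟨N.mul_mem hg hh, Submodule.add_mem _ hg' hh'⟩
        one_mem' := ⟨N.one_mem, Submodule.zero_mem _⟩
        inv_mem' := by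
          rintro g ⟨hg, hg'⟩
          exact ⟨N.inv_mem hg, Submodule.neg_mem _ hg'⟩ }
    have hM : M.Normal := by
      refine ⟨?_⟩
      rintro n ⟨hn, hn'⟩ g
      refine ⟨(inferInstance : N.Normal).conj_mem n hn g, ?_⟩
      have h1 := Submodule.smul_mem (Submodule.span (MonoidAlgebra ℤ (G ⧸ N)) (F' : Set (Additive N)))
        (MonoidAlgebra.of ℤ (G ⧸ N) (g : G ⧸ N)) hn'
      rw [hof] at h1
      convert h1 using 1
      exact congrArg Additive.ofMul (Subtype.ext (MulAut.conjNormal_apply g (⟨n, hn⟩ : N)).symm)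
    have h2 : N ≤ M := by
      rw [← hFN]
      refine Subgroup.normalClosure_le_normal ?_
      intro x hx
      refine ⟨hF hx, Submodule.subset_span ?_⟩
      exact Finset.mem_coe.2 (Finset.mem_image.2 ⟨⟨x, hx⟩, Finset.mem_attach _ _, rfl⟩)
    obtain ⟨h3, h4⟩ := h2 a.toMul.2
    exact h4
  haveI : IsNoetherian (MonoidAlgebra ℤ (G ⧸ N)) (Additive N) := isNoetherian_of_isNoetherianRing_of_finite _ _
  have hwf : WellFounded ((· > ·) : Submodule (MonoidAlgebra ℤ (G ⧸ N)) (Additive N) → _ → Prop) :=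
    (inferInstance : WellFoundedGT (Submodule (MonoidAlgebra ℤ (G ⧸ N)) (Additive N))).wf
  obtain ⟨K₀, hK₀⟩ := h𝒮
  let T : Set (Submodule (MonoidAlgebra ℤ (G ⧸ N)) (Additive N)) := {L | ∃ K, ∃ hK : K ∈ 𝒮, Φ ⟨K, (h K hK).1⟩ = L}
  obtain ⟨L, ⟨K, hK, rfl⟩, hL⟩ := hwf.has_min T ⟨_, K₀, hK₀, rfl⟩
  refine ⟨K, hK, ?_⟩
  intro K' hK' hle
  refine le_antisymm ?_ hle
  by_contra hn
  refine hL (Φ ⟨K', (h K' hK').1⟩) ⟨K', hK', rfl⟩ ?_
  change Φ ⟨K, (h K hK).1⟩ < Φ ⟨K', (h K' hK').1⟩
  refine lt_of_le_of_ne ?_ ?_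
  · intro a ha
    rw [hΦ] at ha ⊢
    exact hle ha
  · intro he
    refine hn ?_
    intro x hx
    have hxN : x ∈ N := (h K' hK').2 hx
    have h5 : Additive.ofMul (⟨x, hxN⟩ : N) ∈ Φ ⟨K', (h K' hK').1⟩ := by
      rw [hΦ]
      exact hx
    rw [← he, hΦ] at h5
    exact h5

end Pool.Agent.LibNM
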