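import Mathlib
import Pool.Agent.LibNM.Defs
import Pool.Agent.LibNM.N11

set_option autoImplicit false

/-! [NM N18] Reduction of a finitely generated abelian-by-abelian group, group part.

PLAN. (1) `maxn` (N11) for `𝒮 = {K | K.Normal ∧ K ≤ N ∧ InfRank N K}` (it contains `⊥` by `hinf`) gives `K`.
(2) `S₀ := {g | ∀ n ∈ N, g n g⁻¹ n⁻¹ ∈ K}`, a normal subgroup with `N ≤ S₀` (`N` is abelian). For `s, t ∈ S₀` the
commutator `c = s t s⁻¹ t⁻¹ ∈ N` (`hQ`) is central modulo `K`: `g c g⁻¹ = [g s g⁻¹, g t g⁻¹]`, `g s g⁻¹ = s a`,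
`g t g⁻¹ = t b` with `a, b ∈ N` (`hQ`), and elements of `N` commute with `S₀` modulo `K` and among themselves, so
`g c g⁻¹ ∈ c K` (compute in `G₀ ⧸ K`). If `c ∉ K` then `K' := K ⊔ zpowers c` is normal, `K < K' ≤ N`, and
`InfRank N K'`: `K'/K` is cyclic, and from `k + 1` elements of `N`, independent modulo `K`, one gets `k` which
are independent modulo `K'` (if a nontrivial product of powers of the `a_i` is `c ^ m` modulo `K` with `m ≠ 0`,
drop one `a_i` with nonzero exponent; otherwise drop any). This contradicts the maximality of `K`. -/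

namespace Pool.Agent.LibNM

private theorem N18_aux {M : Type} [CommGroup M] (L L' : Subgroup M) (z : M)
    (hL' : ∀ x ∈ L', ∃ m : ℤ, x * z ^ m ∈ L) (k : ℕ) (b : Fin (k + 1) → M)
    (hb : ∀ c : Fin (k + 1) → ℤ, ∏ i, b i ^ c i ∈ L → c = 0) :
    ∃ b' : Fin k → M, ∀ c : Fin k → ℤ, ∏ i, b' i ^ c i ∈ L' → c = 0 := by
  by_cases h : ∀ c : Fin (k + 1) → ℤ, ∏ i, b i ^ c i ∈ L' → c = 0
  · refine ⟨fun i => b i.succ, fun c hc => ?_⟩
    have h1 : ∏ i, b i ^ (Fin.cons 0 c : Fin (k + 1) → ℤ) i ∈ L' := by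
      rw [Fin.prod_univ_succ]
      simpa using hc
    have h2 := h _ h1
    funext i
    have h3 := congrFun h2 i.succ
    simpa using h3
  · push Not at h
    obtain ⟨e, he, he0⟩ := h
    obtain ⟨i₀, hi₀⟩ : ∃ i, e i ≠ 0 := by
      by_contra hcon
      push Not at hcon
      exact he0 (funext hcon)
    obtain ⟨m, hm⟩ := hL' _ he
    refine ⟨fun i => b (i₀.succAbove i), fun c hc => ?_⟩
    obtain ⟨m', hm'⟩ := hL' _ hc
    have hf : ∏ i, b i ^ (i₀.insertNth (α := fun _ => ℤ) 0 c : Fin (k + 1) → ℤ) i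
        = ∏ i, b (i₀.succAbove i) ^ c i := by
      rw [Fin.prod_univ_succAbove _ i₀]
      simp
    rw [← hf] at hm'
    set f : Fin (k + 1) → ℤ := i₀.insertNth (α := fun _ => ℤ) 0 c with hfdef
    have hfi : f i₀ = 0 := by simp [hfdef]
    have hkey : ∏ i, b i ^ (m * f i - m' * e i) ∈ L := by
      have h1 : ((∏ i, b i ^ f i) * z ^ m') ^ m * ((∏ i, b i ^ e i) * z ^ m) ^ (-m') ∈ L :=
        L.mul_mem (L.zpow_mem hm' m) (L.zpow_mem hm (-m'))
      have h2 : ∏ i, b i ^ (m * f i - m' * e i)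
          = ((∏ i, b i ^ f i) * z ^ m') ^ m * ((∏ i, b i ^ e i) * z ^ m) ^ (-m') := by
        have e1 : ∏ i, b i ^ (m * f i - m' * e i)
            = (∏ i, b i ^ f i) ^ m * (∏ i, b i ^ e i) ^ (-m') := by
          rw [← Finset.prod_zpow, ← Finset.prod_zpow, ← Finset.prod_mul_distrib]
          refine Finset.prod_congr rfl fun i _ => ?_
          rw [← zpow_mul, ← zpow_mul, ← zpow_add]
          congr 1
          ring
        rw [e1, mul_zpow, mul_zpow, ← zpow_mul, ← zpow_mul]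
        have e2 : z ^ (m' * m) * z ^ (m * -m') = 1 := by
          rw [← zpow_add]
          have : m' * m + m * -m' = 0 := by ring
          rw [this, zpow_zero]
        calc (∏ i, b i ^ f i) ^ m * (∏ i, b i ^ e i) ^ (-m')
            = (∏ i, b i ^ f i) ^ m * (∏ i, b i ^ e i) ^ (-m') * (z ^ (m' * m) * z ^ (m * -m')) := by
              rw [e2, mul_one]
          _ = (∏ i, b i ^ f i) ^ m * z ^ (m' * m) * ((∏ i, b i ^ e i) ^ (-m') * z ^ (m * -m')) := by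
              exact mul_mul_mul_comm _ _ _ _
      rw [h2]
      exact h1
    have h3 := hb _ hkey
    have h4 : ∀ i, m * f i - m' * e i = 0 := fun i => congrFun h3 i
    have h5 : m' = 0 := by
      have := h4 i₀
      rw [hfi, mul_zero, zero_sub, neg_eq_zero] at this
      rcases mul_eq_zero.mp this with h | h
      · exact h
      · exact absurd h hi₀
    have h6 : m ≠ 0 := by
      intro hm0
      rw [hm0, zpow_zero, mul_one] at hm
      exact he0 (hb _ hm)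
    funext i
    have h7 := h4 (i₀.succAbove i)
    rw [h5, zero_mul, sub_zero] at h7
    rcases mul_eq_zero.mp h7 with h | h
    · exact absurd h h6
    · simpa [hfdef] using h

private theorem N18_rank {G : Type} [Group G] (N K K' : Subgroup G)
    (hN : ∀ a ∈ N, ∀ b ∈ N, a * b = b * a) (z : G) (hz : z ∈ N)
    (hK' : ∀ x ∈ K', x ∈ N → ∃ m : ℤ, x * z ^ m ∈ K) (h : InfRank N K) : InfRank N K' := by
  let _ : CommGroup N :=
    { (inferInstance : Group N) with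
      mul_comm := fun a b => Subtype.ext (hN a a.2 b b.2) }
  have hco : ∀ (k : ℕ) (b : Fin k → N) (c : Fin k → ℤ),
      ((∏ i, b i ^ c i : N) : G) = (List.ofFn fun i => (b i : G) ^ c i).prod := by
    intro k b c
    rw [← List.prod_ofFn]
    have := map_list_prod N.subtype (List.ofFn fun i => b i ^ c i)
    rw [List.map_ofFn] at this
    exact this
  intro k
  obtain ⟨a, haN, ha⟩ := h (k + 1)
  obtain ⟨b', hb'⟩ := N18_aux (K.subgroupOf N) (K'.subgroupOf N) ⟨z, hz⟩ (by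
      intro x hx
      obtain ⟨m, hm⟩ := hK' (x : G) (Subgroup.mem_subgroupOf.mp hx) x.2
      exact ⟨m, Subgroup.mem_subgroupOf.mpr hm⟩) k (fun i => ⟨a i, haN i⟩) (by
      intro c hc
      refine ha c ?_
      have h1 := Subgroup.mem_subgroupOf.mp hc
      rw [hco] at h1
      exact h1)
  refine ⟨fun i => (b' i : G), fun i => (b' i).2, fun c hc => hb' c ?_⟩
  refine Subgroup.mem_subgroupOf.mpr ?_
  rw [hco]
  exact hc

theorem exists_KS {G₀ : Type} [Group G₀] (hfg : Group.FG G₀) (N : Subgroup G₀) [N.Normal]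
    (hN : ∀ a ∈ N, ∀ b ∈ N, a * b = b * a) (hQ : ∀ a b : G₀, a * b * a⁻¹ * b⁻¹ ∈ N)
    (hinf : InfRank N ⊥) :
    ∃ K S₀ : Subgroup G₀, K.Normal ∧ S₀.Normal ∧ K ≤ N ∧ N ≤ S₀ ∧
      (∀ g, g ∈ S₀ ↔ ∀ n ∈ N, g * n * g⁻¹ * n⁻¹ ∈ K) ∧
      (∀ s ∈ S₀, ∀ t ∈ S₀, s * t * s⁻¹ * t⁻¹ ∈ K) ∧ InfRank N K ∧
      ∀ K' : Subgroup G₀, K'.Normal → K < K' → K' ≤ N → ¬ InfRank N K' := by
  obtain ⟨K, ⟨hKn, hKN, hKinf⟩, hKmax⟩ := maxn hfg N hN hQ
    {K : Subgroup G₀ | K.Normal ∧ K ≤ N ∧ InfRank N K} ⟨⊥, inferInstance, bot_le, hinf⟩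
    (fun K hK => ⟨hK.1, hK.2.1⟩)
  have hmax : ∀ K' : Subgroup G₀, K'.Normal → K < K' → K' ≤ N → ¬ InfRank N K' := by
    intro K' h1 h2 h3 h4
    exact (ne_of_gt h2) (hKmax K' ⟨h1, h3, h4⟩ h2.le)
  have hNn : N.Normal := inferInstance
  let S₀ : Subgroup G₀ :=
    { carrier := {g | ∀ n ∈ N, g * n * g⁻¹ * n⁻¹ ∈ K}
      one_mem' := by
        intro n hn
        simp
      mul_mem' := by
        intro g h hg hh n hn
        have h1 := hg (h * n * h⁻¹) (hNn.conj_mem n hn h)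
        have h2 := hh n hn
        have h3 := K.mul_mem h1 h2
        have h4 : g * (h * n * h⁻¹) * g⁻¹ * (h * n * h⁻¹)⁻¹ * (h * n * h⁻¹ * n⁻¹)
            = g * h * n * (g * h)⁻¹ * n⁻¹ := by group
        rw [h4] at h3
        exact h3
      inv_mem' := by
        intro g hg n hn
        have h0 : g⁻¹ * n * g ∈ N := by
          have := hNn.conj_mem n hn g⁻¹
          rwa [inv_inv] at this
        have h1 := K.inv_mem (hg (g⁻¹ * n * g) h0)
        have h4 : (g * (g⁻¹ * n * g) * g⁻¹ * (g⁻¹ * n * g)⁻¹)⁻¹ = g⁻¹ * n * g⁻¹⁻¹ * n⁻¹ := by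
          group
        rw [h4] at h1
        exact h1 }
  have hS : ∀ g, g ∈ S₀ ↔ ∀ n ∈ N, g * n * g⁻¹ * n⁻¹ ∈ K := fun g => Iff.rfl
  refine ⟨K, S₀, hKn, ⟨?_⟩, hKN, ?_, hS, ?_, hKinf, hmax⟩
  · intro g hg h n hn
    have h0 : h⁻¹ * n * h ∈ N := by
      have := hNn.conj_mem n hn h⁻¹
      rwa [inv_inv] at this
    have h1 := hKn.conj_mem _ (hg (h⁻¹ * n * h) h0) h
    have h4 : h * (g * (h⁻¹ * n * h) * g⁻¹ * (h⁻¹ * n * h)⁻¹) * h⁻¹
        = h * g * h⁻¹ * n * (h * g * h⁻¹)⁻¹ * n⁻¹ := by group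
    rw [h4] at h1
    exact h1
  · intro g hg n hn
    have h1 : g * n * g⁻¹ * n⁻¹ = 1 := by
      rw [hN g hg n hn]
      group
    rw [h1]
    exact K.one_mem
  · intro s hs t ht
    by_contra hc
    set c := s * t * s⁻¹ * t⁻¹ with hcdef
    have hcN : c ∈ N := hQ s t
    -- elements of `N` commute with `s`, `t` modulo `K`
    have hcomm : ∀ u ∈ S₀, ∀ n ∈ N, ((u : G₀) : G₀ ⧸ K) * (n : G₀ ⧸ K) = (n : G₀ ⧸ K) * (u : G₀ ⧸ K) := by
      intro u hu n hn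
      rw [← QuotientGroup.mk_mul, ← QuotientGroup.mk_mul, eq_comm, QuotientGroup.eq]
      have h1 := hKn.conj_mem _ (hu n hn) (n * u)⁻¹
      have h4 : (n * u)⁻¹ * (u * n * u⁻¹ * n⁻¹) * (n * u)⁻¹⁻¹ = (n * u)⁻¹ * (u * n) := by group
      rw [h4] at h1
      exact h1
    have hcen : ∀ g : G₀, ((g : G₀) : G₀ ⧸ K) * (c : G₀ ⧸ K) = (c : G₀ ⧸ K) * (g : G₀ ⧸ K) := by
      intro g
      obtain ⟨a, haN, ha⟩ : ∃ a ∈ N, g * s * g⁻¹ = s * a :=
        ⟨s⁻¹ * g * s * g⁻¹, by simpa using hQ s⁻¹ g, by group⟩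
      obtain ⟨b, hbN, hb⟩ : ∃ b ∈ N, g * t * g⁻¹ = t * b :=
        ⟨t⁻¹ * g * t * g⁻¹, by simpa using hQ t⁻¹ g, by group⟩
      have h1 : g * c * g⁻¹ = s * a * (t * b) * (s * a)⁻¹ * (t * b)⁻¹ := by
        rw [← ha, ← hb, hcdef]
        group
      have h2 : ((g * c * g⁻¹ : G₀) : G₀ ⧸ K) = (c : G₀ ⧸ K) := by
        rw [h1, hcdef]
        simp only [QuotientGroup.mk_mul, QuotientGroup.mk_inv]
        have e1 : Commute (a : G₀ ⧸ K) (t : G₀ ⧸ K) := (hcomm t ht a haN).symm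
        have e2 : Commute (a : G₀ ⧸ K) (s : G₀ ⧸ K) := (hcomm s hs a haN).symm
        have e3 : Commute (b : G₀ ⧸ K) (t : G₀ ⧸ K) := (hcomm t ht b hbN).symm
        have e4 : Commute (b : G₀ ⧸ K) (s : G₀ ⧸ K) := (hcomm s hs b hbN).symm
        have e5 : Commute (a : G₀ ⧸ K) (b : G₀ ⧸ K) := by
          have := hN a haN b hbN
          show (a : G₀ ⧸ K) * (b : G₀ ⧸ K) = (b : G₀ ⧸ K) * (a : G₀ ⧸ K)
          rw [← QuotientGroup.mk_mul, ← QuotientGroup.mk_mul, this]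
        generalize (a : G₀ ⧸ K) = A at *
        generalize (b : G₀ ⧸ K) = B at *
        generalize (s : G₀ ⧸ K) = S at *
        generalize (t : G₀ ⧸ K) = T at *
        calc S * A * (T * B) * (S * A)⁻¹ * (T * B)⁻¹
            = S * (A * T) * B * A⁻¹ * S⁻¹ * B⁻¹ * T⁻¹ := by group
          _ = S * (T * A) * B * A⁻¹ * S⁻¹ * B⁻¹ * T⁻¹ := by rw [e1.eq]
          _ = S * T * (A * B) * A⁻¹ * S⁻¹ * B⁻¹ * T⁻¹ := by group
          _ = S * T * (B * A) * A⁻¹ * S⁻¹ * B⁻¹ * T⁻¹ := by rw [e5.eq]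
          _ = S * T * (B * S⁻¹) * B⁻¹ * T⁻¹ := by group
          _ = S * T * (S⁻¹ * B) * B⁻¹ * T⁻¹ := by rw [e4.inv_right.eq]
          _ = S * T * S⁻¹ * T⁻¹ := by group
      rw [QuotientGroup.mk_mul, QuotientGroup.mk_mul, QuotientGroup.mk_inv] at h2
      exact mul_inv_eq_iff_eq_mul.mp h2
    -- the subgroup `K'`
    let K' : Subgroup G₀ := (Subgroup.zpowers (c : G₀ ⧸ K)).comap (QuotientGroup.mk' K)
    have hmem : ∀ x, x ∈ K' ↔ ∃ m : ℤ, (c : G₀ ⧸ K) ^ m = (x : G₀ ⧸ K) := fun x => Iff.rfl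
    have hmem2 : ∀ x ∈ K', ∃ m : ℤ, x * c ^ m ∈ K := by
      intro x hx
      obtain ⟨m, hm⟩ := (hmem x).mp hx
      refine ⟨-m, ?_⟩
      rw [← QuotientGroup.eq_one_iff, QuotientGroup.mk_mul, QuotientGroup.mk_zpow, ← hm,
        ← zpow_add, add_neg_cancel, zpow_zero]
    refine hmax K' ⟨?_⟩ ?_ ?_ ?_
    · intro x hx g
      obtain ⟨m, hm⟩ := (hmem x).mp hx
      refine (hmem _).mpr ⟨m, ?_⟩
      have h0 : ((g * x * g⁻¹ : G₀) : G₀ ⧸ K) = (g : G₀ ⧸ K) * (x : G₀ ⧸ K) * (g : G₀ ⧸ K)⁻¹ := rfl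
      rw [h0, ← hm]
      have h1 : Commute (g : G₀ ⧸ K) (c : G₀ ⧸ K) := hcen g
      have h2 := (h1.zpow_right m).eq
      rw [h2, mul_assoc, mul_inv_cancel, mul_one]
    · refine lt_of_le_of_ne ?_ ?_
      · intro x hx
        refine (hmem x).mpr ⟨0, ?_⟩
        rw [zpow_zero, eq_comm, QuotientGroup.eq_one_iff]
        exact hx
      · intro h
        apply hc
        rw [h]
        exact (hmem c).mpr ⟨1, zpow_one _⟩
    · intro x hx
      obtain ⟨m, hm⟩ := hmem2 x hx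
      have h1 := N.mul_mem (hKN hm) (N.zpow_mem hcN (-m))
      have h2 : x * c ^ m * c ^ (-m) = x := by group
      rwa [h2] at h1
    · exact N18_rank N K K' hN c hcN (fun x hx _ => hmem2 x hx) hKinf

end Pool.Agent.LibNM
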