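import Mathlib
import Pool.Agent.LibNM.Defs
import Pool.Agent.LibNM.N16
import Pool.Agent.LibNM.N18

set_option autoImplicit false

/-! [NM N20] Reduction of a finitely generated abelian-by-abelian group, module part.

PLAN. `K`, `S₀` from `exists_KS` (N18). `G₁ := G₀ ⧸ K`, `p₁ := QuotientGroup.mk' K`, `S := S₀.map p₁`, an abelian normal
subgroup; `A := Additive S` (an additive commutative group: build the `CommGroup S` structure from the
commutativity), `Q := G₁ ⧸ S` (commutative since `G₀ ⧸ N` is and `N ≤ S₀`; finitely generated as a quotient of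
`G₀`), `α` = conjugation (`MulAut.conjNormal`, well defined on `Q` as `S` is abelian: `QuotientGroup.lift`),
`j` = subtype, `π = mk' S`: `IsExt α j π`.
`M := ` the additive subgroup of `A` of the images of the elements of `N`, stable under `ringAct α r` for all
`r : R := MonoidAlgebra ℤ Q`: an `R`-module (for instance make `A` an `R`-module by `Module.compHom A (ringAct α).toRingHom`
and take the `R`-submodule `M`). `ℵ₀ ≤ rank ℤ M` by `InfRank N K`. A nonzero `R`-submodule `L` of `M` corresponds to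
a normal subgroup `K'` of `G₀` with `K < K' ≤ N`, and `¬ InfRank N K'` gives `rank ℤ (M ⧸ L) < ℵ₀`. Choose `a₀ ≠ 0` in `M`
and apply `ann_facts` (N16) to `M`. `P := torsionOf R M a₀`. Faithful: if `single γ 1 - 1 ∈ P` then `γ` acts trivially on
`M` (`ann_facts`), that is a lift `g : G₀` of `γ` satisfies `g n g⁻¹ n⁻¹ ∈ K` for all `n ∈ N`, so `g ∈ S₀`, `γ = 1`. -/

namespace Pool.Agent.LibNM

open Cardinal Pool.Agent.LibND

/-- products of powers and sums of multiples -/
private theorem N20_sum {G₀ G₁ A : Type} [Group G₀] [Group G₁] [AddCommGroup A] (p₁ : G₀ →* G₁)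
    (j : Multiplicative A →* G₁) {k : ℕ} (n : Fin k → G₀) (m : Fin k → A)
    (h : ∀ i, j (Multiplicative.ofAdd (m i)) = p₁ (n i)) (c : Fin k → ℤ) :
    j (Multiplicative.ofAdd (∑ i, c i • m i)) = p₁ ((List.ofFn fun i => n i ^ c i).prod) := by
  have h1 : Multiplicative.ofAdd (∑ i, c i • m i) =
      (List.ofFn fun i => Multiplicative.ofAdd (m i) ^ c i).prod := by
    rw [List.prod_ofFn, ofAdd_sum]
    rfl
  rw [h1, map_list_prod, map_list_prod, List.map_ofFn, List.map_ofFn]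
  congr 2
  funext i
  simp only [Function.comp, map_zpow, h]

/-- an infinite rank gives independent families of every size -/
private theorem N20_fam {V : Type} [AddCommGroup V] (h : ℵ₀ ≤ Module.rank ℤ V) (k : ℕ) :
    ∃ v : Fin k → V, ∀ c : Fin k → ℤ, ∑ i, c i • v i = 0 → c = 0 := by
  have h1 : (k : Cardinal) ≤ Module.rank ℤ V := (natCast_lt_aleph0.le).trans h
  obtain ⟨f, hf⟩ := Module.le_rank_iff_exists_linearMap.1 h1
  refine ⟨fun i => f (Pi.single i 1), fun c hc => ?_⟩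
  have h2 : f c = ∑ i, c i • f (Pi.single i 1) := by
    conv_lhs => rw [LinearMap.pi_apply_eq_sum_univ f c]
    refine Finset.sum_congr rfl fun i _ => ?_
    congr 2
    funext l
    simp [Pi.single_apply, eq_comm]
  rw [← h2] at hc
  exact hf (by rw [hc, map_zero])

/-- independent families of every size give an infinite rank -/
private theorem N20_rank {V : Type} [AddCommGroup V]
    (h : ∀ k : ℕ, ∃ v : Fin k → V, ∀ c : Fin k → ℤ, ∑ i, c i • v i = 0 → c = 0) :
    ℵ₀ ≤ Module.rank ℤ V := by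
  rw [Cardinal.aleph0_le]
  intro k
  obtain ⟨v, hv⟩ := h k
  have h1 : LinearIndependent ℤ v := by
    rw [Fintype.linearIndependent_iff]
    intro c hc i
    rw [hv c hc]
    rfl
  have h2 := h1.cardinal_le_rank
  rwa [Cardinal.mk_fin] at h2

/-- the extension given by an abelian normal subgroup with abelian quotient -/
private theorem N20_ext {G₁ : Type} [Group G₁] (S : Subgroup G₁) [S.Normal]
    (hSc : ∀ x ∈ S, ∀ y ∈ S, x * y = y * x) (hQc : ∀ a b : G₁, a * b * a⁻¹ * b⁻¹ ∈ S) :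
    ∃ (A Q : Type) (_ : AddCommGroup A) (_ : CommGroup Q) (α : Q →* AddMonoid.End A)
      (j : Multiplicative A →* G₁) (π : G₁ →* Q), IsExt α j π ∧ j.range = S := by
  let cS : CommGroup S :=
    { (inferInstance : Group S) with
      mul_comm := fun x y => Subtype.ext (hSc x x.2 y y.2) }
  let cQ : CommGroup (G₁ ⧸ S) :=
    { (inferInstance : Group (G₁ ⧸ S)) with
      mul_comm := by
        intro x y
        obtain ⟨a, rfl⟩ := QuotientGroup.mk'_surjective S x
        obtain ⟨b, rfl⟩ := QuotientGroup.mk'_surjective S y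
        have h1 : (QuotientGroup.mk' S) (a * b * a⁻¹ * b⁻¹) = 1 :=
          (QuotientGroup.eq_one_iff _).2 (hQc a b)
        simp only [map_mul, map_inv] at h1
        rw [mul_inv_eq_one, mul_inv_eq_iff_eq_mul] at h1
        exact h1 }
  let αG : G₁ →* AddMonoid.End (Additive S) :=
    { toFun := fun g => MonoidHom.toAdditive (MulAut.conjNormal (H := S) g).toMonoidHom
      map_one' := by
        ext x
        simp only [map_one]
        rfl
      map_mul' := by
        intro g h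
        ext x
        simp only [map_mul]
        rfl }
  have hαG : ∀ (g : G₁) (x : Additive S),
      ((Additive.toMul (αG g x) : S) : G₁) = g * ((Additive.toMul x : S) : G₁) * g⁻¹ :=
    fun g x => rfl
  have hα : ∀ s ∈ S, αG s = 1 := by
    intro s hs
    refine AddMonoidHom.ext fun x => Additive.toMul.injective (Subtype.ext ?_)
    exact (hαG s x).trans (mul_inv_eq_iff_eq_mul.2 (hSc s hs _ (Additive.toMul x).2))
  let j : Multiplicative (Additive S) →* G₁ :=
    { toFun := fun x => ((Additive.toMul (Multiplicative.toAdd x) : S) : G₁)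
      map_one' := rfl
      map_mul' := fun x y => rfl }
  have hj : ∀ x : Additive S, j (Multiplicative.ofAdd x) = ((Additive.toMul x : S) : G₁) :=
    fun x => rfl
  refine ⟨Additive S, G₁ ⧸ S, inferInstance, cQ, QuotientGroup.lift S αG hα, j,
    QuotientGroup.mk' S, ?_, ?_⟩
  · refine ⟨fun x y hxy => ?_, QuotientGroup.mk'_surjective S, ?_, fun g a => ?_⟩
    · exact Multiplicative.toAdd.injective (Additive.toMul.injective (Subtype.ext hxy))
    · rw [QuotientGroup.ker_mk']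
      ext x
      constructor
      · rintro ⟨y, rfl⟩
        exact (Additive.toMul (Multiplicative.toAdd y)).2
      · intro hx
        exact ⟨Multiplicative.ofAdd (Additive.ofMul ⟨x, hx⟩), rfl⟩
    · rw [hj, hj]
      rfl
  · ext x
    constructor
    · rintro ⟨y, rfl⟩
      exact (Additive.toMul (Multiplicative.toAdd y)).2
    · intro hx
      exact ⟨Multiplicative.ofAdd (Additive.ofMul ⟨x, hx⟩), rfl⟩

/-- the module part -/
private theorem N20_module {G₀ G₁ A Q : Type} [Group G₀] [Group G₁] [AddCommGroup A] [CommGroup Q]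
    (N K : Subgroup G₀) [N.Normal] (hKN : K ≤ N) (p₁ : G₀ →* G₁) (hp : Function.Surjective p₁)
    (hker : p₁.ker = K) (α : Q →* AddMonoid.End A) (j : Multiplicative A →* G₁) (π : G₁ →* Q)
    (hE : IsExt α j π) (hNS : ∀ n ∈ N, p₁ n ∈ j.range)
    (hS : ∀ g : G₀, (∀ n ∈ N, g * n * g⁻¹ * n⁻¹ ∈ K) → π (p₁ g) = 1) (hinf : InfRank N K)
    (hmax : ∀ K' : Subgroup G₀, K'.Normal → K < K' → K' ≤ N → ¬ InfRank N K') :
    ∃ (a₀ : A) (P : Ideal (MonoidAlgebra ℤ Q)), P.IsPrime ∧
      (∀ r, ringAct α r a₀ = 0 ↔ r ∈ P) ∧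
      (∀ γ : Q, γ ≠ 1 → MonoidAlgebra.single γ (1 : ℤ) - 1 ∉ P) ∧
      ℵ₀ ≤ Module.rank ℤ (MonoidAlgebra ℤ Q ⧸ P) ∧
      ∀ I : Ideal (MonoidAlgebra ℤ Q), P < I → Module.rank ℤ (MonoidAlgebra ℤ Q ⧸ I) < ℵ₀ := by
  let B : AddSubgroup A :=
    { carrier := {a | ∃ n ∈ N, j (Multiplicative.ofAdd a) = p₁ n}
      add_mem' := by
        rintro a b ⟨n, hn, h1⟩ ⟨n', hn', h2⟩
        exact ⟨n * n', N.mul_mem hn hn', by rw [ofAdd_add, map_mul, map_mul, h1, h2]⟩
      zero_mem' := ⟨1, N.one_mem, by rw [ofAdd_zero, map_one, map_one]⟩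
      neg_mem' := by
        rintro a ⟨n, hn, h1⟩
        exact ⟨n⁻¹, N.inv_mem hn, by rw [ofAdd_neg, map_inv, map_inv, h1]⟩ }
  have hB : ∀ a, a ∈ B ↔ ∃ n ∈ N, j (Multiplicative.ofAdd a) = p₁ n := fun a => Iff.rfl
  have hconj : ∀ (g : G₀) (a : A), j (Multiplicative.ofAdd (α (π (p₁ g)) a)) =
      p₁ g * j (Multiplicative.ofAdd a) * (p₁ g)⁻¹ := fun g a => (hE.conj (p₁ g) a).symm
  have hlift : ∀ γ : Q, ∃ g : G₀, π (p₁ g) = γ := by
    intro γ
    obtain ⟨g₁, rfl⟩ := hE.surj γ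
    obtain ⟨g, rfl⟩ := hp g₁
    exact ⟨g, rfl⟩
  have hBα : ∀ (γ : Q), ∀ a ∈ B, α γ a ∈ B := by
    rintro γ a ⟨n, hn, h1⟩
    obtain ⟨g, rfl⟩ := hlift γ
    refine ⟨g * n * g⁻¹, Subgroup.Normal.conj_mem inferInstance n hn g, ?_⟩
    rw [hconj, h1, map_mul, map_mul, map_inv]
  have hBr : ∀ (r : MonoidAlgebra ℤ Q), ∀ a ∈ B, ringAct α r a ∈ B := by
    intro r a ha
    induction r using MonoidAlgebra.induction_on with
    | of γ =>
      have h1 : ringAct α (MonoidAlgebra.of ℤ Q γ) = α γ := MonoidAlgebra.lift_of _ _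
      rw [h1]
      exact hBα γ a ha
    | add r s hr hs =>
      rw [map_add]
      exact B.add_mem hr hs
    | smul c r hr =>
      rw [map_smul]
      exact B.zsmul_mem hr c
  let _ : Module (MonoidAlgebra ℤ Q) A := Module.compHom A (ringAct α).toRingHom
  have hsm : ∀ (r : MonoidAlgebra ℤ Q) (a : A), r • a = ringAct α r a := fun r a => rfl
  let M : Submodule (MonoidAlgebra ℤ Q) A :=
    { B with
      smul_mem' := fun r a ha => hBr r a ha }
  have hM : ∀ x : M, ∃ n ∈ N, j (Multiplicative.ofAdd (x : A)) = p₁ n := fun x => x.2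
  have hMn : ∀ n ∈ N, ∃ x : M, j (Multiplicative.ofAdd (x : A)) = p₁ n := by
    intro n hn
    obtain ⟨y, hy⟩ := hNS n hn
    exact ⟨⟨Multiplicative.toAdd y, n, hn, hy⟩, hy⟩
  have hj0 : ∀ a : A, j (Multiplicative.ofAdd a) = 1 → a = 0 := by
    intro a ha
    have h1 : Multiplicative.ofAdd a = 1 := hE.inj (by rw [ha, map_one])
    exact Multiplicative.ofAdd.injective h1
  have hcoe : ∀ {k : ℕ} (v : Fin k → M) (c : Fin k → ℤ),
      ((∑ i, c i • v i : M) : A) = ∑ i, c i • (v i : A) := by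
    intro k v c
    have h1 : ∀ x : M, M.toAddSubgroup.subtype x = (x : A) := fun x => rfl
    rw [← h1, map_sum]
    refine Finset.sum_congr rfl fun i _ => ?_
    rw [map_zsmul]
    rfl
  -- the rank of `M`
  have hinfM : ℵ₀ ≤ Module.rank ℤ M := by
    refine N20_rank fun k => ?_
    obtain ⟨a, ha, hc⟩ := hinf k
    choose v hv using fun i => hMn (a i) (ha i)
    refine ⟨v, fun c h0 => hc c ?_⟩
    have h1 := N20_sum p₁ j a (fun i => (v i : A)) hv c
    rw [← hcoe v c, h0] at h1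
    rw [← hker, MonoidHom.mem_ker, ← h1]
    exact map_one j
  -- the quotients of `M`
  have hq : ∀ L : Submodule (MonoidAlgebra ℤ Q) M, L ≠ ⊥ → Module.rank ℤ (M ⧸ L) < ℵ₀ := by
    intro L hL
    by_contra hcon
    push Not at hcon
    let K' : Subgroup G₀ :=
      { carrier := {g | ∃ x ∈ L, j (Multiplicative.ofAdd ((x : M) : A)) = p₁ g}
        mul_mem' := by
          rintro g h ⟨x, hx, h1⟩ ⟨y, hy, h2⟩
          exact ⟨x + y, L.add_mem hx hy, by
            rw [Submodule.coe_add, ofAdd_add, map_mul, map_mul, h1, h2]⟩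
        one_mem' := ⟨0, L.zero_mem, by rw [Submodule.coe_zero, ofAdd_zero, map_one, map_one]⟩
        inv_mem' := by
          rintro g ⟨x, hx, h1⟩
          exact ⟨-x, L.neg_mem hx, by rw [Submodule.coe_neg, ofAdd_neg, map_inv, map_inv, h1]⟩ }
    have hK' : ∀ g, g ∈ K' ↔ ∃ x ∈ L, j (Multiplicative.ofAdd ((x : M) : A)) = p₁ g :=
      fun g => Iff.rfl
    have hN' : K'.Normal := by
      refine ⟨?_⟩
      rintro g ⟨x, hx, h1⟩ h
      refine ⟨MonoidAlgebra.of ℤ Q (π (p₁ h)) • x, L.smul_mem _ hx, ?_⟩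
      have h2 : ((MonoidAlgebra.of ℤ Q (π (p₁ h)) • x : M) : A) = α (π (p₁ h)) (x : A) := by
        rw [Submodule.coe_smul, hsm]
        have h3 : ringAct α (MonoidAlgebra.of ℤ Q (π (p₁ h))) = α (π (p₁ h)) :=
          MonoidAlgebra.lift_of _ _
        rw [h3]
      rw [h2, hconj, h1, map_mul, map_mul, map_inv]
    have hlt : K < K' := by
      refine lt_of_le_of_ne ?_ ?_
      · intro g hg
        refine ⟨0, L.zero_mem, ?_⟩
        rw [← hker, MonoidHom.mem_ker] at hg
        rw [hg, Submodule.coe_zero, ofAdd_zero, map_one]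
      · intro heq
        apply hL
        rw [eq_bot_iff]
        intro x hx
        obtain ⟨n, hn, h1⟩ := hM x
        have h2 : n ∈ K' := ⟨x, hx, h1⟩
        rw [← heq, ← hker, MonoidHom.mem_ker] at h2
        rw [h2] at h1
        rw [Submodule.mem_bot]
        exact Subtype.ext (hj0 _ h1)
    have hle : K' ≤ N := by
      rintro g ⟨x, hx, h1⟩
      obtain ⟨n, hn, h2⟩ := hM x
      have h3 : n⁻¹ * g ∈ K := by
        rw [← hker, MonoidHom.mem_ker, map_mul, map_inv, ← h1, ← h2, inv_mul_cancel]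
      have h4 := N.mul_mem hn (hKN h3)
      rwa [mul_inv_cancel_left] at h4
    refine hmax K' hN' hlt hle fun k => ?_
    obtain ⟨f, hf⟩ := N20_fam hcon k
    choose v hv using fun i => Submodule.mkQ_surjective L (f i)
    choose n hn hn' using fun i => hM (v i)
    refine ⟨n, hn, fun c hc => hf c ?_⟩
    obtain ⟨x, hx, h1⟩ := hc
    rw [← N20_sum p₁ j n (fun i => (v i : A)) hn' c] at h1
    have h2 : (x : A) = ∑ i, c i • (v i : A) :=
      Multiplicative.ofAdd.injective (hE.inj h1)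
    rw [← hcoe v c] at h2
    have h3 : x = ∑ i, c i • v i := Subtype.ext h2
    have h4 : ∑ i, c i • f i = L.mkQ (∑ i, c i • v i) := by
      rw [map_sum]
      refine Finset.sum_congr rfl fun i _ => ?_
      rw [map_zsmul, hv]
    rw [h4, ← h3]
    exact (Submodule.Quotient.mk_eq_zero L).2 hx
  -- a nonzero element
  obtain ⟨a₀, ha₀⟩ : ∃ a₀ : M, a₀ ≠ 0 := by
    obtain ⟨v, hv⟩ := N20_fam hinfM 1
    refine ⟨v 0, fun h0 => ?_⟩
    have h1 := hv (fun _ => 1) (by simp [h0])
    have h2 := congrFun h1 0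
    simp at h2
  obtain ⟨h1, h2, h3, h4⟩ := ann_facts hinfM hq a₀ ha₀
  refine ⟨(a₀ : A), Ideal.torsionOf (MonoidAlgebra ℤ Q) M a₀, h1, fun r => ?_, fun γ hγ hmem => ?_,
    h3, h4⟩
  · rw [Ideal.mem_torsionOf_iff, ← hsm, ← Submodule.coe_smul, Submodule.coe_eq_zero]
  · apply hγ
    obtain ⟨g, rfl⟩ := hlift γ
    refine hS g fun n hn => ?_
    obtain ⟨x, hx⟩ := hMn n hn
    have h5 := h2 _ hmem x
    have h6 : ((((MonoidAlgebra.single (π (p₁ g)) (1 : ℤ) - 1 : MonoidAlgebra ℤ Q) • x : M)) : A) =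
        α (π (p₁ g)) (x : A) - (x : A) := by
      rw [Submodule.coe_smul, hsm, map_sub, map_one]
      have h7 : ringAct α (MonoidAlgebra.single (π (p₁ g)) (1 : ℤ)) = α (π (p₁ g)) :=
        MonoidAlgebra.lift_of _ _
      rw [h7]
      rfl
    rw [h5, Submodule.coe_zero, eq_comm, sub_eq_zero] at h6
    have h8 := hconj g (x : A)
    rw [h6, hx] at h8
    rw [← hker, MonoidHom.mem_ker, map_mul, map_mul, map_mul, map_inv, map_inv, ← h8,
      mul_inv_cancel]

theorem reduction {G₀ : Type} [Group G₀] (hfg : Group.FG G₀) (N : Subgroup G₀) [N.Normal]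
    (hN : ∀ a ∈ N, ∀ b ∈ N, a * b = b * a) (hQ : ∀ a b : G₀, a * b * a⁻¹ * b⁻¹ ∈ N)
    (hinf : InfRank N ⊥) :
    ∃ (G₁ A Q : Type) (_ : Group G₁) (_ : AddCommGroup A) (_ : CommGroup Q) (p₁ : G₀ →* G₁)
      (α : Q →* AddMonoid.End A) (j : Multiplicative A →* G₁) (π : G₁ →* Q) (a₀ : A)
      (P : Ideal (MonoidAlgebra ℤ Q)),
      Function.Surjective p₁ ∧ IsExt α j π ∧ Group.FG Q ∧ P.IsPrime ∧
      (∀ r, ringAct α r a₀ = 0 ↔ r ∈ P) ∧
      (∀ γ : Q, γ ≠ 1 → MonoidAlgebra.single γ (1 : ℤ) - 1 ∉ P) ∧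
      ℵ₀ ≤ Module.rank ℤ (MonoidAlgebra ℤ Q ⧸ P) ∧
      ∀ I : Ideal (MonoidAlgebra ℤ Q), P < I → Module.rank ℤ (MonoidAlgebra ℤ Q ⧸ I) < ℵ₀ := by
  obtain ⟨K, S₀, hK, hS₀, hKN, hNS, hmem, hcomm, hinfK, hmax⟩ := exists_KS hfg N hN hQ hinf
  have hp : Function.Surjective (QuotientGroup.mk' K) := QuotientGroup.mk'_surjective K
  have hSn : (S₀.map (QuotientGroup.mk' K)).Normal := Subgroup.Normal.map hS₀ _ hp
  obtain ⟨A, Q, _, _, α, j, π, hE, hj⟩ := N20_ext (S₀.map (QuotientGroup.mk' K)) (by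
    rintro _ ⟨s, hs, rfl⟩ _ ⟨t, ht, rfl⟩
    have h1 : (QuotientGroup.mk' K) (s * t * s⁻¹ * t⁻¹) = 1 :=
      (QuotientGroup.eq_one_iff _).2 (hcomm s hs t ht)
    simp only [map_mul, map_inv] at h1
    rw [mul_inv_eq_one, mul_inv_eq_iff_eq_mul] at h1
    exact h1) (by
    intro a b
    obtain ⟨a, rfl⟩ := hp a
    obtain ⟨b, rfl⟩ := hp b
    exact ⟨a * b * a⁻¹ * b⁻¹, hNS (hQ a b), by simp only [map_mul, map_inv]⟩)
  obtain ⟨a₀, P, h1, h2, h3, h4, h5⟩ := N20_module N K hKN (QuotientGroup.mk' K) hp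
    (QuotientGroup.ker_mk' K) α j π hE (fun n hn => by
      rw [hj]
      exact ⟨n, hNS hn, rfl⟩) (fun g hg => by
      rw [← MonoidHom.mem_ker, ← hE.exact, hj]
      exact ⟨g, (hmem g).2 hg, rfl⟩) hinfK hmax
  have hfgQ : Group.FG Q := by
    have := hfg
    exact Group.fg_of_surjective (f := π.comp (QuotientGroup.mk' K)) (hE.surj.comp hp)
  exact ⟨G₀ ⧸ K, A, Q, inferInstance, inferInstance, inferInstance, QuotientGroup.mk' K, α, j, π,
    a₀, P, hp, hE, hfgQ, h1, h2, h3, h4, h5⟩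

end Pool.Agent.LibNM
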