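import Mathlib
import Pool.Agent.LibND.N22
import Pool.Agent.LibNM.N13
import Pool.Agent.LibNM.N14
import Pool.Agent.LibNM.N15
import Pool.Agent.LibNM.N20

set_option autoImplicit false

/-! [NM N19] The theorem. -/

namespace Pool.Agent.LibNM

open Pool.Agent.LibND Cardinal

universe w

/-- The ring-theoretic part: the extension data give the criterion. -/
theorem main_of_data {G₁ A Q : Type} [Group G₁] [AddCommGroup A] [CommGroup Q]
    (α : Q →* AddMonoid.End A) (j : Multiplicative A →* G₁) (π : G₁ →* Q) (a₀ : A)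
    (P : Ideal (MonoidAlgebra ℤ Q)) (hext : IsExt α j π) (hQfg : Group.FG Q) (hPprime : P.IsPrime)
    (hann : ∀ r, ringAct α r a₀ = 0 ↔ r ∈ P)
    (hfaith : ∀ γ : Q, γ ≠ 1 → MonoidAlgebra.single γ (1 : ℤ) - 1 ∉ P)
    (hrk : ℵ₀ ≤ Module.rank ℤ (MonoidAlgebra ℤ Q ⧸ P))
    (hquot : ∀ I : Ideal (MonoidAlgebra ℤ Q), P < I → Module.rank ℤ (MonoidAlgebra ℤ Q ⧸ I) < ℵ₀)
    {G : Type} [Group G] (p : G →* G₁) (hp : Function.Surjective p)
    {C : Type w} [CStarAlgebra C] [PartialOrder C] [StarOrderedRing C] (U : G →* unitary C)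
    (hC : IsGroupCStar G C U) (n : ℕ) : ¬ NucDimLE C n := by
  classical
  haveI := hPprime
  haveI : IsDomain (MonoidAlgebra ℤ Q ⧸ P) := Ideal.Quotient.isDomain P
  have hft : Algebra.FiniteType ℤ (MonoidAlgebra ℤ Q ⧸ P) := by
    haveI : Monoid.FG Q := (Group.fg_iff_monoid_fg).1 hQfg
    haveI : Algebra.FiniteType ℤ (MonoidAlgebra ℤ Q) := inferInstance
    exact Algebra.FiniteType.of_surjective (Ideal.Quotient.mkₐ ℤ P) (Ideal.Quotient.mkₐ_surjective ℤ P)
  have hq : ∀ I : Ideal (MonoidAlgebra ℤ Q ⧸ P), I ≠ ⊥ →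
      Module.rank ℤ ((MonoidAlgebra ℤ Q ⧸ P) ⧸ I) < ℵ₀ := by
    intro I hI
    have h1 : P < I.comap (Ideal.Quotient.mk P) := by
      refine lt_of_le_of_ne ?_ ?_
      · intro r hr
        rw [Ideal.mem_comap, Ideal.Quotient.eq_zero_iff_mem.2 hr]
        exact I.zero_mem
      · intro h
        apply hI
        rw [eq_bot_iff]
        intro x hx
        obtain ⟨r, rfl⟩ := Ideal.Quotient.mk_surjective x
        have : r ∈ P := by
          rw [h]
          exact hx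
        rw [Submodule.mem_bot]
        exact Ideal.Quotient.eq_zero_iff_mem.2 this
    have h2 := hquot _ h1
    refine lt_of_le_of_lt ?_ h2
    let f : (MonoidAlgebra ℤ Q ⧸ I.comap (Ideal.Quotient.mk P)) →+* ((MonoidAlgebra ℤ Q ⧸ P) ⧸ I) :=
      Ideal.quotientMap I (Ideal.Quotient.mk P) le_rfl
    have hf : Function.Surjective f :=
      Ideal.quotientMap_surjective Ideal.Quotient.mk_surjective
    exact LinearMap.rank_le_of_surjective f.toAddMonoidHom.toIntLinearMap hf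
  obtain ⟨E, _, _, _, _, _, ι, hι, hιE⟩ := noether hft hrk hq
  let φ : Q →* (MonoidAlgebra ℤ Q ⧸ P)ˣ :=
    ((Ideal.Quotient.mk P).toMonoidHom.comp (MonoidAlgebra.of ℤ Q)).toHomUnits
  have hφv : ∀ γ : Q, ((φ γ : (MonoidAlgebra ℤ Q ⧸ P)ˣ) : MonoidAlgebra ℤ Q ⧸ P) =
      Ideal.Quotient.mk P (MonoidAlgebra.single γ 1) := fun γ => rfl
  have hφ : Function.Injective φ := by
    intro γ δ h
    by_contra hne
    have h1 : Ideal.Quotient.mk P (MonoidAlgebra.single (γ * δ⁻¹) (1 : ℤ)) = 1 := by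
      have : ((φ (γ * δ⁻¹) : (MonoidAlgebra ℤ Q ⧸ P)ˣ) : MonoidAlgebra ℤ Q ⧸ P) = 1 := by
        rw [map_mul, map_inv, h, mul_inv_cancel, Units.val_one]
      rw [← this, hφv]
    refine hfaith (γ * δ⁻¹) (fun h2 => hne (mul_inv_eq_one.1 h2)) ?_
    rw [← Ideal.Quotient.eq_zero_iff_mem, map_sub, h1, map_one, sub_self]
  obtain ⟨χ, E₀, ε, hε, hχ⟩ := nonrecurrent hQfg φ hφ ι hι hιE
  obtain ⟨g, a, hg, ha⟩ := independent ι hιE (n + 1)
  -- the action on `a₀`
  let m : (MonoidAlgebra ℤ Q ⧸ P) →+ A :=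
    QuotientAddGroup.lift P.toAddSubgroup
      ((AddMonoidHom.eval a₀).comp (ringAct α).toRingHom.toAddMonoidHom)
      (fun r hr => (hann r).2 hr)
  have hm : ∀ r : MonoidAlgebra ℤ Q, m (Ideal.Quotient.mk P r) = ringAct α r a₀ := fun r => rfl
  have hminj : Function.Injective m := by
    rw [injective_iff_map_eq_zero]
    intro x hx
    obtain ⟨r, rfl⟩ := Ideal.Quotient.mk_surjective x
    rw [hm] at hx
    exact Ideal.Quotient.eq_zero_iff_mem.2 ((hann r).1 hx)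
  have hmφ : ∀ (γ : Q) (x : MonoidAlgebra ℤ Q ⧸ P),
      m ((φ γ : MonoidAlgebra ℤ Q ⧸ P) * x) = α γ (m x) := by
    intro γ x
    obtain ⟨r, rfl⟩ := Ideal.Quotient.mk_surjective x
    rw [hφv, ← map_mul, hm, hm, map_mul]
    have : ringAct α (MonoidAlgebra.single γ (1 : ℤ)) = α γ := by
      unfold ringAct
      rw [MonoidAlgebra.lift_single, one_smul]
    rw [this]
    rfl
  let f : (MonoidAlgebra ℤ Q ⧸ P) →+ A := m.comp (AddMonoidHom.mulLeft g)
  have hf : ∀ x, f x = m (g * x) := fun x => rfl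
  have hfinj : Function.Injective f := by
    intro x y h
    exact mul_left_cancel₀ hg (hminj h)
  let e : (MonoidAlgebra ℤ Q ⧸ P) ≃+ f.range := AddMonoidHom.ofInjective hfinj
  have he : ∀ x, ((e x : f.range) : A) = f x := fun x => rfl
  obtain ⟨χ', hχ'⟩ := ext_circle f.range (χ.compAddMonoidHom e.symm.toAddMonoidHom)
  have hχ'f : ∀ x, χ' (f x) = χ x := by
    intro x
    rw [← he, hχ']
    simp
  refine moduleCriterion p hp α j π hext U hC f.range ?_ χ' (E₀.image f) ?_ ε hε ?_ (n + 1)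
    (fun i => m (a i)) ?_ n (Nat.lt_succ_self n)
  · rintro γ b ⟨x, rfl⟩
    refine ⟨(φ γ : MonoidAlgebra ℤ Q ⧸ P) * x, ?_⟩
    rw [hf, hf, ← hmφ]
    congr 1
    ring
  · intro b hb
    obtain ⟨x, -, rfl⟩ := Finset.mem_image.1 hb
    exact ⟨x, rfl⟩
  · intro γ hγ
    obtain ⟨b, hb, hd⟩ := hχ γ hγ
    refine ⟨f b, Finset.mem_image_of_mem f hb, ?_⟩
    have h1 : α γ (f b) = f ((φ γ : MonoidAlgebra ℤ Q ⧸ P) * b) := by
      rw [hf, hf, ← hmφ]
      congr 1
      ring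
    rw [h1, hχ'f, hχ'f]
    exact hd
  · rintro c ⟨d, hd⟩
    refine ha c ⟨d, ?_⟩
    apply hminj
    rw [← hf, hd, map_sum]
    refine Finset.sum_congr rfl fun i _ => ?_
    rw [← zsmul_eq_mul, map_zsmul]

theorem main {G₀ : Type} [Group G₀] (hfg : Group.FG G₀) (N : Subgroup G₀) [N.Normal]
    (hN : ∀ a ∈ N, ∀ b ∈ N, a * b = b * a) (hQ : ∀ a b : G₀, a * b * a⁻¹ * b⁻¹ ∈ N)
    (hinf : InfRank N ⊥) {G : Type} [Group G] (p : G →* G₀) (hp : Function.Surjective p)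
    {C : Type w} [CStarAlgebra C] [PartialOrder C] [StarOrderedRing C] (U : G →* unitary C)
    (hC : IsGroupCStar G C U) (n : ℕ) : ¬ NucDimLE C n := by
  obtain ⟨G₁, A, Q, iG, iA, iQ, p₁, α, j, π, a₀, P, hp₁, hext, hQfg, hPprime, hann, hfaith, hrk,
    hquot⟩ := reduction hfg N hN hQ hinf
  exact main_of_data α j π a₀ P hext hQfg hPprime hann hfaith hrk hquot (p₁.comp p)
    (hp₁.comp hp) U hC n

end Pool.Agent.LibNM
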