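import Mathlib
import Pool.Agent.LibNM.N19

set_option autoImplicit false

/-! Let `G₀` be a finitely generated group with an abelian normal subgroup `N` such that `G₀ / N` is
abelian (for example any finitely generated metabelian group). If `N` has infinite rank, that is, if the
Hirsch length of `G₀` is infinite, then the full group C*-algebra of every group with quotient `G₀` has
infinite nuclear dimension. -/

namespace Pool.Agent.LibNM.Metabelian

open Pool.Agent.LibND

universe w

theorem result {G₀ : Type} [Group G₀] (hfg : Group.FG G₀) (N : Subgroup G₀) [N.Normal]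
    (hN : ∀ a ∈ N, ∀ b ∈ N, a * b = b * a) (hQ : ∀ a b : G₀, a * b * a⁻¹ * b⁻¹ ∈ N)
    (hinf : ∀ k : ℕ, ∃ a : Fin k → G₀, (∀ i, a i ∈ N) ∧
      ∀ c : Fin k → ℤ, (List.ofFn fun i => a i ^ c i).prod = 1 → c = 0)
    {G : Type} [Group G] (p : G →* G₀) (hp : Function.Surjective p)
    {C : Type w} [CStarAlgebra C] [PartialOrder C] [StarOrderedRing C] (U : G →* unitary C)
    (hC : IsGroupCStar G C U) (n : ℕ) : ¬ NucDimLE C n :=
  Pool.Agent.LibNM.main hfg N hN hQ (fun k => by
    obtain ⟨a, h1, h2⟩ := hinf k
    exact ⟨a, h1, fun c hc => h2 c (Subgroup.mem_bot.1 hc)⟩) p hp U hC n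

end Pool.Agent.LibNM.Metabelian
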